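import Pool.Agent.MP_99d303_co.StepA

set_option autoImplicit false
set_option linter.unusedSectionVars false

open Finset

namespace Pool.Agent.MP_99d303_co

variable {V : Type*} [Fintype V] [DecidableEq V]
variable {E : V → V → V → Prop} {β τ : ℝ}

/-- heavy star: `u a x` is an edge and the pair `u a` is heavy -/
def HS (E : V → V → V → Prop) (u a x : V) : Prop := E u a x ∧ 3 ≤ cd E u a

theorem HS.uniq_u (hE : Good E) {u u' a x : V} (h : HS E u a x) (h' : HS E u' a x) : u = u' :=
  uniq (hE.heavy' h.2 h.1) (hE.rot h.1) (hE.rot h'.1)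

theorem HS.uniq_a (hE : Good E) {u a a' x : V} (h : HS E u a x) (h' : HS E u a' x) : a = a' :=
  uniq (hE.heavy h.2 h.1) (hE.swap23 h.1) (hE.swap23 h'.1)

theorem mem_RR {u x : V} {S : Finset V} : x ∈ RR E u S ↔ x ∈ S ∧ ∃ a ∈ S, HS E u a x := by
  simp only [RR, mem_filter, HS]

open scoped Classical in
/-- the centres -/
noncomputable def WW (E : V → V → V → Prop) (v x : V) : Finset V := univ.filter (fun b => HS E v b x)

theorem mem_WW {v x b : V} : b ∈ WW E v x ↔ HS E v b x := by simp [WW]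

theorem card_WW_le (hE : Good E) (v x : V) : ((WW E v x).card : ℝ) ≤ 1 := by
  have : (WW E v x).card ≤ 1 := by
    rw [card_le_one]
    intro a ha b hb
    rw [mem_WW] at ha hb
    exact ha.uniq_a hE hb
  exact_mod_cast this

theorem sum_ite_unique {ι : Type*} [Fintype ι] {P : ι → Prop} [DecidablePred P]
    (hP : ∀ u u', P u → P u' → u = u') {c : ℝ} (hc : 0 ≤ c) {f : ι → ℝ}
    (hf : ∀ u, P u → f u ≤ c) : ∑ u, (if P u then f u else 0) ≤ c := by
  by_cases h : ∃ u, P u
  · obtain ⟨u0, h0⟩ := h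
    rw [sum_eq_single u0]
    · rw [if_pos h0]; exact hf u0 h0
    · intro b _ hb
      rw [if_neg]
      intro hPb
      exact hb (hP b u0 hPb h0)
    · intro h; exact absurd (mem_univ _) h
  · rw [sum_eq_zero]
    · exact hc
    · intro u _
      rw [if_neg (fun hu => h ⟨u, hu⟩)]

theorem pair_count (S : Finset V) :
    ∑ r : V × V, (if ({r.1, r.2} : Finset V) ⊆ S then (1 : ℝ) else 0) = (S.card : ℝ) ^ 2 := by
  have : (univ : Finset (V × V)).filter (fun r => ({r.1, r.2} : Finset V) ⊆ S) = S ×ˢ S := by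
    ext r
    simp only [mem_filter, mem_univ, true_and, insert_subset_iff, singleton_subset_iff, mem_product]
  rw [← sum_filter, this, sum_const, nsmul_eq_mul, card_product]
  push_cast; ring

theorem triple_count (S : Finset V) :
    ∑ r : V × V × V, (if ({r.1, r.2.1, r.2.2} : Finset V) ⊆ S then (1 : ℝ) else 0)
      = (S.card : ℝ) ^ 3 := by
  have : (univ : Finset (V × V × V)).filter (fun r => ({r.1, r.2.1, r.2.2} : Finset V) ⊆ S)
      = S ×ˢ S ×ˢ S := by
    ext r
    simp only [mem_filter, mem_univ, true_and, insert_subset_iff, singleton_subset_iff, mem_product]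
  rw [← sum_filter, this, sum_const, nsmul_eq_mul, card_product, card_product]
  push_cast; ring

theorem supp_bound (hβ : 0 < β) {ρ : Type*} [Fintype ρ] {c M : ℝ} (hc : 0 ≤ c)
    (sp : ρ → Finset V)
    (hM : ∀ S ∈ II E, ∑ r, (if sp r ⊆ S then (1 : ℝ) else 0) ≤ M)
    (a : (V × V) × ρ → ℝ) (hcol : ∀ r, ∑ p, a (p, r) ≤ c) :
    ∑ S ∈ II E, wt E β τ S * ∑ i, a i * (if sp i.2 ⊆ S then (1 : ℝ) else 0)
      ≤ c * M * ZZ E β τ := by
  rw [ZZ, mul_sum]
  apply sum_le_sum
  intro S hS
  rw [mul_comm]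
  apply mul_le_mul_of_nonneg_right _ (wt_nonneg hβ S)
  rw [Fintype.sum_prod_type, sum_comm]
  calc ∑ r : ρ, ∑ p : V × V, a (p, r) * (if sp r ⊆ S then (1 : ℝ) else 0)
      = ∑ r : ρ, (∑ p : V × V, a (p, r)) * (if sp r ⊆ S then (1 : ℝ) else 0) := by
        apply sum_congr rfl; intro r _
        rw [sum_mul]
    _ ≤ ∑ r : ρ, c * (if sp r ⊆ S then (1 : ℝ) else 0) := by
        apply sum_le_sum; intro r _
        apply mul_le_mul_of_nonneg_right (hcol r)
        split_ifs <;> norm_num
    _ = c * ∑ r, (if sp r ⊆ S then (1 : ℝ) else 0) := by rw [mul_sum]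
    _ ≤ c * M := mul_le_mul_of_nonneg_left (hM S hS) hc

theorem pair_M {B : ℝ} (hB : ∀ S ∈ II E, (S.card : ℝ) ≤ B) :
    ∀ S ∈ II E, ∑ r : V × V, (if ({r.1, r.2} : Finset V) ⊆ S then (1 : ℝ) else 0) ≤ B ^ 2 := by
  intro S hS
  rw [pair_count]
  exact pow_le_pow_left₀ (Nat.cast_nonneg _) (hB S hS) 2

theorem triple_M {B : ℝ} (hB : ∀ S ∈ II E, (S.card : ℝ) ≤ B) :
    ∀ S ∈ II E, ∑ r : V × V × V, (if ({r.1, r.2.1, r.2.2} : Finset V) ⊆ S then (1 : ℝ) else 0)
      ≤ B ^ 3 := by
  intro S hS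
  rw [triple_count]
  exact pow_le_pow_left₀ (Nat.cast_nonneg _) (hB S hS) 3

/-! ### the second bad quantity -/

open scoped Classical in
noncomputable def a0f (E : V → V → V → Prop) (i : (V × V) × (V × V)) : ℝ :=
  if HS E i.1.1 i.2.2 i.2.1 then (cd E i.1.1 i.1.2 : ℝ) else 0

open scoped Classical in
noncomputable def T0 (E : V → V → V → Prop) (S : Finset V) (i : (V × V) × (V × V)) : ℝ :=
  a0f E i * (if ({i.2.1, i.2.2} : Finset V) ⊆ S then
      (((WW E i.1.2 i.2.1 ∩ S) \ {i.2.1, i.2.2}).card : ℝ) else 0)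

theorem a0f_nonneg (i : (V × V) × (V × V)) : 0 ≤ a0f E i := by
  unfold a0f; split_ifs
  · exact Nat.cast_nonneg _
  · exact le_refl _

theorem T0_nonneg (S : Finset V) (i : (V × V) × (V × V)) : 0 ≤ T0 E S i := by
  unfold T0
  apply mul_nonneg (a0f_nonneg i)
  split_ifs
  · exact Nat.cast_nonneg _
  · exact le_refl _

theorem E_T0 (hE : Good E) (hβ : 0 < β) (hτ : 0 ≤ τ) {B : ℝ}
    (hB : ∀ S ∈ II E, (S.card : ℝ) ≤ B) :
    ∑ S ∈ II E, wt E β τ S * ∑ i, T0 E S i
      ≤ β * (4 * Fintype.card V * B ^ 2 * ZZ E β τ) := by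
  classical
  have h1 := cost hE hβ hτ (a0f E) a0f_nonneg
    (fun i : (V × V) × (V × V) => ({i.2.1, i.2.2} : Finset V)) (fun i => WW E i.1.2 i.2.1) 1
    (by norm_num) (fun i _ => card_WW_le hE _ _)
  have h2 := supp_bound (E := E) (β := β) (τ := τ) hβ (ρ := V × V)
    (c := 4 * Fintype.card V) (M := B ^ 2) (by positivity)
    (fun r => ({r.1, r.2} : Finset V)) (pair_M hB) (a0f E) (by
      rintro ⟨x, a⟩
      rw [Fintype.sum_prod_type]
      simp only [a0f]
      calc ∑ u : V, ∑ v : V, (if HS E u a x then (cd E u v : ℝ) else 0)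
          = ∑ u : V, (if HS E u a x then ∑ v : V, (cd E u v : ℝ) else 0) := by
            apply sum_congr rfl; intro u _
            split_ifs
            · rfl
            · simp
        _ ≤ 4 * Fintype.card V := by
            apply sum_ite_unique
            · intro u u' h h'; exact h.uniq_u hE h'
            · positivity
            · intro u _; exact hE.sum_cd_le u)
  calc ∑ S ∈ II E, wt E β τ S * ∑ i, T0 E S i
      ≤ 1 * β * ∑ S ∈ II E, wt E β τ S * ∑ i, a0f E i *
        (if ({i.2.1, i.2.2} : Finset V) ⊆ S then (1 : ℝ) else 0) := h1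
    _ ≤ 1 * β * (4 * Fintype.card V * B ^ 2 * ZZ E β τ) :=
        mul_le_mul_of_nonneg_left h2 (by positivity)
    _ = _ := by ring

theorem bad2_le (hE : Good E) (S A : Finset V) :
    ∑ u ∈ A, ∑ v ∈ A, (if Disjoint (RR E u S) (RR E v S) then 0 else (cd E u v : ℝ))
      ≤ ∑ i, T0 E S i := by
  classical
  have key : ∀ u v, (if Disjoint (RR E u S) (RR E v S) then 0 else (cd E u v : ℝ))
      ≤ ∑ r : V × V, T0 E S ((u, v), r) := by
    intro u v
    have hnn : 0 ≤ ∑ r : V × V, T0 E S ((u, v), r) := sum_nonneg fun r _ => T0_nonneg S _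
    split_ifs with hd
    · exact hnn
    · by_cases huv : u = v
      · subst huv
        rw [hE.cd_self]; simpa using hnn
      rw [not_disjoint_iff] at hd
      obtain ⟨x, hx1, hx2⟩ := hd
      rw [mem_RR] at hx1 hx2
      obtain ⟨hxS, a, haS, ha⟩ := hx1
      obtain ⟨-, b, hbS, hb⟩ := hx2
      have hba : b ≠ a := by
        rintro rfl
        exact huv (ha.uniq_u hE hb)
      have hbx : b ≠ x := hE.ne23 hb.1
      refine le_trans ?_ (single_le_sum (f := fun r : V × V => T0 E S ((u, v), r))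
        (fun r _ => T0_nonneg S _) (mem_univ (x, a)))
      have hsub : ({x, a} : Finset V) ⊆ S := by
        rw [insert_subset_iff, singleton_subset_iff]; exact ⟨hxS, haS⟩
      have hmem : b ∈ (WW E v x ∩ S) \ {x, a} := by
        rw [mem_sdiff, mem_inter, mem_WW, mem_insert, mem_singleton]
        exact ⟨⟨hb, hbS⟩, by tauto⟩
      have hcard : (1 : ℝ) ≤ (((WW E v x ∩ S) \ {x, a}).card : ℝ) := by
        exact_mod_cast card_pos.2 ⟨b, hmem⟩
      simp only [T0, a0f]
      rw [if_pos ha, if_pos hsub]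
      have : (0 : ℝ) ≤ cd E u v := Nat.cast_nonneg _
      calc (cd E u v : ℝ) = cd E u v * 1 := by ring
        _ ≤ _ := mul_le_mul_of_nonneg_left hcard this
  rw [Fintype.sum_prod_type, Fintype.sum_prod_type]
  calc ∑ u ∈ A, ∑ v ∈ A, (if Disjoint (RR E u S) (RR E v S) then 0 else (cd E u v : ℝ))
      ≤ ∑ u ∈ A, ∑ v ∈ A, ∑ r : V × V, T0 E S ((u, v), r) :=
        sum_le_sum fun u _ => sum_le_sum fun v _ => key u v
    _ ≤ ∑ u ∈ A, ∑ v, ∑ r : V × V, T0 E S ((u, v), r) := by
        apply sum_le_sum; intro u _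
        exact sum_le_sum_of_subset_of_nonneg (subset_univ _) fun v _ _ =>
          sum_nonneg fun r _ => T0_nonneg S _
    _ ≤ ∑ u, ∑ v, ∑ r : V × V, T0 E S ((u, v), r) :=
        sum_le_sum_of_subset_of_nonneg (subset_univ _) fun u _ _ =>
          sum_nonneg fun v _ => sum_nonneg fun r _ => T0_nonneg S _

/-! ### number of pairs with meeting leaf sets -/

theorem pairs_le (hE : Good E) (S A : Finset V) :
    ∑ u ∈ A, ∑ v ∈ A, (if Disjoint (RR E u S) (RR E v S) then (0 : ℝ) else 1)
      ≤ (S.card : ℝ) ^ 3 := by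
  classical
  let g : V → V → V × V × V → ℝ := fun u v r =>
    if HS E u r.2.1 r.1 ∧ HS E v r.2.2 r.1 then
      (if ({r.1, r.2.1, r.2.2} : Finset V) ⊆ S then (1 : ℝ) else 0) else 0
  have hg : ∀ u v r, 0 ≤ g u v r := by
    intro u v r; simp only [g]; split_ifs <;> norm_num
  have key : ∀ u v, (if Disjoint (RR E u S) (RR E v S) then (0 : ℝ) else 1)
      ≤ ∑ r : V × V × V, g u v r := by
    intro u v
    have hnn : 0 ≤ ∑ r : V × V × V, g u v r := sum_nonneg fun r _ => hg u v r
    split_ifs with hd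
    · exact hnn
    · rw [not_disjoint_iff] at hd
      obtain ⟨x, hx1, hx2⟩ := hd
      rw [mem_RR] at hx1 hx2
      obtain ⟨hxS, a, haS, ha⟩ := hx1
      obtain ⟨-, b, hbS, hb⟩ := hx2
      refine le_trans ?_ (single_le_sum (f := fun r : V × V × V => g u v r)
        (fun r _ => hg u v r) (mem_univ (x, a, b)))
      have hsub : ({x, a, b} : Finset V) ⊆ S := by
        rw [insert_subset_iff, insert_subset_iff, singleton_subset_iff]; exact ⟨hxS, haS, hbS⟩
      simp only [g]
      rw [if_pos ⟨ha, hb⟩, if_pos hsub]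
  calc ∑ u ∈ A, ∑ v ∈ A, (if Disjoint (RR E u S) (RR E v S) then (0 : ℝ) else 1)
      ≤ ∑ u ∈ A, ∑ v ∈ A, ∑ r : V × V × V, g u v r :=
        sum_le_sum fun u _ => sum_le_sum fun v _ => key u v
    _ ≤ ∑ u ∈ A, ∑ v, ∑ r : V × V × V, g u v r := by
        apply sum_le_sum; intro u _
        exact sum_le_sum_of_subset_of_nonneg (subset_univ _) fun v _ _ =>
          sum_nonneg fun r _ => hg _ _ _
    _ ≤ ∑ u, ∑ v, ∑ r : V × V × V, g u v r :=
        sum_le_sum_of_subset_of_nonneg (subset_univ _) fun u _ _ =>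
          sum_nonneg fun v _ => sum_nonneg fun r _ => hg _ _ _
    _ = ∑ r : V × V × V, ∑ u, ∑ v, g u v r := by
        have : ∀ u, ∑ v, ∑ r : V × V × V, g u v r = ∑ r : V × V × V, ∑ v, g u v r :=
          fun u => sum_comm
        simp_rw [this]
        rw [sum_comm]
    _ ≤ ∑ r : V × V × V, (if ({r.1, r.2.1, r.2.2} : Finset V) ⊆ S then (1 : ℝ) else 0) := by
        apply sum_le_sum; intro r _
        have hnn : (0 : ℝ) ≤ (if ({r.1, r.2.1, r.2.2} : Finset V) ⊆ S then (1 : ℝ) else 0) := by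
          split_ifs <;> norm_num
        calc ∑ u, ∑ v, g u v r
            ≤ ∑ u, (if HS E u r.2.1 r.1 then
                (if ({r.1, r.2.1, r.2.2} : Finset V) ⊆ S then (1 : ℝ) else 0) else 0) := by
              apply sum_le_sum; intro u _
              by_cases hu : HS E u r.2.1 r.1
              · simp only [g, hu, true_and, if_true]
                apply sum_ite_unique
                · intro v v' h h'; exact h.uniq_u hE h'
                · exact hnn
                · intro v _; exact le_refl _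
              · simp only [g, hu, false_and, if_false, sum_const_zero]
                exact le_refl _
          _ ≤ _ := by
              apply sum_ite_unique
              · intro v v' h h'; exact h.uniq_u hE h'
              · exact hnn
              · intro v _; exact le_refl _
    _ = (S.card : ℝ) ^ 3 := triple_count S

/-! ### the first bad quantity -/

open scoped Classical in
noncomputable def a1f (E : V → V → V → Prop) (i : (V × V) × (V × V × V)) : ℝ :=
  if HS E i.1.1 i.2.2.1 i.2.1 ∧ HS E i.1.2 i.2.2.2 i.2.1 ∧ cd E i.1.1 i.1.2 ≤ 2 then 1 else 0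

open scoped Classical in
noncomputable def T1 (E : V → V → V → Prop) (S : Finset V) (i : (V × V) × (V × V × V)) : ℝ :=
  a1f E i * (if ({i.2.1, i.2.2.1, i.2.2.2} : Finset V) ⊆ S then
      (((lk E i.1.1 i.1.2 ∩ S) \ {i.2.1, i.2.2.1, i.2.2.2}).card : ℝ) else 0)

open scoped Classical in
noncomputable def a2f (E : V → V → V → Prop) (i : (V × V) × (V × V × V)) : ℝ :=
  if HS E i.1.1 i.2.2.1 i.2.1 ∧ E i.1.1 i.1.2 i.2.2.2 ∧ 3 ≤ cd E i.1.1 i.1.2 then 1 else 0

open scoped Classical in
noncomputable def T2 (E : V → V → V → Prop) (S : Finset V) (i : (V × V) × (V × V × V)) : ℝ :=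
  a2f E i * (if ({i.2.1, i.2.2.1, i.2.2.2} : Finset V) ⊆ S then
      (((WW E i.1.2 i.2.1 ∩ S) \ {i.2.1, i.2.2.1, i.2.2.2}).card : ℝ) else 0)

open scoped Classical in
noncomputable def a3f (E : V → V → V → Prop) (D : ℝ) (i : (V × V) × (V × V)) : ℝ :=
  if HS E i.1.1 i.2.2 i.2.1 ∧ E i.1.1 i.1.2 i.2.2 ∧ (cd E i.1.1 i.2.2 : ℝ) ≤ D then 1 else 0

open scoped Classical in
noncomputable def T3 (E : V → V → V → Prop) (D : ℝ) (S : Finset V) (i : (V × V) × (V × V)) : ℝ :=
  a3f E D i * (if ({i.2.1, i.2.2} : Finset V) ⊆ S then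
      (((WW E i.1.2 i.2.1 ∩ S) \ {i.2.1, i.2.2}).card : ℝ) else 0)

theorem a1f_nonneg (i : (V × V) × (V × V × V)) : 0 ≤ a1f E i := by
  unfold a1f; split_ifs <;> norm_num

theorem a2f_nonneg (i : (V × V) × (V × V × V)) : 0 ≤ a2f E i := by
  unfold a2f; split_ifs <;> norm_num

theorem a3f_nonneg (D : ℝ) (i : (V × V) × (V × V)) : 0 ≤ a3f E D i := by
  unfold a3f; split_ifs <;> norm_num

theorem T1_nonneg (S : Finset V) (i : (V × V) × (V × V × V)) : 0 ≤ T1 E S i := by
  unfold T1
  apply mul_nonneg (a1f_nonneg i)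
  split_ifs
  · exact Nat.cast_nonneg _
  · exact le_refl _

theorem T2_nonneg (S : Finset V) (i : (V × V) × (V × V × V)) : 0 ≤ T2 E S i := by
  unfold T2
  apply mul_nonneg (a2f_nonneg i)
  split_ifs
  · exact Nat.cast_nonneg _
  · exact le_refl _

theorem T3_nonneg (D : ℝ) (S : Finset V) (i : (V × V) × (V × V)) : 0 ≤ T3 E D S i := by
  unfold T3
  apply mul_nonneg (a3f_nonneg D i)
  split_ifs
  · exact Nat.cast_nonneg _
  · exact le_refl _

theorem E_T1 (hE : Good E) (hβ : 0 < β) (hτ : 0 ≤ τ) {B : ℝ}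
    (hB : ∀ S ∈ II E, (S.card : ℝ) ≤ B) :
    ∑ S ∈ II E, wt E β τ S * ∑ i, T1 E S i ≤ 2 * β * (B ^ 3 * ZZ E β τ) := by
  classical
  have h1 := cost hE hβ hτ (a1f E) a1f_nonneg
    (fun i : (V × V) × (V × V × V) => ({i.2.1, i.2.2.1, i.2.2.2} : Finset V))
    (fun i => lk E i.1.1 i.1.2) 2
    (by norm_num) (fun i hi => by
      simp only [a1f, ne_eq, ite_eq_right_iff, one_ne_zero, imp_false, not_not] at hi
      have : (lk E i.1.1 i.1.2).card ≤ 2 := hi.2.2
      exact_mod_cast this)
  have h2 := supp_bound (E := E) (β := β) (τ := τ) hβ (ρ := V × V × V)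
    (c := 1) (M := B ^ 3) (by positivity)
    (fun r => ({r.1, r.2.1, r.2.2} : Finset V)) (triple_M hB) (a1f E) (by
      rintro ⟨x, a, b⟩
      rw [Fintype.sum_prod_type]
      simp only [a1f]
      calc ∑ u : V, ∑ v : V, (if HS E u a x ∧ HS E v b x ∧ cd E u v ≤ 2 then (1 : ℝ) else 0)
          ≤ ∑ u : V, (if HS E u a x then (1 : ℝ) else 0) := by
            apply sum_le_sum; intro u _
            by_cases hu : HS E u a x
            · simp only [hu, true_and, if_true]
              apply sum_ite_unique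
              · intro v v' h h'; exact h.1.uniq_u hE h'.1
              · norm_num
              · intro _ _; exact le_refl _
            · simp [hu]
        _ ≤ 1 := by
            apply sum_ite_unique
            · intro u u' h h'; exact h.uniq_u hE h'
            · positivity
            · intro u _; exact le_refl _)
  calc ∑ S ∈ II E, wt E β τ S * ∑ i, T1 E S i
      ≤ 2 * β * ∑ S ∈ II E, wt E β τ S * ∑ i, a1f E i *
        (if ({i.2.1, i.2.2.1, i.2.2.2} : Finset V) ⊆ S then (1 : ℝ) else 0) := h1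
    _ ≤ 2 * β * (1 * B ^ 3 * ZZ E β τ) :=
        mul_le_mul_of_nonneg_left h2 (by positivity)
    _ = _ := by ring

theorem E_T2 (hE : Good E) (hβ : 0 < β) (hτ : 0 ≤ τ) {B : ℝ}
    (hB : ∀ S ∈ II E, (S.card : ℝ) ≤ B) :
    ∑ S ∈ II E, wt E β τ S * ∑ i, T2 E S i ≤ β * (B ^ 3 * ZZ E β τ) := by
  classical
  have h1 := cost hE hβ hτ (a2f E) a2f_nonneg
    (fun i : (V × V) × (V × V × V) => ({i.2.1, i.2.2.1, i.2.2.2} : Finset V))
    (fun i => WW E i.1.2 i.2.1) 1
    (by norm_num) (fun i _ => card_WW_le hE _ _)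
  have h2 := supp_bound (E := E) (β := β) (τ := τ) hβ (ρ := V × V × V)
    (c := 1) (M := B ^ 3) (by positivity)
    (fun r => ({r.1, r.2.1, r.2.2} : Finset V)) (triple_M hB) (a2f E) (by
      rintro ⟨x, a, w⟩
      rw [Fintype.sum_prod_type]
      simp only [a2f]
      calc ∑ u : V, ∑ v : V, (if HS E u a x ∧ E u v w ∧ 3 ≤ cd E u v then (1 : ℝ) else 0)
          ≤ ∑ u : V, (if HS E u a x then (1 : ℝ) else 0) := by
            apply sum_le_sum; intro u _
            by_cases hu : HS E u a x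
            · simp only [hu, true_and, if_true]
              apply sum_ite_unique
              · intro v v' h h'
                exact uniq (hE.heavy h.2 h.1) (hE.swap23 h.1) (hE.swap23 h'.1)
              · norm_num
              · intro _ _; exact le_refl _
            · simp [hu]
        _ ≤ 1 := by
            apply sum_ite_unique
            · intro u u' h h'; exact h.uniq_u hE h'
            · positivity
            · intro u _; exact le_refl _)
  calc ∑ S ∈ II E, wt E β τ S * ∑ i, T2 E S i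
      ≤ 1 * β * ∑ S ∈ II E, wt E β τ S * ∑ i, a2f E i *
        (if ({i.2.1, i.2.2.1, i.2.2.2} : Finset V) ⊆ S then (1 : ℝ) else 0) := h1
    _ ≤ 1 * β * (1 * B ^ 3 * ZZ E β τ) :=
        mul_le_mul_of_nonneg_left h2 (by positivity)
    _ = _ := by ring

theorem E_T3 (hE : Good E) (hβ : 0 < β) (hτ : 0 ≤ τ) {B D : ℝ} (hD : 0 ≤ D)
    (hB : ∀ S ∈ II E, (S.card : ℝ) ≤ B) :
    ∑ S ∈ II E, wt E β τ S * ∑ i, T3 E D S i ≤ β * (D * B ^ 2 * ZZ E β τ) := by
  classical
  have h1 := cost hE hβ hτ (a3f E D) (a3f_nonneg D)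
    (fun i : (V × V) × (V × V) => ({i.2.1, i.2.2} : Finset V)) (fun i => WW E i.1.2 i.2.1) 1
    (by norm_num) (fun i _ => card_WW_le hE _ _)
  have h2 := supp_bound (E := E) (β := β) (τ := τ) hβ (ρ := V × V)
    (c := D) (M := B ^ 2) hD
    (fun r => ({r.1, r.2} : Finset V)) (pair_M hB) (a3f E D) (by
      rintro ⟨x, a⟩
      rw [Fintype.sum_prod_type]
      simp only [a3f]
      calc ∑ u : V, ∑ v : V, (if HS E u a x ∧ E u v a ∧ (cd E u a : ℝ) ≤ D then (1 : ℝ) else 0)
          ≤ ∑ u : V, (if HS E u a x then D else 0) := by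
            apply sum_le_sum; intro u _
            by_cases hu : HS E u a x
            · simp only [hu, true_and, if_true]
              by_cases hd : (cd E u a : ℝ) ≤ D
              · simp only [hd, and_true]
                refine le_trans (le_of_eq ?_) hd
                rw [cd_eq_sum]
                apply sum_congr rfl; intro v _
                have : E u v a ↔ E u a v := ⟨fun h => hE.swap23 h, fun h => hE.swap23 h⟩
                simp only [this]
              · simp only [hd, and_false, if_false, sum_const_zero]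
                exact hD
            · simp [hu]
        _ ≤ D := by
            apply sum_ite_unique
            · intro u u' h h'; exact h.uniq_u hE h'
            · exact hD
            · intro u _; exact le_refl _)
  calc ∑ S ∈ II E, wt E β τ S * ∑ i, T3 E D S i
      ≤ 1 * β * ∑ S ∈ II E, wt E β τ S * ∑ i, a3f E D i *
        (if ({i.2.1, i.2.2} : Finset V) ⊆ S then (1 : ℝ) else 0) := h1
    _ ≤ 1 * β * (D * B ^ 2 * ZZ E β τ) :=
        mul_le_mul_of_nonneg_left h2 (by positivity)
    _ = _ := by ring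

open scoped Classical in
/-- number of link elements in `S` -/
noncomputable def f2 (E : V → V → V → Prop) (S : Finset V) (u v : V) : ℝ :=
  ∑ w ∈ S, (if E u v w then (1 : ℝ) else 0)

theorem bad1_le (hE : Good E) {S A : Finset V} {D : ℝ} (hAS : ∀ u ∈ A, u ∉ S)
    (hAD : ∀ u ∈ A, Gp E u S ≤ D) :
    ∑ u ∈ A, ∑ v ∈ A, (if Disjoint (RR E u S) (RR E v S) then 0 else f2 E S u v)
      ≤ ∑ i, T1 E S i + ∑ i, T2 E S i + 2 * ∑ i, T3 E D S i := by
  classical
  have key : ∀ u ∈ A, ∀ v ∈ A, (if Disjoint (RR E u S) (RR E v S) then 0 else f2 E S u v)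
      ≤ ∑ r, T1 E S ((u, v), r) + ∑ r, T2 E S ((u, v), r) + ∑ r, T3 E D S ((u, v), r)
        + ∑ r, T3 E D S ((v, u), r) := by
    intro u hu v hv
    have n1 : 0 ≤ ∑ r, T1 E S ((u, v), r) := sum_nonneg fun r _ => T1_nonneg S _
    have n2 : 0 ≤ ∑ r, T2 E S ((u, v), r) := sum_nonneg fun r _ => T2_nonneg S _
    have n3 : 0 ≤ ∑ r, T3 E D S ((u, v), r) := sum_nonneg fun r _ => T3_nonneg D S _
    have n4 : 0 ≤ ∑ r, T3 E D S ((v, u), r) := sum_nonneg fun r _ => T3_nonneg D S _
    split_ifs with hd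
    · linarith
    rw [not_disjoint_iff] at hd
    obtain ⟨x, hx1, hx2⟩ := hd
    rw [mem_RR] at hx1 hx2
    obtain ⟨hxS, a, haS, ha⟩ := hx1
    obtain ⟨-, b, hbS, hb⟩ := hx2
    by_cases huv : u = v
    · subst huv
      have : f2 E S u u = 0 := by
        unfold f2
        apply sum_eq_zero; intro w _
        rw [if_neg (fun h => hE.ne12 h rfl)]
      rw [this]; linarith
    have hba : b ≠ a := by
      rintro rfl
      exact huv (ha.uniq_u hE hb)
    have hbx : b ≠ x := hE.ne23 hb.1
    have hax : a ≠ x := hE.ne23 ha.1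
    have hsub3 : ({x, a, b} : Finset V) ⊆ S := by
      rw [insert_subset_iff, insert_subset_iff, singleton_subset_iff]; exact ⟨hxS, haS, hbS⟩
    have hsuba : ({x, a} : Finset V) ⊆ S := by
      rw [insert_subset_iff, singleton_subset_iff]; exact ⟨hxS, haS⟩
    have hsubb : ({x, b} : Finset V) ⊆ S := by
      rw [insert_subset_iff, singleton_subset_iff]; exact ⟨hxS, hbS⟩
    have hux : cd E u x = 1 := hE.heavy ha.2 ha.1
    -- the edge `u v x` is impossible
    have hnx : ¬ E u v x := by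
      intro h
      have : v = a := uniq hux (hE.swap23 h) (hE.swap23 ha.1)
      exact hAS v hv (this ▸ haS)
    -- split
    have hsplit : f2 E S u v ≤ ∑ w ∈ S, (if (cd E u v ≤ 2 ∧ E u v w ∧ w ≠ x ∧ w ≠ a ∧ w ≠ b)
          then (1 : ℝ) else 0)
        + ∑ w ∈ S, (if (3 ≤ cd E u v ∧ E u v w ∧ w ≠ x ∧ w ≠ a ∧ w ≠ b) then (1 : ℝ) else 0)
        + (if E u v a then (1 : ℝ) else 0) + (if E u v b then (1 : ℝ) else 0) := by
      have e1 : (if E u v a then (1 : ℝ) else 0) = ∑ w ∈ S, (if w = a then (if E u v a then (1 : ℝ) else 0) else 0) := by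
        rw [sum_ite_eq' S a, if_pos haS]
      have e2 : (if E u v b then (1 : ℝ) else 0) = ∑ w ∈ S, (if w = b then (if E u v b then (1 : ℝ) else 0) else 0) := by
        rw [sum_ite_eq' S b, if_pos hbS]
      rw [e1, e2, f2, ← sum_add_distrib, ← sum_add_distrib, ← sum_add_distrib]
      apply sum_le_sum
      intro w _
      by_cases hw : E u v w
      · rw [if_pos hw]
        have hwx : w ≠ x := by rintro rfl; exact hnx hw
        by_cases hwa : w = a
        · subst hwa
          have p1 : (0 : ℝ) ≤ (if (cd E u v ≤ 2 ∧ E u v w ∧ w ≠ x ∧ w ≠ w ∧ w ≠ b) then (1 : ℝ) else 0) := by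
            split_ifs <;> norm_num
          have p2 : (0 : ℝ) ≤ (if (3 ≤ cd E u v ∧ E u v w ∧ w ≠ x ∧ w ≠ w ∧ w ≠ b) then (1 : ℝ) else 0) := by
            split_ifs <;> norm_num
          have p3 : (0 : ℝ) ≤ (if w = b then (if E u v b then (1 : ℝ) else 0) else 0) := by
            split_ifs <;> norm_num
          have p4 : (if w = w then (if E u v w then (1 : ℝ) else 0) else 0) = 1 := by
            rw [if_pos rfl, if_pos hw]
          linarith
        by_cases hwb : w = b
        · subst hwb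
          have p1 : (0 : ℝ) ≤ (if (cd E u v ≤ 2 ∧ E u v w ∧ w ≠ x ∧ w ≠ a ∧ w ≠ w) then (1 : ℝ) else 0) := by
            split_ifs <;> norm_num
          have p2 : (0 : ℝ) ≤ (if (3 ≤ cd E u v ∧ E u v w ∧ w ≠ x ∧ w ≠ a ∧ w ≠ w) then (1 : ℝ) else 0) := by
            split_ifs <;> norm_num
          have p3 : (0 : ℝ) ≤ (if w = a then (if E u v a then (1 : ℝ) else 0) else 0) := by
            split_ifs <;> norm_num
          have p4 : (if w = w then (if E u v w then (1 : ℝ) else 0) else 0) = 1 := by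
            rw [if_pos rfl, if_pos hw]
          linarith
        have p3 : (0 : ℝ) ≤ (if w = a then (if E u v a then (1 : ℝ) else 0) else 0) := by
          split_ifs <;> norm_num
        have p4 : (0 : ℝ) ≤ (if w = b then (if E u v b then (1 : ℝ) else 0) else 0) := by
          split_ifs <;> norm_num
        by_cases h2 : cd E u v ≤ 2
        · have p1 : (if (cd E u v ≤ 2 ∧ E u v w ∧ w ≠ x ∧ w ≠ a ∧ w ≠ b) then (1 : ℝ) else 0) = 1 :=
            if_pos ⟨h2, hw, hwx, hwa, hwb⟩
          have p2 : (0 : ℝ) ≤ (if (3 ≤ cd E u v ∧ E u v w ∧ w ≠ x ∧ w ≠ a ∧ w ≠ b) then (1 : ℝ) else 0) := by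
            split_ifs <;> norm_num
          linarith
        · have p1 : (0 : ℝ) ≤ (if (cd E u v ≤ 2 ∧ E u v w ∧ w ≠ x ∧ w ≠ a ∧ w ≠ b) then (1 : ℝ) else 0) := by
            split_ifs <;> norm_num
          have p2 : (if (3 ≤ cd E u v ∧ E u v w ∧ w ≠ x ∧ w ≠ a ∧ w ≠ b) then (1 : ℝ) else 0) = 1 :=
            if_pos ⟨by omega, hw, hwx, hwa, hwb⟩
          linarith
      · rw [if_neg hw]
        split_ifs <;> norm_num
    -- first part
    have q1 : ∑ w ∈ S, (if (cd E u v ≤ 2 ∧ E u v w ∧ w ≠ x ∧ w ≠ a ∧ w ≠ b) then (1 : ℝ) else 0)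
        ≤ ∑ r, T1 E S ((u, v), r) := by
      by_cases h2 : cd E u v ≤ 2
      swap
      · simp only [h2, false_and, if_false, sum_const_zero]; exact n1
      refine le_trans ?_ (single_le_sum (f := fun r : V × V × V => T1 E S ((u, v), r))
        (fun r _ => T1_nonneg S _) (mem_univ (x, a, b)))
      simp only [T1, a1f]
      rw [if_pos ⟨ha, hb, h2⟩, if_pos hsub3, one_mul, ← sum_filter, sum_const, nsmul_eq_mul, mul_one]
      have : S.filter (fun w => cd E u v ≤ 2 ∧ E u v w ∧ w ≠ x ∧ w ≠ a ∧ w ≠ b)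
          ⊆ (lk E u v ∩ S) \ {x, a, b} := by
        intro w hw
        rw [mem_filter] at hw
        obtain ⟨hwS, -, hw, hwx, hwa, hwb⟩ := hw
        rw [mem_sdiff, mem_inter, mem_lk, mem_insert, mem_insert, mem_singleton]
        exact ⟨⟨hw, hwS⟩, by tauto⟩
      exact_mod_cast card_le_card this
    -- second part
    have q2 : ∑ w ∈ S, (if (3 ≤ cd E u v ∧ E u v w ∧ w ≠ x ∧ w ≠ a ∧ w ≠ b) then (1 : ℝ) else 0)
        ≤ ∑ r, T2 E S ((u, v), r) := by
      calc ∑ w ∈ S, (if (3 ≤ cd E u v ∧ E u v w ∧ w ≠ x ∧ w ≠ a ∧ w ≠ b) then (1 : ℝ) else 0)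
          ≤ ∑ w ∈ S, T2 E S ((u, v), (x, a, w)) := by
            apply sum_le_sum
            intro w hwS
            by_cases hc : (3 ≤ cd E u v ∧ E u v w ∧ w ≠ x ∧ w ≠ a ∧ w ≠ b)
            · rw [if_pos hc]
              obtain ⟨h3, hw, hwx, hwa, hwb⟩ := hc
              have hsubw : ({x, a, w} : Finset V) ⊆ S := by
                rw [insert_subset_iff, insert_subset_iff, singleton_subset_iff]
                exact ⟨hxS, haS, hwS⟩
              simp only [T2, a2f]
              rw [if_pos ⟨ha, hw, h3⟩, if_pos hsubw, one_mul]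
              have hmem : b ∈ (WW E v x ∩ S) \ {x, a, w} := by
                rw [mem_sdiff, mem_inter, mem_WW, mem_insert, mem_insert, mem_singleton]
                refine ⟨⟨hb, hbS⟩, ?_⟩
                rintro (h | h | h)
                · exact hbx h
                · exact hba h
                · exact hwb h.symm
              exact_mod_cast card_pos.2 ⟨b, hmem⟩
            · rw [if_neg hc]; exact T2_nonneg S _
        _ ≤ ∑ w, T2 E S ((u, v), (x, a, w)) :=
            sum_le_sum_of_subset_of_nonneg (subset_univ _) fun w _ _ => T2_nonneg S _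
        _ ≤ ∑ r, T2 E S ((u, v), r) := by
            rw [Fintype.sum_prod_type]
            refine le_trans ?_ (single_le_sum
              (f := fun x : V => ∑ y : V × V, T2 E S ((u, v), (x, y)))
              (fun x _ => sum_nonneg fun y _ => T2_nonneg S _) (mem_univ x))
            rw [Fintype.sum_prod_type]
            exact single_le_sum
              (f := fun a : V => ∑ w : V, T2 E S ((u, v), (x, (a, w))))
              (fun a _ => sum_nonneg fun y _ => T2_nonneg S _) (mem_univ a)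
    -- third part
    have q3 : (if E u v a then (1 : ℝ) else 0) ≤ ∑ r, T3 E D S ((u, v), r) := by
      split_ifs with h
      swap
      · exact n3
      refine le_trans ?_ (single_le_sum (f := fun r : V × V => T3 E D S ((u, v), r))
        (fun r _ => T3_nonneg D S _) (mem_univ (x, a)))
      have hD' : (cd E u a : ℝ) ≤ D := le_trans (cd_le_Gp haS) (hAD u hu)
      simp only [T3, a3f]
      rw [if_pos ⟨ha, h, hD'⟩, if_pos hsuba, one_mul]
      have hmem : b ∈ (WW E v x ∩ S) \ {x, a} := by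
        rw [mem_sdiff, mem_inter, mem_WW, mem_insert, mem_singleton]
        refine ⟨⟨hb, hbS⟩, ?_⟩
        rintro (h | h)
        · exact hbx h
        · exact hba h
      exact_mod_cast card_pos.2 ⟨b, hmem⟩
    -- fourth part
    have q4 : (if E u v b then (1 : ℝ) else 0) ≤ ∑ r, T3 E D S ((v, u), r) := by
      split_ifs with h
      swap
      · exact n4
      refine le_trans ?_ (single_le_sum (f := fun r : V × V => T3 E D S ((v, u), r))
        (fun r _ => T3_nonneg D S _) (mem_univ (x, b)))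
      have hD' : (cd E v b : ℝ) ≤ D := le_trans (cd_le_Gp hbS) (hAD v hv)
      simp only [T3, a3f]
      rw [if_pos ⟨hb, hE.swap12 h, hD'⟩, if_pos hsubb, one_mul]
      have hmem : a ∈ (WW E u x ∩ S) \ {x, b} := by
        rw [mem_sdiff, mem_inter, mem_WW, mem_insert, mem_singleton]
        refine ⟨⟨ha, haS⟩, ?_⟩
        rintro (h | h)
        · exact hax h
        · exact hba h.symm
      exact_mod_cast card_pos.2 ⟨a, hmem⟩
    linarith
  have hext : ∀ (g : V → V → ℝ) (_ : ∀ u v, 0 ≤ g u v),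
      ∑ u ∈ A, ∑ v ∈ A, g u v ≤ ∑ u, ∑ v, g u v := by
    intro g hg
    calc ∑ u ∈ A, ∑ v ∈ A, g u v ≤ ∑ u ∈ A, ∑ v, g u v := by
          apply sum_le_sum; intro u _
          exact sum_le_sum_of_subset_of_nonneg (subset_univ _) fun v _ _ => hg u v
      _ ≤ _ := sum_le_sum_of_subset_of_nonneg (subset_univ _) fun u _ _ =>
          sum_nonneg fun v _ => hg u v
  calc ∑ u ∈ A, ∑ v ∈ A, (if Disjoint (RR E u S) (RR E v S) then 0 else f2 E S u v)
      ≤ ∑ u ∈ A, ∑ v ∈ A, (∑ r, T1 E S ((u, v), r) + ∑ r, T2 E S ((u, v), r)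
        + ∑ r, T3 E D S ((u, v), r) + ∑ r, T3 E D S ((v, u), r)) :=
        sum_le_sum fun u hu => sum_le_sum fun v hv => key u hu v hv
    _ ≤ ∑ u, ∑ v, (∑ r, T1 E S ((u, v), r) + ∑ r, T2 E S ((u, v), r)
        + ∑ r, T3 E D S ((u, v), r) + ∑ r, T3 E D S ((v, u), r)) := by
        apply hext
        intro u v
        have n1 : 0 ≤ ∑ r, T1 E S ((u, v), r) := sum_nonneg fun r _ => T1_nonneg S _
        have n2 : 0 ≤ ∑ r, T2 E S ((u, v), r) := sum_nonneg fun r _ => T2_nonneg S _
        have n3 : 0 ≤ ∑ r, T3 E D S ((u, v), r) := sum_nonneg fun r _ => T3_nonneg D S _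
        have n4 : 0 ≤ ∑ r, T3 E D S ((v, u), r) := sum_nonneg fun r _ => T3_nonneg D S _
        linarith
    _ = ∑ i, T1 E S i + ∑ i, T2 E S i + ∑ i, T3 E D S i + ∑ u, ∑ v, ∑ r, T3 E D S ((v, u), r) := by
        simp_rw [sum_add_distrib]
        congr 1
        congr 1
        · congr 1
          · rw [Fintype.sum_prod_type (f := fun i => T1 E S i), Fintype.sum_prod_type]
          · rw [Fintype.sum_prod_type (f := fun i => T2 E S i), Fintype.sum_prod_type]
        · rw [Fintype.sum_prod_type (f := fun i => T3 E D S i), Fintype.sum_prod_type]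
    _ = _ := by
        have : ∑ u, ∑ v, ∑ r, T3 E D S ((v, u), r) = ∑ i, T3 E D S i := by
          rw [Fintype.sum_prod_type (f := fun i => T3 E D S i), Fintype.sum_prod_type, sum_comm]
        rw [this]; ring

end Pool.Agent.MP_99d303_co
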