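import Pool.Agent.MP_99d303_co.Local

set_option autoImplicit false
set_option linter.unusedSectionVars false

open Finset

namespace Pool.Agent.MP_99d303_co

variable {V : Type*} [Fintype V] [DecidableEq V]
variable {E : V → V → V → Prop} {β τ : ℝ}

open scoped Classical in
/-- detailed balance -/
theorem balance (hE : Good E) (hβ : 0 < β) (v : V) :
    ∑ S ∈ II E, wt E β τ S * phi E β τ v S
      ≤ ∑ S ∈ II E, wt E β τ S * ∑ x, ∑ b, (if x ∈ S ∧ b ∈ S ∧ LLr E v x b then (1 : ℝ) else 0) := by
  have e1 : ∀ S ∈ II E, wt E β τ S * phi E β τ v S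
      = ∑ r, (if r ∈ YY E v S then wt E β τ (insert r S) else 0) := by
    intro S _
    rw [sum_ite_mem, phi, mul_sum]
    apply sum_congr rfl
    intro r hr
    rw [YY, mem_filter] at hr
    rw [wt_insert hE hr.2.1]
  rw [sum_congr rfl e1, sum_comm]
  have e2 : ∀ r, ∑ S ∈ II E, (if r ∈ YY E v S then wt E β τ (insert r S) else 0)
      ≤ ∑ S ∈ II E, wt E β τ S * ∑ b, (if r ∈ S ∧ b ∈ S ∧ LLr E v r b then (1 : ℝ) else 0) := by
    intro r
    rw [← sum_filter]
    have hinj : Set.InjOn (fun S : Finset V => insert r S) ((II E).filter (fun S => r ∈ YY E v S)) := by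
      intro S hS T hT h
      simp only [coe_filter, Set.mem_ofPred_eq] at hS hT
      have h1 : r ∉ S := by have := hS.2; rw [YY, mem_filter] at this; exact this.2.1
      have h2 : r ∉ T := by have := hT.2; rw [YY, mem_filter] at this; exact this.2.1
      simp only at h
      rw [← erase_insert h1, ← erase_insert h2, h]
    calc ∑ S ∈ (II E).filter (fun S => r ∈ YY E v S), wt E β τ (insert r S)
        = ∑ T ∈ ((II E).filter (fun S => r ∈ YY E v S)).image (fun S => insert r S), wt E β τ T := by
          rw [sum_image hinj]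
      _ ≤ ∑ T ∈ ((II E).filter (fun S => r ∈ YY E v S)).image (fun S => insert r S),
            wt E β τ T * ∑ b, (if r ∈ T ∧ b ∈ T ∧ LLr E v r b then (1 : ℝ) else 0) := by
          apply sum_le_sum
          intro T hT
          rw [mem_image] at hT
          obtain ⟨S, hS, rfl⟩ := hT
          rw [mem_filter, YY, mem_filter] at hS
          obtain ⟨b, hb, hrb⟩ := hS.2.2.2.2
          have h1 : (1 : ℝ) ≤ ∑ b, (if r ∈ insert r S ∧ b ∈ insert r S ∧ LLr E v r b then (1 : ℝ) else 0) := by
            have := single_le_sum (f := fun b => (if r ∈ insert r S ∧ b ∈ insert r S ∧ LLr E v r b then (1 : ℝ) else 0))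
              (fun b _ => by split_ifs <;> norm_num) (mem_univ b)
            rwa [if_pos ⟨mem_insert_self _ _, mem_insert_of_mem hb, hrb⟩] at this
          have := mul_le_mul_of_nonneg_left h1 (wt_nonneg (E := E) (τ := τ) hβ (insert r S))
          linarith
      _ ≤ _ := by
          apply sum_le_sum_of_subset_of_nonneg
          · intro T hT
            rw [mem_image] at hT
            obtain ⟨S, hS, rfl⟩ := hT
            rw [mem_filter, YY, mem_filter] at hS
            exact mem_II.2 hS.2.2.2.1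
          · intro T _ _
            apply mul_nonneg (wt_nonneg hβ T)
            apply sum_nonneg
            intro b _
            split_ifs <;> norm_num
  refine le_trans (sum_le_sum fun r _ => e2 r) (le_of_eq ?_)
  rw [sum_comm]
  apply sum_congr rfl
  intro S _
  rw [mul_sum]

open scoped Classical in
theorem sum_LL_le (hE : Good E) (S : Finset V) :
    ∑ v, ∑ x, ∑ b, (if x ∈ S ∧ b ∈ S ∧ LLr E v x b then (1 : ℝ) else 0) ≤ GG E S := by
  have : GG E S = ∑ v, ∑ x, ∑ b, (if x ∈ S ∧ b ∈ S ∧ E v x b then (1 : ℝ) else 0) := by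
    rw [sum_comm, GG, ← sum_ite_mem]
    apply sum_congr rfl
    intro x _
    rw [sum_comm]
    by_cases hx : x ∈ S
    · simp only [hx, if_true, true_and]
      rw [← sum_ite_mem]
      apply sum_congr rfl
      intro b _
      by_cases hb : b ∈ S
      · simp only [hb, if_true, true_and]
        rw [cd_eq_sum]
        apply sum_congr rfl
        intro v _
        have : E x b v ↔ E v x b := ⟨fun h => hE.rot' h, fun h => hE.rot h⟩
        simp only [this]
      · simp [hb]
    · simp [hx]
  rw [this]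
  apply sum_le_sum; intro v _
  apply sum_le_sum; intro x _
  apply sum_le_sum; intro b _
  by_cases h : x ∈ S ∧ b ∈ S ∧ LLr E v x b
  · rw [if_pos h, if_pos ⟨h.1, h.2.1, h.2.2.1⟩]
  · rw [if_neg h]
    split_ifs <;> norm_num

/-- summed detailed balance -/
theorem sum_phi_le (hE : Good E) (hβ : 0 < β) :
    ∑ S ∈ II E, wt E β τ S * ∑ v, phi E β τ v S ≤ Gam E β τ := by
  classical
  calc ∑ S ∈ II E, wt E β τ S * ∑ v, phi E β τ v S
      = ∑ v, ∑ S ∈ II E, wt E β τ S * phi E β τ v S := by
        simp_rw [mul_sum]; rw [sum_comm]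
    _ ≤ ∑ v, ∑ S ∈ II E, wt E β τ S * ∑ x, ∑ b, (if x ∈ S ∧ b ∈ S ∧ LLr E v x b then (1 : ℝ) else 0) :=
        sum_le_sum fun v _ => balance hE hβ v
    _ = ∑ S ∈ II E, wt E β τ S * ∑ v, ∑ x, ∑ b, (if x ∈ S ∧ b ∈ S ∧ LLr E v x b then (1 : ℝ) else 0) := by
        rw [sum_comm]
        apply sum_congr rfl
        intro S _
        rw [← mul_sum]
    _ ≤ ∑ S ∈ II E, wt E β τ S * GG E S :=
        sum_le_sum fun S _ => mul_le_mul_of_nonneg_left (sum_LL_le hE S) (wt_nonneg hβ S)

theorem sum_mu_last (hE : Good E) (hβ : 0 < β) (hτ : 0 ≤ τ) (A : Finset V) (P : V → Prop)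
    [DecidablePred P] {c : ℝ}
    (hc : ∑ y, (if P y then (1 : ℝ) else 0) ≤ c) (hP : ∀ y, P y → y ∉ A) :
    ∑ y, (if P y then mu E β τ (insert y A) else 0) ≤ c * β * mu E β τ A := by
  calc ∑ y, (if P y then mu E β τ (insert y A) else 0)
      ≤ ∑ y, (if P y then (1 : ℝ) else 0) * (β * mu E β τ A) := by
        apply sum_le_sum
        intro y _
        split_ifs with h
        · rw [one_mul]; exact mu_insert hE hβ hτ A (hP y h)
        · simp
    _ = (∑ y, (if P y then (1 : ℝ) else 0)) * (β * mu E β τ A) := by rw [sum_mul]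
    _ ≤ c * (β * mu E β τ A) := by
        apply mul_le_mul_of_nonneg_right hc
        exact mul_nonneg hβ.le (mu_nonneg hβ A)
    _ = _ := by ring

theorem sum_E_le {x y : V} {P : V → Prop} [DecidablePred P] (hP : ∀ z, P z → E x y z) :
    ∑ z, (if P z then (1 : ℝ) else 0) ≤ cd E x y := by
  classical
  rw [cd_eq_sum]
  apply sum_le_sum
  intro z _
  by_cases h : P z
  · rw [if_pos h, if_pos (hP z h)]
  · rw [if_neg h]; split_ifs <;> norm_num

theorem sum_if_mul_le {P : V → Prop} [DecidablePred P] {f : V → ℝ} {a c : ℝ} (ha : 0 ≤ a)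
    (hc : ∑ y, (if P y then (1 : ℝ) else 0) ≤ c) (hf : ∀ y, P y → f y ≤ a) :
    ∑ y, (if P y then f y else 0) ≤ c * a := by
  calc ∑ y, (if P y then f y else 0) ≤ ∑ y, (if P y then (1 : ℝ) else 0) * a := by
        apply sum_le_sum
        intro y _
        split_ifs with h
        · rw [one_mul]; exact hf y h
        · simp
    _ = (∑ y, (if P y then (1 : ℝ) else 0)) * a := by rw [sum_mul]
    _ ≤ c * a := mul_le_mul_of_nonneg_right hc ha

end Pool.Agent.MP_99d303_co
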