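import Mathlib

set_option autoImplicit false
set_option linter.unusedSectionVars false

open Finset

namespace Pool.Agent.MP_99d303_co

variable {V : Type*} [Fintype V] [DecidableEq V]

open scoped Classical in
/-- the set of third vertices completing `x, y` to an edge -/
noncomputable def lk (E : V → V → V → Prop) (x y : V) : Finset V :=
  univ.filter (fun z => E x y z)

/-- codegree -/
noncomputable def cd (E : V → V → V → Prop) (x y : V) : ℕ := (lk E x y).card

/-- the structure of tight-three-edge-path-free hypergraphs that is used -/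
structure Good (E : V → V → V → Prop) : Prop where
  swap12 : ∀ {x y z}, E x y z → E y x z
  swap23 : ∀ {x y z}, E x y z → E x z y
  ne12 : ∀ {x y z}, E x y z → x ≠ y
  heavy : ∀ {x y z}, 3 ≤ cd E x y → E x y z → cd E x z = 1

variable {E : V → V → V → Prop}

theorem mem_lk {x y z : V} : z ∈ lk E x y ↔ E x y z := by
  simp [lk]

namespace Good

variable (hE : Good E)
include hE

theorem rot {x y z : V} (h : E x y z) : E y z x := hE.swap23 (hE.swap12 h)

theorem rot' {x y z : V} (h : E x y z) : E z x y := hE.swap12 (hE.swap23 h)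

theorem swap13 {x y z : V} (h : E x y z) : E z y x := hE.swap12 (hE.rot h)

theorem ne13 {x y z : V} (h : E x y z) : x ≠ z := hE.ne12 (hE.swap23 h)

theorem ne23 {x y z : V} (h : E x y z) : y ≠ z := hE.ne12 (hE.rot h)

theorem lk_comm (x y : V) : lk E x y = lk E y x := by
  ext z
  rw [mem_lk, mem_lk]
  exact ⟨fun h => hE.swap12 h, fun h => hE.swap12 h⟩

theorem cd_comm (x y : V) : cd E x y = cd E y x := by
  rw [cd, cd, hE.lk_comm]

theorem lk_self (x : V) : lk E x x = ∅ := by
  ext z
  simp only [mem_lk, notMem_empty, iff_false]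
  intro h
  exact hE.ne12 h rfl

theorem cd_self (x : V) : cd E x x = 0 := by
  rw [cd, hE.lk_self]; rfl

/-- if `xy` is heavy and `xyz` is an edge then `yz` has codegree one -/
theorem heavy' {x y z : V} (h3 : 3 ≤ cd E x y) (h : E x y z) : cd E y z = 1 :=
  hE.heavy (by rwa [hE.cd_comm]) (hE.swap12 h)

theorem light_or {x y z : V} (h : E x y z) : cd E x y ≤ 2 ∨ cd E x z ≤ 2 := by
  by_cases h3 : 3 ≤ cd E x y
  · right
    rw [hE.heavy h3 h]; norm_num
  · left; omega

end Good

theorem cd_pos {x y z : V} (h : E x y z) : 1 ≤ cd E x y := by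
  rw [cd, Nat.one_le_iff_ne_zero, Ne, card_eq_zero]
  intro h0
  have : z ∈ lk E x y := mem_lk.2 h
  rw [h0] at this
  exact absurd this (notMem_empty _)

/-- uniqueness of the third vertex when the codegree is one -/
theorem uniq {x y a b : V} (h1 : cd E x y = 1) (ha : E x y a) (hb : E x y b) : a = b := by
  rw [cd, card_eq_one] at h1
  obtain ⟨c, hc⟩ := h1
  have h2 : a ∈ lk E x y := mem_lk.2 ha
  have h3 : b ∈ lk E x y := mem_lk.2 hb
  rw [hc, mem_singleton] at h2 h3
  rw [h2, h3]

open scoped Classical in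
theorem cd_eq_sum (x y : V) : (cd E x y : ℝ) = ∑ z, if E x y z then (1 : ℝ) else 0 := by
  rw [cd, lk, card_filter]
  push_cast
  rfl

/-- the degree bound -/
theorem Good.sum_cd_le (hE : Good E) (x : V) : ∑ y, (cd E x y : ℝ) ≤ 4 * Fintype.card V := by
  classical
  have key : ∑ y, (if cd E x y ≤ 2 then (cd E x y : ℝ) else 0) ≤ 2 * Fintype.card V := by
    calc ∑ y, (if cd E x y ≤ 2 then (cd E x y : ℝ) else 0) ≤ ∑ _y : V, (2 : ℝ) := by
          apply sum_le_sum
          intro y _
          split_ifs with h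
          · exact_mod_cast h
          · norm_num
      _ = 2 * Fintype.card V := by
          rw [sum_const, card_univ, nsmul_eq_mul]; ring
  have e1 : ∀ y, (cd E x y : ℝ) ≤ (if cd E x y ≤ 2 then (cd E x y : ℝ) else 0)
      + ∑ z, (if E x y z ∧ cd E x z ≤ 2 then (1 : ℝ) else 0) := by
    intro y
    split_ifs with h
    · have : (0 : ℝ) ≤ ∑ z, (if E x y z ∧ cd E x z ≤ 2 then (1 : ℝ) else 0) := by
        apply sum_nonneg
        intro z _
        split_ifs <;> norm_num
      linarith
    · rw [zero_add, cd_eq_sum]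
      apply sum_le_sum
      intro z _
      by_cases hz : E x y z
      · have hl := hE.light_or hz
        have h2 : cd E x z ≤ 2 := by
          rcases hl with hl | hl
          · exact absurd hl h
          · exact hl
        simp [hz, h2]
      · simp [hz]
  have e2 : ∑ y, ∑ z, (if E x y z ∧ cd E x z ≤ 2 then (1 : ℝ) else 0)
      = ∑ z, (if cd E x z ≤ 2 then (cd E x z : ℝ) else 0) := by
    rw [sum_comm]
    apply sum_congr rfl
    intro z _
    by_cases h : cd E x z ≤ 2
    · simp only [h, and_true, if_true]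
      rw [cd_eq_sum]
      apply sum_congr rfl
      intro y _
      have : E x y z ↔ E x z y := ⟨fun h => hE.swap23 h, fun h => hE.swap23 h⟩
      simp [this]
    · simp [h]
  calc ∑ y, (cd E x y : ℝ) ≤ ∑ y, ((if cd E x y ≤ 2 then (cd E x y : ℝ) else 0)
      + ∑ z, (if E x y z ∧ cd E x z ≤ 2 then (1 : ℝ) else 0)) := sum_le_sum (fun y _ => e1 y)
    _ = ∑ y, (if cd E x y ≤ 2 then (cd E x y : ℝ) else 0)
      + ∑ z, (if cd E x z ≤ 2 then (cd E x z : ℝ) else 0) := by
        rw [sum_add_distrib, e2]
    _ ≤ 4 * Fintype.card V := by linarith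

theorem Good.sum_cd_le' (hE : Good E) (x : V) : ∑ y, (cd E y x : ℝ) ≤ 4 * Fintype.card V := by
  have := hE.sum_cd_le x
  simpa [hE.cd_comm x] using this

theorem Good.sum_sum_cd_le (hE : Good E) :
    ∑ x, ∑ y, (cd E x y : ℝ) ≤ 4 * (Fintype.card V : ℝ) ^ 2 := by
  calc ∑ x, ∑ y, (cd E x y : ℝ) ≤ ∑ _x : V, 4 * (Fintype.card V : ℝ) :=
        sum_le_sum (fun x _ => hE.sum_cd_le x)
    _ = 4 * (Fintype.card V : ℝ) ^ 2 := by
        rw [sum_const, card_univ, nsmul_eq_mul]; ring

/-- independent sets -/
def Ind (E : V → V → V → Prop) (S : Finset V) : Prop :=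
  ∀ a ∈ S, ∀ b ∈ S, ∀ c ∈ S, ¬ E a b c

theorem Ind.mono {S T : Finset V} (h : Ind E S) (hT : T ⊆ S) : Ind E T :=
  fun a ha b hb c hc => h a (hT ha) b (hT hb) c (hT hc)

theorem ind_empty : Ind E (∅ : Finset V) := fun a ha => absurd ha (notMem_empty a)

open scoped Classical in
/-- the family of independent sets -/
noncomputable def II (E : V → V → V → Prop) : Finset (Finset V) := univ.filter (Ind E)

theorem mem_II {S : Finset V} : S ∈ II E ↔ Ind E S := by simp [II]

theorem empty_mem_II : (∅ : Finset V) ∈ II E := mem_II.2 ind_empty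

end Pool.Agent.MP_99d303_co
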