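import Mathlib

set_option autoImplicit false
set_option linter.unusedSectionVars false

open Finset

namespace Pool.Agent.MP_99d303_co

variable {V : Type*} [Fintype V] [DecidableEq V]

/-- interaction functions used for the greedy construction -/
structure Inter (f2 : V → V → ℝ) (f3 : V → V → V → ℝ) (f4 : V → V → ℝ) : Prop where
  f2_symm : ∀ u v, f2 u v = f2 v u
  f2_self : ∀ u, f2 u u = 0
  f2_nonneg : ∀ u v, 0 ≤ f2 u v
  f2_one : ∀ u v, f2 u v ≠ 0 → 1 ≤ f2 u v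
  f3_symm : ∀ u v z, f3 u v z = f3 v u z
  f3_symm' : ∀ u v z, f3 u v z = f3 u z v
  f3_self : ∀ u z, f3 u u z = 0
  f3_nonneg : ∀ u v z, 0 ≤ f3 u v z
  f3_one : ∀ u v z, f3 u v z ≠ 0 → 1 ≤ f3 u v z
  f4_symm : ∀ u v, f4 u v = f4 v u
  f4_self : ∀ u, f4 u u = 0
  f4_nonneg : ∀ u v, 0 ≤ f4 u v

/-- good sequences -/
structure GoodSeq (U U0 : Finset V) (f2 : V → V → ℝ) (f3 : V → V → V → ℝ) (f4 : V → V → ℝ)
    (t3 t4 : ℝ) {l : ℕ} (f : Fin l → V) : Prop where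
  mem : ∀ i, f i ∈ U0
  inj : Function.Injective f
  two : ∀ i j, f2 (f i) (f j) = 0
  three : ∀ i j k, f3 (f i) (f j) (f k) = 0
  g3 : ∑ i, ∑ j, ∑ z ∈ U, f3 (f i) (f j) z ≤ 2 * l * t3
  four : ∑ i, ∑ j, f4 (f i) (f j) ≤ 2 * l * t4

open scoped Classical in
/-- admissible extensions of a sequence -/
noncomputable def Ext (U U0 : Finset V) (f2 : V → V → ℝ) (f3 : V → V → V → ℝ) (f4 : V → V → ℝ)
    (t3 t4 : ℝ) {l : ℕ} (f : Fin l → V) : Finset V :=
  U0.filter (fun y => (∀ i, f i ≠ y) ∧ (∀ i, f2 (f i) y = 0) ∧ (∀ i j, f3 (f i) (f j) y = 0) ∧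
    ∑ i, ∑ z ∈ U, f3 (f i) y z ≤ t3 ∧ ∑ i, f4 (f i) y ≤ t4)

variable {U U0 : Finset V} {f2 : V → V → ℝ} {f3 : V → V → V → ℝ} {f4 : V → V → ℝ} {t3 t4 : ℝ}

theorem GoodSeq.cons (hI : Inter f2 f3 f4) {l : ℕ} {f : Fin l → V}
    (hf : GoodSeq U U0 f2 f3 f4 t3 t4 f) {y : V} (hy : y ∈ Ext U U0 f2 f3 f4 t3 t4 f) :
    GoodSeq U U0 f2 f3 f4 t3 t4 (Fin.cons y f : Fin (l + 1) → V) := by
  classical
  rw [Ext, mem_filter] at hy
  obtain ⟨hyU, hne, h2, h3, hg3, h4⟩ := hy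
  refine ⟨?_, ?_, ?_, ?_, ?_, ?_⟩
  · intro i
    refine Fin.cases ?_ (fun i => ?_) i
    · simpa using hyU
    · simpa using hf.mem i
  · rw [Fin.cons_injective_iff]
    refine ⟨?_, hf.inj⟩
    rintro ⟨i, hi⟩
    exact hne i hi
  · intro i j
    refine Fin.cases ?_ (fun i => ?_) i
    · refine Fin.cases ?_ (fun j => ?_) j
      · simpa using hI.f2_self y
      · simp only [Fin.cons_zero, Fin.cons_succ]
        rw [hI.f2_symm]; exact h2 j
    · refine Fin.cases ?_ (fun j => ?_) j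
      · simpa using h2 i
      · simpa using hf.two i j
  · intro i j k
    have hs2 : ∀ u z, f3 u z u = 0 := fun u z => by rw [hI.f3_symm' u z u]; exact hI.f3_self u z
    have hs3 : ∀ u z, f3 z u u = 0 := fun u z => by rw [hI.f3_symm z u u]; exact hs2 u z
    refine Fin.cases ?_ (fun i => ?_) i
    · refine Fin.cases ?_ (fun j => ?_) j
      · simp only [Fin.cons_zero]; exact hI.f3_self y _
      · refine Fin.cases ?_ (fun k => ?_) k
        · simp only [Fin.cons_zero, Fin.cons_succ]; exact hs2 y _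
        · simp only [Fin.cons_zero, Fin.cons_succ]
          rw [hI.f3_symm, hI.f3_symm']; exact h3 j k
    · refine Fin.cases ?_ (fun j => ?_) j
      · refine Fin.cases ?_ (fun k => ?_) k
        · simp only [Fin.cons_zero, Fin.cons_succ]; exact hs3 y _
        · simp only [Fin.cons_zero, Fin.cons_succ]
          rw [hI.f3_symm']; exact h3 i k
      · refine Fin.cases ?_ (fun k => ?_) k
        · simp only [Fin.cons_zero, Fin.cons_succ]; exact h3 i j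
        · simpa using hf.three i j k
  · rw [Fin.sum_univ_succ]
    simp_rw [Fin.sum_univ_succ]
    simp only [Fin.cons_zero, Fin.cons_succ]
    have e1 : ∑ z ∈ U, f3 y y z = 0 := sum_eq_zero fun z _ => hI.f3_self y z
    have e2 : ∑ i, ∑ z ∈ U, f3 y (f i) z = ∑ i, ∑ z ∈ U, f3 (f i) y z := by
      apply sum_congr rfl; intro i _
      apply sum_congr rfl; intro z _
      exact hI.f3_symm _ _ _
    rw [e1, e2, sum_add_distrib]
    have := hf.g3
    push_cast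
    linarith
  · rw [Fin.sum_univ_succ]
    simp_rw [Fin.sum_univ_succ]
    simp only [Fin.cons_zero, Fin.cons_succ]
    have e2 : ∑ i, f4 y (f i) = ∑ i, f4 (f i) y := by
      apply sum_congr rfl; intro i _
      exact hI.f4_symm _ _
    rw [hI.f4_self, e2, sum_add_distrib]
    have := hf.four
    push_cast
    linarith

theorem card_Ext (hI : Inter f2 f3 f4) (hU : U0 ⊆ U) (ht3 : 0 < t3) (ht4 : 0 < t4)
    {D2 D3 D4 : ℝ}
    (h2 : ∀ u ∈ U0, ∑ v ∈ U, f2 u v ≤ D2)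
    (h3 : ∀ u ∈ U0, ∑ v ∈ U, ∑ z ∈ U, f3 u v z ≤ D3)
    (h4 : ∀ u ∈ U0, ∑ v ∈ U, f4 u v ≤ D4) {l : ℕ} {f : Fin l → V}
    (hf : GoodSeq U U0 f2 f3 f4 t3 t4 f) :
    (U0.card : ℝ) ≤ ((Ext U U0 f2 f3 f4 t3 t4 f).card : ℝ) + l * (1 + D2 + 2 * t3 + D3 / t3 + D4 / t4) := by
  classical
  have hpt : ∀ y ∈ U0, (1 : ℝ) ≤ (if y ∈ Ext U U0 f2 f3 f4 t3 t4 f then (1 : ℝ) else 0)
      + (∑ i, (if f i = y then (1 : ℝ) else 0)) + (∑ i, f2 (f i) y)
      + (∑ i, ∑ j, f3 (f i) (f j) y) + (∑ i, ∑ z ∈ U, f3 (f i) y z) / t3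
      + (∑ i, f4 (f i) y) / t4 := by
    intro y hy
    have n0 : (0 : ℝ) ≤ (if y ∈ Ext U U0 f2 f3 f4 t3 t4 f then (1 : ℝ) else 0) := by
      split_ifs <;> norm_num
    have n1 : (0 : ℝ) ≤ ∑ i, (if f i = y then (1 : ℝ) else 0) :=
      sum_nonneg fun i _ => by split_ifs <;> norm_num
    have n2 : 0 ≤ ∑ i, f2 (f i) y := sum_nonneg fun i _ => hI.f2_nonneg _ _
    have n3 : 0 ≤ ∑ i, ∑ j, f3 (f i) (f j) y :=
      sum_nonneg fun i _ => sum_nonneg fun j _ => hI.f3_nonneg _ _ _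
    have n4 : 0 ≤ (∑ i, ∑ z ∈ U, f3 (f i) y z) / t3 :=
      div_nonneg (sum_nonneg fun i _ => sum_nonneg fun z _ => hI.f3_nonneg _ _ _) ht3.le
    have n5 : 0 ≤ (∑ i, f4 (f i) y) / t4 :=
      div_nonneg (sum_nonneg fun i _ => hI.f4_nonneg _ _) ht4.le
    by_cases c1 : ∀ i, f i ≠ y
    swap
    · push Not at c1
      obtain ⟨i, hi⟩ := c1
      have := single_le_sum (f := fun i => (if f i = y then (1 : ℝ) else 0))
        (fun i _ => by split_ifs <;> norm_num) (mem_univ i)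
      rw [if_pos hi] at this
      linarith
    by_cases c2 : ∀ i, f2 (f i) y = 0
    swap
    · push Not at c2
      obtain ⟨i, hi⟩ := c2
      have h5 := single_le_sum (f := fun i => f2 (f i) y)
        (fun i _ => hI.f2_nonneg _ _) (mem_univ i)
      have h6 := hI.f2_one _ _ hi
      linarith
    by_cases c3 : ∀ i j, f3 (f i) (f j) y = 0
    swap
    · push Not at c3
      obtain ⟨i, j, hij⟩ := c3
      have h5 := single_le_sum (f := fun j => f3 (f i) (f j) y)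
        (fun j _ => hI.f3_nonneg _ _ _) (mem_univ j)
      have h5' := single_le_sum (f := fun i => ∑ j, f3 (f i) (f j) y)
        (fun i _ => sum_nonneg fun j _ => hI.f3_nonneg _ _ _) (mem_univ i)
      have h6 := hI.f3_one _ _ _ hij
      linarith
    by_cases c4 : ∑ i, ∑ z ∈ U, f3 (f i) y z ≤ t3
    swap
    · have : 1 ≤ (∑ i, ∑ z ∈ U, f3 (f i) y z) / t3 := by
        rw [le_div_iff₀ ht3]; linarith [not_le.1 c4]
      linarith
    by_cases c5 : ∑ i, f4 (f i) y ≤ t4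
    swap
    · have : 1 ≤ (∑ i, f4 (f i) y) / t4 := by
        rw [le_div_iff₀ ht4]; linarith [not_le.1 c5]
      linarith
    have hmem : y ∈ Ext U U0 f2 f3 f4 t3 t4 f := by
      rw [Ext, mem_filter]; exact ⟨hy, c1, c2, c3, c4, c5⟩
    rw [if_pos hmem]
    linarith
  have s1 : ∑ y ∈ U0, (∑ i, (if f i = y then (1 : ℝ) else 0)) ≤ l := by
    rw [sum_comm]
    calc ∑ i, ∑ y ∈ U0, (if f i = y then (1 : ℝ) else 0) ≤ ∑ _i : Fin l, (1 : ℝ) := by
          apply sum_le_sum; intro i _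
          rw [sum_ite_eq]
          split_ifs <;> norm_num
      _ = l := by simp
  have s2 : ∑ y ∈ U0, (∑ i, f2 (f i) y) ≤ l * D2 := by
    rw [sum_comm]
    calc ∑ i, ∑ y ∈ U0, f2 (f i) y ≤ ∑ _i : Fin l, D2 := by
          apply sum_le_sum; intro i _
          refine le_trans ?_ (h2 (f i) (hf.mem i))
          exact sum_le_sum_of_subset_of_nonneg hU fun _ _ _ => hI.f2_nonneg _ _
      _ = l * D2 := by simp
  have s3 : ∑ y ∈ U0, (∑ i, ∑ j, f3 (f i) (f j) y) ≤ l * (2 * t3) := by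
    calc ∑ y ∈ U0, (∑ i, ∑ j, f3 (f i) (f j) y) ≤ ∑ y ∈ U, (∑ i, ∑ j, f3 (f i) (f j) y) :=
          sum_le_sum_of_subset_of_nonneg hU fun _ _ _ =>
            sum_nonneg fun i _ => sum_nonneg fun j _ => hI.f3_nonneg _ _ _
      _ = ∑ i, ∑ j, ∑ z ∈ U, f3 (f i) (f j) z := by
          rw [sum_comm]
          apply sum_congr rfl; intro i _
          rw [sum_comm]
      _ ≤ 2 * l * t3 := hf.g3
      _ = _ := by ring
  have s4 : ∑ y ∈ U0, (∑ i, ∑ z ∈ U, f3 (f i) y z) / t3 ≤ l * (D3 / t3) := by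
    rw [← sum_div, ← mul_div_assoc]
    apply div_le_div_of_nonneg_right _ ht3.le
    rw [sum_comm]
    calc ∑ i, ∑ y ∈ U0, ∑ z ∈ U, f3 (f i) y z ≤ ∑ _i : Fin l, D3 := by
          apply sum_le_sum; intro i _
          refine le_trans ?_ (h3 (f i) (hf.mem i))
          exact sum_le_sum_of_subset_of_nonneg hU fun _ _ _ =>
            sum_nonneg fun z _ => hI.f3_nonneg _ _ _
      _ = l * D3 := by simp
  have s5 : ∑ y ∈ U0, (∑ i, f4 (f i) y) / t4 ≤ l * (D4 / t4) := by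
    rw [← sum_div, ← mul_div_assoc]
    apply div_le_div_of_nonneg_right _ ht4.le
    rw [sum_comm]
    calc ∑ i, ∑ y ∈ U0, f4 (f i) y ≤ ∑ _i : Fin l, D4 := by
          apply sum_le_sum; intro i _
          refine le_trans ?_ (h4 (f i) (hf.mem i))
          exact sum_le_sum_of_subset_of_nonneg hU fun _ _ _ => hI.f4_nonneg _ _
      _ = l * D4 := by simp
  have s0 : ∑ y ∈ U0, (if y ∈ Ext U U0 f2 f3 f4 t3 t4 f then (1 : ℝ) else 0)
      = ((Ext U U0 f2 f3 f4 t3 t4 f).card : ℝ) := by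
    rw [← sum_filter, sum_const, nsmul_eq_mul, mul_one]
    congr 2
    ext y
    rw [mem_filter]
    refine ⟨fun h => h.2, fun h => ⟨?_, h⟩⟩
    rw [Ext, mem_filter] at h
    exact h.1
  calc (U0.card : ℝ) = ∑ _y ∈ U0, (1 : ℝ) := by simp
    _ ≤ ∑ y ∈ U0, ((if y ∈ Ext U U0 f2 f3 f4 t3 t4 f then (1 : ℝ) else 0)
      + (∑ i, (if f i = y then (1 : ℝ) else 0)) + (∑ i, f2 (f i) y)
      + (∑ i, ∑ j, f3 (f i) (f j) y) + (∑ i, ∑ z ∈ U, f3 (f i) y z) / t3
      + (∑ i, f4 (f i) y) / t4) := sum_le_sum hpt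
    _ = ((Ext U U0 f2 f3 f4 t3 t4 f).card : ℝ) + ∑ y ∈ U0, (∑ i, (if f i = y then (1 : ℝ) else 0))
      + ∑ y ∈ U0, (∑ i, f2 (f i) y) + ∑ y ∈ U0, (∑ i, ∑ j, f3 (f i) (f j) y)
      + ∑ y ∈ U0, (∑ i, ∑ z ∈ U, f3 (f i) y z) / t3 + ∑ y ∈ U0, (∑ i, f4 (f i) y) / t4 := by
        rw [sum_add_distrib, sum_add_distrib, sum_add_distrib, sum_add_distrib, sum_add_distrib, s0]
    _ ≤ _ := by
        have : (l : ℝ) * (1 + D2 + 2 * t3 + D3 / t3 + D4 / t4)
          = l + l * D2 + l * (2 * t3) + l * (D3 / t3) + l * (D4 / t4) := by ring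
        rw [this]
        linarith

/-- many good sequences -/
theorem greedy (hI : Inter f2 f3 f4) (hU : U0 ⊆ U) (ht3 : 0 < t3) (ht4 : 0 < t4)
    {D2 D3 D4 N0 : ℝ} (hN0 : 0 ≤ N0) (hD2 : 0 ≤ D2) (hD3 : 0 ≤ D3) (hD4 : 0 ≤ D4)
    (h2 : ∀ u ∈ U0, ∑ v ∈ U, f2 u v ≤ D2)
    (h3 : ∀ u ∈ U0, ∑ v ∈ U, ∑ z ∈ U, f3 u v z ≤ D3)
    (h4 : ∀ u ∈ U0, ∑ v ∈ U, f4 u v ≤ D4) (m : ℕ)
    (hm : m * (1 + D2 + 2 * t3 + D3 / t3 + D4 / t4) + N0 ≤ U0.card) (l : ℕ) (hl : l ≤ m) :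
    ∃ L : Finset (Fin l → V), (∀ f ∈ L, GoodSeq U U0 f2 f3 f4 t3 t4 f) ∧ N0 ^ l ≤ (L.card : ℝ) := by
  classical
  induction l with
  | zero =>
    refine ⟨univ, ?_, ?_⟩
    · intro f _
      refine ⟨fun i => i.elim0, fun i => i.elim0, fun i => i.elim0, fun i => i.elim0, ?_, ?_⟩ <;> simp
    · simp
  | succ l ih =>
    obtain ⟨L, hL, hcard⟩ := ih (by omega)
    let F : (Σ _f : Fin l → V, V) → (Fin (l + 1) → V) := fun p => Fin.cons p.2 p.1
    have hFinj : Function.Injective F := by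
      rintro ⟨f, y⟩ ⟨g, z⟩ h
      simp only [F] at h
      have h1 := congrFun h 0
      simp only [Fin.cons_zero] at h1
      have h2' : f = g := by
        funext i
        have := congrFun h i.succ
        simpa using this
      subst h1; subst h2'; rfl
    refine ⟨(L.sigma (fun f => Ext U U0 f2 f3 f4 t3 t4 f)).image F, ?_, ?_⟩
    · intro g hg
      rw [mem_image] at hg
      obtain ⟨⟨f, y⟩, hfy, rfl⟩ := hg
      rw [mem_sigma] at hfy
      exact (hL f hfy.1).cons hI hfy.2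
    · rw [card_image_of_injective _ hFinj, card_sigma]
      push_cast
      have : ∀ f ∈ L, N0 ≤ ((Ext U U0 f2 f3 f4 t3 t4 f).card : ℝ) := by
        intro f hf
        have h5 := card_Ext hI hU ht3 ht4 h2 h3 h4 (hL f hf)
        have h6 : (l : ℝ) ≤ m := by exact_mod_cast (by omega : l ≤ m)
        have h7 : 0 ≤ 1 + D2 + 2 * t3 + D3 / t3 + D4 / t4 := by positivity
        have h8 := mul_le_mul_of_nonneg_right h6 h7
        linarith
      calc N0 ^ (l + 1) = N0 ^ l * N0 := pow_succ _ _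
        _ ≤ (L.card : ℝ) * N0 := mul_le_mul_of_nonneg_right hcard hN0
        _ = ∑ _f ∈ L, N0 := by rw [sum_const, nsmul_eq_mul]
        _ ≤ _ := sum_le_sum this

end Pool.Agent.MP_99d303_co
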