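import Mathlib

set_option autoImplicit false
set_option linter.unusedSectionVars false

open Finset

namespace Pool.Agent.MP_99d303_co

variable {V : Type*} [Fintype V] [DecidableEq V]

/-- number of colourings with `q + 1` colours that are `0` on `T` -/
theorem card_zero_on (q : ℕ) (T : Finset V) :
    (∑ χ : V → Fin (q + 1), (if ∀ x ∈ T, χ x = 0 then (1 : ℝ) else 0)) * (q + 1 : ℝ) ^ T.card
      = (q + 1 : ℝ) ^ (Fintype.card V) := by
  classical
  have h1 : ∑ χ : V → Fin (q + 1), (if ∀ x ∈ T, χ x = 0 then (1 : ℝ) else 0)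
      = ((Fintype.piFinset (fun x : V => if x ∈ T then ({0} : Finset (Fin (q + 1))) else univ)).card : ℝ) := by
    rw [← sum_filter, sum_const, nsmul_eq_mul, mul_one]
    congr 2
    ext χ
    simp only [mem_filter, mem_univ, true_and, Fintype.mem_piFinset]
    constructor
    · intro h x
      split_ifs with hx
      · rw [mem_singleton]; exact h x hx
      · exact mem_univ _
    · intro h x hx
      have := h x
      rw [if_pos hx, mem_singleton] at this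
      exact this
  rw [h1, Fintype.card_piFinset]
  push_cast
  have h2 : ∏ x : V, ((if x ∈ T then ({0} : Finset (Fin (q + 1))) else univ).card : ℝ)
      = ∏ x : V, (if x ∈ T then (1 : ℝ) else (q + 1 : ℝ)) := by
    apply prod_congr rfl
    intro x _
    split_ifs <;> simp
  have h3 : (q + 1 : ℝ) ^ T.card = ∏ x : V, (if x ∈ T then (q + 1 : ℝ) else 1) := by
    rw [prod_ite_mem, univ_inter, prod_const]
  rw [h2, h3, ← prod_mul_distrib]
  have : ∀ x : V, (if x ∈ T then (1 : ℝ) else (q + 1 : ℝ)) * (if x ∈ T then (q + 1 : ℝ) else 1) = q + 1 := by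
    intro x; split_ifs <;> ring
  simp_rw [this]
  rw [prod_const, card_univ]

/-- average over colourings -/
noncomputable def av (V : Type*) [Fintype V] [DecidableEq V] (q : ℕ) (g : (V → Fin (q + 1)) → ℝ) : ℝ :=
  (∑ χ, g χ) / (q + 1 : ℝ) ^ (Fintype.card V)

theorem av_zero_on (q : ℕ) (T : Finset V) :
    av V q (fun χ => if ∀ x ∈ T, χ x = 0 then (1 : ℝ) else 0) = (1 / (q + 1 : ℝ)) ^ T.card := by
  unfold av
  have hq : (0 : ℝ) < q + 1 := by positivity
  rw [div_eq_iff (by positivity), ← card_zero_on q T, one_div, inv_pow]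
  field_simp

theorem av_add (q : ℕ) (g h : (V → Fin (q + 1)) → ℝ) :
    av V q (fun χ => g χ + h χ) = av V q g + av V q h := by
  unfold av; rw [sum_add_distrib, add_div]

theorem av_mul (q : ℕ) (c : ℝ) (g : (V → Fin (q + 1)) → ℝ) :
    av V q (fun χ => c * g χ) = c * av V q g := by
  unfold av; rw [← mul_sum, mul_div_assoc]

theorem av_const (q : ℕ) (c : ℝ) : av V q (fun _ => c) = c := by
  unfold av
  have hq : (0 : ℝ) < q + 1 := by positivity
  rw [sum_const, card_univ, Fintype.card_fun, Fintype.card_fin, nsmul_eq_mul]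
  push_cast
  rw [mul_comm, mul_div_assoc, div_self (by positivity), mul_one]

theorem av_sum {ι : Type*} (q : ℕ) (s : Finset ι) (g : ι → (V → Fin (q + 1)) → ℝ) :
    av V q (fun χ => ∑ i ∈ s, g i χ) = ∑ i ∈ s, av V q (g i) := by
  unfold av
  rw [sum_comm, sum_div]

theorem av_mono (q : ℕ) {g h : (V → Fin (q + 1)) → ℝ} (hgh : ∀ χ, g χ ≤ h χ) :
    av V q g ≤ av V q h := by
  unfold av
  apply div_le_div_of_nonneg_right (sum_le_sum fun χ _ => hgh χ) (by positivity)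

theorem exists_lt_of_av_lt (q : ℕ) {g : (V → Fin (q + 1)) → ℝ} {c : ℝ} (h : av V q g < c) :
    ∃ χ, g χ < c := by
  by_contra hcon
  push Not at hcon
  have := av_mono (V := V) q (g := fun _ => c) (h := g) hcon
  rw [av_const] at this
  linarith

/-- the surviving vertices -/
def surv (q : ℕ) (A : Finset V) (R : V → Finset V) (χ : V → Fin (q + 1)) : Finset V :=
  A.filter (fun v => ∀ x ∈ R v, χ x = 0)

variable {q : ℕ} {A : Finset V} {R : V → Finset V} {j : ℕ}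

theorem av_surv_card (hR : ∀ v ∈ A, (R v).card = j) :
    av V q (fun χ => ((surv q A R χ).card : ℝ)) = (1 / (q + 1 : ℝ)) ^ j * A.card := by
  have e : ∀ χ : V → Fin (q + 1), ((surv q A R χ).card : ℝ)
      = ∑ v ∈ A, (if ∀ x ∈ R v, χ x = 0 then (1 : ℝ) else 0) := by
    intro χ
    rw [surv, card_filter]; push_cast; rfl
  simp_rw [e]
  rw [av_sum]
  calc ∑ i ∈ A, av V q (fun χ => if ∀ x ∈ R i, χ x = 0 then (1 : ℝ) else 0)
      = ∑ i ∈ A, (1 / (q + 1 : ℝ)) ^ j := by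
        apply sum_congr rfl
        intro v hv
        rw [av_zero_on, hR v hv]
    _ = _ := by rw [sum_const, nsmul_eq_mul]; ring

theorem inv_le_one : (1 / (q + 1 : ℝ)) ≤ 1 := by
  rw [div_le_one (by positivity)]
  have : (0 : ℝ) ≤ q := Nat.cast_nonneg _
  linarith

theorem av_pair_ind {u v : V} (hu : (R u).card = j) (hv : (R v).card = j) :
    av V q (fun χ => if (∀ x ∈ R u, χ x = 0) ∧ (∀ x ∈ R v, χ x = 0) then (1 : ℝ) else 0)
      ≤ (1 / (q + 1 : ℝ)) ^ (2 * j) + (if Disjoint (R u) (R v) then 0 else 1) := by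
  have e : ∀ χ : V → Fin (q + 1), (if (∀ x ∈ R u, χ x = 0) ∧ (∀ x ∈ R v, χ x = 0) then (1 : ℝ) else 0)
      = (if ∀ x ∈ R u ∪ R v, χ x = 0 then (1 : ℝ) else 0) := by
    intro χ
    congr 1
    simp only [mem_union, or_imp, forall_and]
  simp_rw [e]
  rw [av_zero_on]
  split_ifs with hd
  · rw [card_union_of_disjoint hd, hu, hv, two_mul, add_zero]
  · have h1 : (1 / (q + 1 : ℝ)) ^ (R u ∪ R v).card ≤ 1 :=
      pow_le_one₀ (by positivity) inv_le_one
    have h2 : (0 : ℝ) ≤ (1 / (q + 1 : ℝ)) ^ (2 * j) := by positivity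
    linarith

theorem av_pair (hR : ∀ v ∈ A, (R v).card = j) (f : V → V → ℝ) (hf : ∀ u v, 0 ≤ f u v) :
    av V q (fun χ => ∑ u ∈ surv q A R χ, ∑ v ∈ surv q A R χ, f u v)
      ≤ (1 / (q + 1 : ℝ)) ^ (2 * j) * (∑ u ∈ A, ∑ v ∈ A, f u v)
        + ∑ u ∈ A, ∑ v ∈ A, (if Disjoint (R u) (R v) then 0 else f u v) := by
  have e : ∀ χ : V → Fin (q + 1), ∑ u ∈ surv q A R χ, ∑ v ∈ surv q A R χ, f u v
      = ∑ u ∈ A, ∑ v ∈ A, f u v * (if (∀ x ∈ R u, χ x = 0) ∧ (∀ x ∈ R v, χ x = 0) then (1 : ℝ) else 0) := by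
    intro χ
    simp only [surv]
    rw [sum_filter]
    apply sum_congr rfl
    intro u _
    split_ifs with hu
    · rw [sum_filter]
      apply sum_congr rfl
      intro v _
      by_cases hv : ∀ x ∈ R v, χ x = 0
      · rw [if_pos hv, if_pos ⟨hu, hv⟩, mul_one]
      · rw [if_neg hv, if_neg (fun h => hv h.2), mul_zero]
    · symm
      apply sum_eq_zero
      intro v _
      rw [if_neg (fun h => hu h.1), mul_zero]
  simp_rw [e]
  rw [av_sum]
  rw [mul_sum, ← sum_add_distrib]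
  apply sum_le_sum
  intro u hu
  rw [av_sum, mul_sum, ← sum_add_distrib]
  apply sum_le_sum
  intro v hv
  rw [av_mul]
  have h1 := av_pair_ind (q := q) (hR u hu) (hR v hv)
  calc _ ≤ f u v * ((1 / (q + 1 : ℝ)) ^ (2 * j) + (if Disjoint (R u) (R v) then 0 else 1)) :=
        mul_le_mul_of_nonneg_left h1 (hf u v)
    _ = _ := by split_ifs <;> ring

theorem av_triple_ind {u v z : V} (hu : (R u).card = j) (hv : (R v).card = j)
    (hz : (R z).card = j) :
    av V q (fun χ => if (∀ x ∈ R u, χ x = 0) ∧ (∀ x ∈ R v, χ x = 0) ∧ (∀ x ∈ R z, χ x = 0)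
        then (1 : ℝ) else 0)
      ≤ (1 / (q + 1 : ℝ)) ^ (3 * j) + ((if Disjoint (R u) (R v) then 0 else 1)
        + (if Disjoint (R u) (R z) then 0 else 1) + (if Disjoint (R v) (R z) then 0 else 1)) := by
  have e : ∀ χ : V → Fin (q + 1), (if (∀ x ∈ R u, χ x = 0) ∧ (∀ x ∈ R v, χ x = 0) ∧
      (∀ x ∈ R z, χ x = 0) then (1 : ℝ) else 0)
      = (if ∀ x ∈ R u ∪ (R v ∪ R z), χ x = 0 then (1 : ℝ) else 0) := by
    intro χ
    congr 1
    simp only [mem_union, or_imp, forall_and]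
  simp_rw [e]
  rw [av_zero_on]
  have h0 : (1 / (q + 1 : ℝ)) ^ (R u ∪ (R v ∪ R z)).card ≤ 1 :=
    pow_le_one₀ (by positivity) inv_le_one
  have h2 : (0 : ℝ) ≤ (1 / (q + 1 : ℝ)) ^ (3 * j) := by positivity
  by_cases h1 : Disjoint (R u) (R v) ∧ Disjoint (R u) (R z) ∧ Disjoint (R v) (R z)
  · obtain ⟨d1, d2, d3⟩ := h1
    have : (R u ∪ (R v ∪ R z)).card = 3 * j := by
      rw [card_union_of_disjoint (disjoint_union_right.2 ⟨d1, d2⟩), card_union_of_disjoint d3,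
        hu, hv, hz]; ring
    rw [this, if_pos d1, if_pos d2, if_pos d3]
    linarith
  · have : (1 : ℝ) ≤ (if Disjoint (R u) (R v) then 0 else 1)
        + (if Disjoint (R u) (R z) then 0 else 1) + (if Disjoint (R v) (R z) then 0 else 1) := by
      by_cases d1 : Disjoint (R u) (R v)
      · by_cases d2 : Disjoint (R u) (R z)
        · by_cases d3 : Disjoint (R v) (R z)
          · exact absurd ⟨d1, d2, d3⟩ h1
          · simp [d1, d2, d3]
        · rw [if_pos d1, if_neg d2]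
          split_ifs <;> norm_num
      · rw [if_neg d1]
        split_ifs <;> norm_num
    linarith

theorem av_triple (hR : ∀ v ∈ A, (R v).card = j) (f : V → V → V → ℝ) (hf : ∀ u v z, 0 ≤ f u v z)
    (hs1 : ∀ u v z, f u v z = f v u z) (hs2 : ∀ u v z, f u v z = f u z v) :
    av V q (fun χ => ∑ u ∈ surv q A R χ, ∑ v ∈ surv q A R χ, ∑ z ∈ surv q A R χ, f u v z)
      ≤ (1 / (q + 1 : ℝ)) ^ (3 * j) * (∑ u ∈ A, ∑ v ∈ A, ∑ z ∈ A, f u v z)
        + 3 * ∑ u ∈ A, ∑ v ∈ A, (if Disjoint (R u) (R v) then 0 else ∑ z ∈ A, f u v z) := by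
  have e : ∀ χ : V → Fin (q + 1),
      ∑ u ∈ surv q A R χ, ∑ v ∈ surv q A R χ, ∑ z ∈ surv q A R χ, f u v z
      = ∑ u ∈ A, ∑ v ∈ A, ∑ z ∈ A, f u v z * (if (∀ x ∈ R u, χ x = 0) ∧ (∀ x ∈ R v, χ x = 0)
        ∧ (∀ x ∈ R z, χ x = 0) then (1 : ℝ) else 0) := by
    intro χ
    simp only [surv]
    rw [sum_filter]
    apply sum_congr rfl
    intro u _
    split_ifs with hu
    · rw [sum_filter]
      apply sum_congr rfl
      intro v _
      split_ifs with hv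
      · rw [sum_filter]
        apply sum_congr rfl
        intro z _
        by_cases hz : ∀ x ∈ R z, χ x = 0
        · rw [if_pos hz, if_pos ⟨hu, hv, hz⟩, mul_one]
        · rw [if_neg hz, if_neg (fun h => hz h.2.2), mul_zero]
      · symm
        apply sum_eq_zero
        intro z _
        rw [if_neg (fun h => hv h.2.1), mul_zero]
    · symm
      apply sum_eq_zero; intro v _
      apply sum_eq_zero; intro z _
      rw [if_neg (fun h => hu h.1), mul_zero]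
  simp_rw [e]
  have step : av V q (fun χ => ∑ u ∈ A, ∑ v ∈ A, ∑ z ∈ A, f u v z *
      (if (∀ x ∈ R u, χ x = 0) ∧ (∀ x ∈ R v, χ x = 0)
        ∧ (∀ x ∈ R z, χ x = 0) then (1 : ℝ) else 0))
      ≤ ∑ u ∈ A, ∑ v ∈ A, ∑ z ∈ A, f u v z * ((1 / (q + 1 : ℝ)) ^ (3 * j)
        + ((if Disjoint (R u) (R v) then 0 else 1)
        + (if Disjoint (R u) (R z) then 0 else 1) + (if Disjoint (R v) (R z) then 0 else 1))) := by
    rw [av_sum]; apply sum_le_sum; intro u hu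
    rw [av_sum]; apply sum_le_sum; intro v hv
    rw [av_sum]; apply sum_le_sum; intro z hz
    rw [av_mul]
    exact mul_le_mul_of_nonneg_left (av_triple_ind (hR u hu) (hR v hv) (hR z hz)) (hf u v z)
  refine le_trans step (le_of_eq ?_)
  have p1 : ∑ u ∈ A, ∑ v ∈ A, ∑ z ∈ A, f u v z * (if Disjoint (R u) (R v) then (0 : ℝ) else 1)
      = ∑ u ∈ A, ∑ v ∈ A, (if Disjoint (R u) (R v) then 0 else ∑ z ∈ A, f u v z) := by
    apply sum_congr rfl; intro u _
    apply sum_congr rfl; intro v _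
    split_ifs <;> simp
  have p2 : ∑ u ∈ A, ∑ v ∈ A, ∑ z ∈ A, f u v z * (if Disjoint (R u) (R z) then (0 : ℝ) else 1)
      = ∑ u ∈ A, ∑ v ∈ A, (if Disjoint (R u) (R v) then 0 else ∑ z ∈ A, f u v z) := by
    rw [← p1]
    apply sum_congr rfl; intro u _
    rw [sum_comm]
    apply sum_congr rfl; intro v _
    apply sum_congr rfl; intro z _
    rw [hs2 u z v]
  have p3 : ∑ u ∈ A, ∑ v ∈ A, ∑ z ∈ A, f u v z * (if Disjoint (R v) (R z) then (0 : ℝ) else 1)
      = ∑ u ∈ A, ∑ v ∈ A, (if Disjoint (R u) (R v) then 0 else ∑ z ∈ A, f u v z) := by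
    rw [← p2, sum_comm]
    apply sum_congr rfl; intro u _
    apply sum_congr rfl; intro v _
    apply sum_congr rfl; intro z _
    rw [hs1 v u z]
  simp_rw [mul_add, sum_add_distrib]
  rw [p1, p2, p3, mul_sum]
  have : ∀ u, (1 / (q + 1 : ℝ)) ^ (3 * j) * ∑ v ∈ A, ∑ z ∈ A, f u v z
      = ∑ v ∈ A, ∑ z ∈ A, f u v z * (1 / (q + 1 : ℝ)) ^ (3 * j) := by
    intro u
    rw [mul_sum]
    apply sum_congr rfl; intro v _
    rw [mul_sum]
    apply sum_congr rfl; intro z _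
    ring
  simp_rw [this]
  ring

/-- the thinning lemma -/
theorem thinning (q : ℕ) (A S : Finset V) (R : V → Finset V) (j : ℕ)
    (hR : ∀ v ∈ A, (R v).card = j) (hA : 0 < A.card)
    (f2 : V → V → ℝ) (f3 : V → V → V → ℝ) (f4 : V → V → ℝ)
    (h2 : ∀ u v, 0 ≤ f2 u v) (h3 : ∀ u v z, 0 ≤ f3 u v z) (h4 : ∀ u v, 0 ≤ f4 u v)
    (hs1 : ∀ u v z, f3 u v z = f3 v u z) (hs2 : ∀ u v z, f3 u v z = f3 u z v)
    (Q2 Q3 Q4 Q5 : ℝ) (hQ2 : 0 < Q2) (hQ3 : 0 < Q3) (hQ4 : 0 < Q4) (hQ5 : 0 < Q5)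
    (H2 : (1 / (q + 1 : ℝ)) ^ (2 * j) * (∑ u ∈ A, ∑ v ∈ A, f2 u v)
        + ∑ u ∈ A, ∑ v ∈ A, (if Disjoint (R u) (R v) then 0 else f2 u v) ≤ Q2)
    (H3 : (1 / (q + 1 : ℝ)) ^ (3 * j) * (∑ u ∈ A, ∑ v ∈ A, ∑ z ∈ A, f3 u v z)
        + 3 * ∑ u ∈ A, ∑ v ∈ A, (if Disjoint (R u) (R v) then 0 else ∑ z ∈ A, f3 u v z) ≤ Q3)
    (H4 : (1 / (q + 1 : ℝ)) ^ (2 * j) * (∑ u ∈ A, ∑ v ∈ A, f4 u v)
        + ∑ u ∈ A, ∑ v ∈ A, (if Disjoint (R u) (R v) then 0 else f4 u v) ≤ Q4)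
    (H5 : (1 / (q + 1 : ℝ)) * S.card ≤ Q5)
    (Hδ : (∑ u ∈ A, ∑ v ∈ A, (if Disjoint (R u) (R v) then (0 : ℝ) else 1))
      * (q + 1 : ℝ) ^ (2 * j) ≤ (A.card : ℝ) ^ 2 / 16) :
    ∃ χ : V → Fin (q + 1),
      (1 / (q + 1 : ℝ)) ^ j * A.card / 2 ≤ ((surv q A R χ).card : ℝ) ∧
      ∑ u ∈ surv q A R χ, ∑ v ∈ surv q A R χ, f2 u v ≤ 8 * Q2 ∧
      ∑ u ∈ surv q A R χ, ∑ v ∈ surv q A R χ, ∑ z ∈ surv q A R χ, f3 u v z ≤ 8 * Q3 ∧
      ∑ u ∈ surv q A R χ, ∑ v ∈ surv q A R χ, f4 u v ≤ 8 * Q4 ∧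
      ((S.filter (fun x => χ x = 0)).card : ℝ) ≤ 8 * Q5 := by
  set p : ℝ := 1 / (q + 1 : ℝ) with hp
  have hp0 : 0 < p := by positivity
  set M : ℝ := p ^ j * A.card with hM
  have hAr : (0 : ℝ) < A.card := by exact_mod_cast hA
  have hM0 : 0 < M := by positivity
  -- first and second moment of the number of survivors
  have m1 : av V q (fun χ => ((surv q A R χ).card : ℝ)) = M := av_surv_card hR
  have m2 : av V q (fun χ => ((surv q A R χ).card : ℝ) ^ 2) ≤ M ^ 2 + M ^ 2 / 16 := by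
    have e : ∀ χ : V → Fin (q + 1), ((surv q A R χ).card : ℝ) ^ 2
        = ∑ u ∈ surv q A R χ, ∑ v ∈ surv q A R χ, (1 : ℝ) := by
      intro χ
      rw [sum_const, sum_const, nsmul_eq_mul, nsmul_eq_mul, mul_one, pow_two]
    simp_rw [e]
    refine le_trans (av_pair hR (fun _ _ => 1) (fun _ _ => by norm_num)) ?_
    have e1 : ∑ u ∈ A, ∑ v ∈ A, (1 : ℝ) = (A.card : ℝ) ^ 2 := by
      rw [sum_const, sum_const, nsmul_eq_mul, nsmul_eq_mul, mul_one, pow_two]
    rw [e1]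
    have e2 : p ^ (2 * j) * (A.card : ℝ) ^ 2 = M ^ 2 := by rw [hM]; ring
    rw [← hp, e2]
    have e3 : (∑ u ∈ A, ∑ v ∈ A, (if Disjoint (R u) (R v) then (0 : ℝ) else 1)) ≤ M ^ 2 / 16 := by
      have h5 : (q + 1 : ℝ) ^ (2 * j) * p ^ (2 * j) = 1 := by
        rw [← mul_pow, hp]
        have : ((q : ℝ) + 1) * (1 / ((q : ℝ) + 1)) = 1 := by field_simp
        rw [this, one_pow]
      calc (∑ u ∈ A, ∑ v ∈ A, (if Disjoint (R u) (R v) then (0 : ℝ) else 1))
          = ((∑ u ∈ A, ∑ v ∈ A, (if Disjoint (R u) (R v) then (0 : ℝ) else 1))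
              * (q + 1 : ℝ) ^ (2 * j)) * p ^ (2 * j) := by rw [mul_assoc, h5, mul_one]
        _ ≤ ((A.card : ℝ) ^ 2 / 16) * p ^ (2 * j) := mul_le_mul_of_nonneg_right Hδ (by positivity)
        _ = M ^ 2 / 16 := by rw [hM]; ring
    linarith
  have m3 := av_pair (q := q) hR f2 h2
  have m4 := av_triple (q := q) hR f3 h3 hs1 hs2
  have m5 := av_pair (q := q) hR f4 h4
  have m6 : av V q (fun χ => ((S.filter (fun x => χ x = 0)).card : ℝ)) ≤ Q5 := by
    have e : ∀ χ : V → Fin (q + 1), ((S.filter (fun x => χ x = 0)).card : ℝ)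
        = ∑ x ∈ S, (if ∀ y ∈ ({x} : Finset V), χ y = 0 then (1 : ℝ) else 0) := by
      intro χ
      rw [card_filter]; push_cast
      apply sum_congr rfl; intro x _
      simp
    simp_rw [e]
    rw [av_sum]
    calc ∑ i ∈ S, av V q (fun χ => if ∀ y ∈ ({i} : Finset V), χ y = 0 then (1 : ℝ) else 0)
        = ∑ i ∈ S, p := by
          apply sum_congr rfl; intro x _
          rw [av_zero_on, card_singleton, pow_one]
      _ = p * S.card := by rw [sum_const, nsmul_eq_mul]; ring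
      _ ≤ Q5 := H5
  -- the functional
  set Φ : (V → Fin (q + 1)) → ℝ := fun χ =>
    (4 / M ^ 2) * ((surv q A R χ).card : ℝ) ^ 2 + (-8 / M) * ((surv q A R χ).card : ℝ) + 4
    + (1 / (8 * Q2)) * (∑ u ∈ surv q A R χ, ∑ v ∈ surv q A R χ, f2 u v)
    + (1 / (8 * Q3)) * (∑ u ∈ surv q A R χ, ∑ v ∈ surv q A R χ, ∑ z ∈ surv q A R χ, f3 u v z)
    + (1 / (8 * Q4)) * (∑ u ∈ surv q A R χ, ∑ v ∈ surv q A R χ, f4 u v)
    + (1 / (8 * Q5)) * ((S.filter (fun x => χ x = 0)).card : ℝ) with hΦ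
  have hav : av V q Φ < 1 := by
    rw [hΦ]
    rw [av_add, av_add, av_add, av_add, av_add, av_add, av_mul, av_mul, av_mul, av_mul, av_mul, av_mul,
      av_const, m1]
    have b1 : (4 / M ^ 2) * av V q (fun χ => ((surv q A R χ).card : ℝ) ^ 2)
        ≤ (4 / M ^ 2) * (M ^ 2 + M ^ 2 / 16) := mul_le_mul_of_nonneg_left m2 (by positivity)
    have b1' : (4 / M ^ 2) * (M ^ 2 + M ^ 2 / 16) = 4 + 1 / 4 := by
      have hM2 : M ^ 2 ≠ 0 := by positivity
      calc (4 / M ^ 2) * (M ^ 2 + M ^ 2 / 16) = (M ^ 2 / M ^ 2) * (4 + 1 / 4) := by ring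
        _ = _ := by rw [div_self hM2, one_mul]
    have b2 : (-8 / M) * M = -8 := by field_simp
    have b3 : (1 / (8 * Q2)) * av V q (fun χ => ∑ u ∈ surv q A R χ, ∑ v ∈ surv q A R χ, f2 u v)
        ≤ 1 / 8 := by
      calc _ ≤ (1 / (8 * Q2)) * Q2 := mul_le_mul_of_nonneg_left (le_trans m3 H2) (by positivity)
        _ = 1 / 8 := by field_simp
    have b4 : (1 / (8 * Q3)) * av V q (fun χ => ∑ u ∈ surv q A R χ, ∑ v ∈ surv q A R χ,
        ∑ z ∈ surv q A R χ, f3 u v z) ≤ 1 / 8 := by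
      calc _ ≤ (1 / (8 * Q3)) * Q3 := mul_le_mul_of_nonneg_left (le_trans m4 H3) (by positivity)
        _ = 1 / 8 := by field_simp
    have b5 : (1 / (8 * Q4)) * av V q (fun χ => ∑ u ∈ surv q A R χ, ∑ v ∈ surv q A R χ, f4 u v)
        ≤ 1 / 8 := by
      calc _ ≤ (1 / (8 * Q4)) * Q4 := mul_le_mul_of_nonneg_left (le_trans m5 H4) (by positivity)
        _ = 1 / 8 := by field_simp
    have b6 : (1 / (8 * Q5)) * av V q (fun χ => ((S.filter (fun x => χ x = 0)).card : ℝ)) ≤ 1 / 8 := by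
      calc _ ≤ (1 / (8 * Q5)) * Q5 := mul_le_mul_of_nonneg_left m6 (by positivity)
        _ = 1 / 8 := by field_simp
    rw [b2]
    linarith
  obtain ⟨χ, hχ⟩ := exists_lt_of_av_lt q hav
  refine ⟨χ, ?_⟩
  simp only [hΦ] at hχ
  set c : ℝ := ((surv q A R χ).card : ℝ) with hc
  set e2 := ∑ u ∈ surv q A R χ, ∑ v ∈ surv q A R χ, f2 u v with he2
  set e3 := ∑ u ∈ surv q A R χ, ∑ v ∈ surv q A R χ, ∑ z ∈ surv q A R χ, f3 u v z with he3
  set e4 := ∑ u ∈ surv q A R χ, ∑ v ∈ surv q A R χ, f4 u v with he4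
  set e5 : ℝ := ((S.filter (fun x => χ x = 0)).card : ℝ) with he5
  have n2 : 0 ≤ (1 / (8 * Q2)) * e2 := mul_nonneg (by positivity)
    (sum_nonneg fun u _ => sum_nonneg fun v _ => h2 u v)
  have n3 : 0 ≤ (1 / (8 * Q3)) * e3 := mul_nonneg (by positivity)
    (sum_nonneg fun u _ => sum_nonneg fun v _ => sum_nonneg fun z _ => h3 u v z)
  have n4 : 0 ≤ (1 / (8 * Q4)) * e4 := mul_nonneg (by positivity)
    (sum_nonneg fun u _ => sum_nonneg fun v _ => h4 u v)
  have n5 : 0 ≤ (1 / (8 * Q5)) * e5 := mul_nonneg (by positivity) (Nat.cast_nonneg _)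
  have n1 : (4 / M ^ 2) * c ^ 2 + (-8 / M) * c + 4 = 4 * (c / M - 1) ^ 2 := by
    field_simp; ring
  have n1' : 0 ≤ 4 * (c / M - 1) ^ 2 := by positivity
  rw [n1] at hχ
  refine ⟨?_, ?_, ?_, ?_, ?_⟩
  · have h5 : (c / M - 1) ^ 2 < (1 / 2) ^ 2 := by linarith
    have h6 := abs_lt_of_sq_lt_sq h5 (by norm_num)
    have h7 := (abs_lt.1 h6).1
    have h8 : 1 / 2 < c / M := by linarith
    rw [lt_div_iff₀ hM0] at h8
    linarith
  · have : (1 / (8 * Q2)) * e2 < 1 := by linarith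
    rw [one_div, inv_mul_lt_iff₀ (by positivity)] at this
    linarith
  · have : (1 / (8 * Q3)) * e3 < 1 := by linarith
    rw [one_div, inv_mul_lt_iff₀ (by positivity)] at this
    linarith
  · have : (1 / (8 * Q4)) * e4 < 1 := by linarith
    rw [one_div, inv_mul_lt_iff₀ (by positivity)] at this
    linarith
  · have : (1 / (8 * Q5)) * e5 < 1 := by linarith
    rw [one_div, inv_mul_lt_iff₀ (by positivity)] at this
    linarith

end Pool.Agent.MP_99d303_co
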