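import Pool.Agent.MP_99d303_co.Bad
import Pool.Agent.MP_99d303_co.Greedy
import Pool.Agent.MP_99d303_co.Thin

set_option autoImplicit false
set_option linter.unusedSectionVars false

open Finset

namespace Pool.Agent.MP_99d303_co

variable {V : Type*} [Fintype V] [DecidableEq V]
variable {E : V → V → V → Prop} {β τ : ℝ}

open scoped Classical in
noncomputable def f3 (E : V → V → V → Prop) (u v z : V) : ℝ := if E u v z then (1 : ℝ) else 0

theorem f2_nonneg (S : Finset V) (u v : V) : 0 ≤ f2 E S u v := by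
  unfold f2
  apply sum_nonneg; intro w _
  split_ifs <;> norm_num

theorem f3_nonneg (u v z : V) : 0 ≤ f3 E u v z := by
  unfold f3; split_ifs <;> norm_num

theorem f3_swap12 (hE : Good E) (u v z : V) : f3 E u v z = f3 E v u z := by
  unfold f3
  by_cases h : E u v z
  · rw [if_pos h, if_pos (hE.swap12 h)]
  · rw [if_neg h, if_neg (fun h' => h (hE.swap12 h'))]

theorem f3_swap23 (hE : Good E) (u v z : V) : f3 E u v z = f3 E u z v := by
  unfold f3
  by_cases h : E u v z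
  · rw [if_pos h, if_pos (hE.swap23 h)]
  · rw [if_neg h, if_neg (fun h' => h (hE.swap23 h'))]

theorem inter (hE : Good E) (S : Finset V) :
    Inter (f2 E S) (f3 E) (fun u v => (cd E u v : ℝ)) := by
  classical
  refine ⟨?_, ?_, f2_nonneg S, ?_, f3_swap12 hE, f3_swap23 hE, ?_, f3_nonneg, ?_, ?_, ?_, ?_⟩
  · intro u v
    unfold f2
    apply sum_congr rfl; intro w _
    exact f3_swap12 hE u v w
  · intro u
    unfold f2
    apply sum_eq_zero; intro w _
    rw [if_neg (fun h => hE.ne12 h rfl)]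
  · intro u v h
    unfold f2 at h ⊢
    rw [← sum_filter, sum_const, nsmul_eq_mul, mul_one] at h ⊢
    have : (S.filter (fun w => E u v w)).card ≠ 0 := by exact_mod_cast h
    exact_mod_cast Nat.one_le_iff_ne_zero.2 this
  · intro u z
    unfold f3
    rw [if_neg (fun h => hE.ne12 h rfl)]
  · intro u v z h
    unfold f3 at h ⊢
    by_cases h' : E u v z
    · rw [if_pos h']
    · rw [if_neg h'] at h; exact absurd rfl h
  · intro u v; rw [hE.cd_comm]
  · intro u; rw [hE.cd_self]; norm_num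
  · intro u v; exact Nat.cast_nonneg _

theorem sum_sum_ext (A : Finset V) {g : V → V → ℝ} (hg : ∀ u v, 0 ≤ g u v) :
    ∑ u ∈ A, ∑ v ∈ A, g u v ≤ ∑ u, ∑ v, g u v := by
  calc ∑ u ∈ A, ∑ v ∈ A, g u v ≤ ∑ u ∈ A, ∑ v, g u v := by
        apply sum_le_sum; intro u _
        exact sum_le_sum_of_subset_of_nonneg (subset_univ _) fun v _ _ => hg u v
    _ ≤ _ := sum_le_sum_of_subset_of_nonneg (subset_univ _) fun u _ _ =>
        sum_nonneg fun v _ => hg u v

theorem sum_f2_le (hE : Good E) (S A : Finset V) :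
    ∑ u ∈ A, ∑ v ∈ A, f2 E S u v ≤ 4 * Fintype.card V * S.card := by
  classical
  refine le_trans (sum_sum_ext A (f2_nonneg S)) ?_
  have e : ∑ u, ∑ v, f2 E S u v = ∑ w ∈ S, ∑ u, (cd E u w : ℝ) := by
    unfold f2
    have : ∀ u, ∑ v, ∑ w ∈ S, (if E u v w then (1 : ℝ) else 0) = ∑ w ∈ S, (cd E u w : ℝ) := by
      intro u
      rw [sum_comm]
      apply sum_congr rfl; intro w _
      rw [cd_eq_sum]
      apply sum_congr rfl; intro v _
      have : E u v w ↔ E u w v := ⟨fun h => hE.swap23 h, fun h => hE.swap23 h⟩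
      simp only [this]
    simp_rw [this]
    rw [sum_comm]
  rw [e]
  calc ∑ w ∈ S, ∑ u, (cd E u w : ℝ) ≤ ∑ _w ∈ S, 4 * (Fintype.card V : ℝ) :=
        sum_le_sum fun w _ => hE.sum_cd_le' w
    _ = _ := by rw [sum_const, nsmul_eq_mul]; ring

theorem sum_f3_le (A : Finset V) (u v : V) : ∑ z ∈ A, f3 E u v z ≤ (cd E u v : ℝ) := by
  rw [cd_eq_sum]
  exact sum_le_sum_of_subset_of_nonneg (subset_univ _) fun z _ _ => f3_nonneg u v z

theorem sum_f4_le (hE : Good E) (A : Finset V) :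
    ∑ u ∈ A, ∑ v ∈ A, (cd E u v : ℝ) ≤ 4 * (Fintype.card V : ℝ) ^ 2 :=
  le_trans (sum_sum_ext A (fun _ _ => Nat.cast_nonneg _)) hE.sum_sum_cd_le

theorem markov3 (U : Finset V) (g2 g3 g4 : V → ℝ) (h2 : ∀ u, 0 ≤ g2 u) (h3 : ∀ u, 0 ≤ g3 u)
    (h4 : ∀ u, 0 ≤ g4 u) {D2 D3 D4 e2 e3 e4 : ℝ} (hD2 : 0 < D2) (hD3 : 0 < D3) (hD4 : 0 < D4)
    (s2 : ∑ u ∈ U, g2 u ≤ e2) (s3 : ∑ u ∈ U, g3 u ≤ e3) (s4 : ∑ u ∈ U, g4 u ≤ e4) :
    (U.card : ℝ) ≤ ((U.filter (fun u => g2 u ≤ D2 ∧ g3 u ≤ D3 ∧ g4 u ≤ D4)).card : ℝ)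
      + e2 / D2 + e3 / D3 + e4 / D4 := by
  classical
  have e0 : ((U.filter (fun u => g2 u ≤ D2 ∧ g3 u ≤ D3 ∧ g4 u ≤ D4)).card : ℝ)
      = ∑ u ∈ U, (if g2 u ≤ D2 ∧ g3 u ≤ D3 ∧ g4 u ≤ D4 then (1 : ℝ) else 0) := by
    rw [card_filter]; push_cast; rfl
  have e1 : (U.card : ℝ) = ∑ _u ∈ U, (1 : ℝ) := by rw [sum_const, nsmul_eq_mul, mul_one]
  have k : ∑ _u ∈ U, (1 : ℝ) ≤ ∑ u ∈ U, ((if g2 u ≤ D2 ∧ g3 u ≤ D3 ∧ g4 u ≤ D4 then (1 : ℝ) else 0)
      + g2 u / D2 + g3 u / D3 + g4 u / D4) := by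
    apply sum_le_sum
    intro u _
    have n2 : 0 ≤ g2 u / D2 := div_nonneg (h2 u) hD2.le
    have n3 : 0 ≤ g3 u / D3 := div_nonneg (h3 u) hD3.le
    have n4 : 0 ≤ g4 u / D4 := div_nonneg (h4 u) hD4.le
    by_cases c2 : g2 u ≤ D2
    swap
    · have : 1 ≤ g2 u / D2 := by rw [le_div_iff₀ hD2]; linarith [not_le.1 c2]
      have : (0 : ℝ) ≤ (if g2 u ≤ D2 ∧ g3 u ≤ D3 ∧ g4 u ≤ D4 then (1 : ℝ) else 0) := by
        split_ifs <;> norm_num
      linarith
    by_cases c3 : g3 u ≤ D3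
    swap
    · have : 1 ≤ g3 u / D3 := by rw [le_div_iff₀ hD3]; linarith [not_le.1 c3]
      have : (0 : ℝ) ≤ (if g2 u ≤ D2 ∧ g3 u ≤ D3 ∧ g4 u ≤ D4 then (1 : ℝ) else 0) := by
        split_ifs <;> norm_num
      linarith
    by_cases c4 : g4 u ≤ D4
    swap
    · have : 1 ≤ g4 u / D4 := by rw [le_div_iff₀ hD4]; linarith [not_le.1 c4]
      have : (0 : ℝ) ≤ (if g2 u ≤ D2 ∧ g3 u ≤ D3 ∧ g4 u ≤ D4 then (1 : ℝ) else 0) := by
        split_ifs <;> norm_num
      linarith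
    rw [if_pos ⟨c2, c3, c4⟩]; linarith
  rw [sum_add_distrib, sum_add_distrib, sum_add_distrib, ← e0, ← e1, ← sum_div, ← sum_div,
    ← sum_div] at k
  have d2 := div_le_div_of_nonneg_right s2 hD2.le
  have d3 := div_le_div_of_nonneg_right s3 hD3.le
  have d4 := div_le_div_of_nonneg_right s4 hD4.le
  linarith

/-- structural part: a good sequence of survivors can be added after deleting `X` -/
theorem add_seq (hE : Good E) {S X A : Finset V} {k : ℕ} {D t3 t4 : ℝ} (hS : Ind E S)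
    (hA : A ⊆ AA E k D S) {U U0 : Finset V} (hU0 : U0 ⊆ U) (hU : U ⊆ A)
    (hUX : ∀ v ∈ U, RR E v S ⊆ X) {m : ℕ} {f : Fin m → V}
    (hf : GoodSeq U U0 (f2 E S) (f3 E) (fun u v => (cd E u v : ℝ)) t3 t4 f) :
    Function.Injective f ∧ (∀ i, f i ∉ S) ∧ Ind E ((S \ X) ∪ univ.image f) ∧
      GG E ((S \ X) ∪ univ.image f) ≤ GG E (S \ X) + (2 * m * D + 2 * m * t4) := by
  classical
  have hAA : ∀ i, f i ∉ S ∧ LLfree E (f i) S ∧ (RR E (f i) S).card ≤ k ∧ Gp E (f i) S ≤ D := by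
    intro i
    have := hA (hU (hU0 (hf.mem i)))
    rw [AA, mem_filter] at this
    exact this.2
  have hX : ∀ i, RR E (f i) S ⊆ X := fun i => hUX _ (hU0 (hf.mem i))
  -- no edge `f i`, `x`, `b`
  have no1 : ∀ i, ∀ x ∈ S \ X, ∀ b ∈ S \ X, ¬ E (f i) x b := by
    intro i x hx b hb h
    rw [mem_sdiff] at hx hb
    by_cases c1 : 3 ≤ cd E (f i) x
    · have : b ∈ RR E (f i) S := mem_RR.2 ⟨hb.1, x, hx.1, h, c1⟩
      exact hb.2 (hX i this)
    by_cases c2 : 3 ≤ cd E (f i) b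
    · have : x ∈ RR E (f i) S := mem_RR.2 ⟨hx.1, b, hb.1, hE.swap23 h, c2⟩
      exact hx.2 (hX i this)
    exact (hAA i).2.1 x hx.1 b hb.1 ⟨h, by omega, by omega⟩
  have no2 : ∀ i j, ∀ w ∈ S, ¬ E (f i) (f j) w := by
    intro i j w hw h
    have h1 := hf.two i j
    unfold f2 at h1
    have h2 := (sum_eq_zero_iff_of_nonneg (fun w _ => by split_ifs <;> norm_num)).1 h1 w hw
    rw [if_pos h] at h2
    norm_num at h2
  have no3 : ∀ i j l, ¬ E (f i) (f j) (f l) := by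
    intro i j l h
    have h1 := hf.three i j l
    unfold f3 at h1
    rw [if_pos h] at h1
    norm_num at h1
  refine ⟨hf.inj, fun i => (hAA i).1, ?_, ?_⟩
  · intro a ha b hb c hc h
    rw [mem_union, mem_image] at ha hb hc
    rcases ha with ha | ⟨i, -, rfl⟩
    · rcases hb with hb | ⟨j, -, rfl⟩
      · rcases hc with hc | ⟨l, -, rfl⟩
        · exact hS a (mem_sdiff.1 ha).1 b (mem_sdiff.1 hb).1 c (mem_sdiff.1 hc).1 h
        · exact no1 l a ha b hb (hE.rot' h)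
      · rcases hc with hc | ⟨l, -, rfl⟩
        · exact no1 j c hc a ha (hE.rot h)
        · exact no2 j l a (mem_sdiff.1 ha).1 (hE.rot h)
    · rcases hb with hb | ⟨j, -, rfl⟩
      · rcases hc with hc | ⟨l, -, rfl⟩
        · exact no1 i b hb c hc h
        · exact no2 i l b (mem_sdiff.1 hb).1 (hE.swap23 h)
      · rcases hc with hc | ⟨l, -, rfl⟩
        · exact no2 i j c (mem_sdiff.1 hc).1 h
        · exact no3 i j l h
  · have hdisj : Disjoint (S \ X) (univ.image f) := by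
      rw [disjoint_left]
      intro y hy hy'
      rw [mem_image] at hy'
      obtain ⟨i, -, rfl⟩ := hy'
      exact (hAA i).1 (mem_sdiff.1 hy).1
    rw [GG_union hE hdisj]
    have e1 : ∑ r ∈ univ.image f, Gp E r (S \ X) ≤ m * D := by
      rw [sum_image (fun a _ b _ h => hf.inj h)]
      calc ∑ i, Gp E (f i) (S \ X) ≤ ∑ _i : Fin m, D :=
            sum_le_sum fun i _ => le_trans (Gp_mono sdiff_subset) (hAA i).2.2.2
        _ = m * D := by simp
    have e2 : GG E (univ.image f) ≤ 2 * m * t4 := by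
      unfold GG
      rw [sum_image (fun a _ b _ h => hf.inj h)]
      calc ∑ i, ∑ b ∈ univ.image f, (cd E (f i) b : ℝ) = ∑ i, ∑ j, (cd E (f i) (f j) : ℝ) := by
            apply sum_congr rfl; intro i _
            rw [sum_image (fun a _ b _ h => hf.inj h)]
        _ ≤ 2 * m * t4 := hf.four
    linarith

end Pool.Agent.MP_99d303_co
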