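import Pool.Agent.MP_99d303_co.Construct

set_option autoImplicit false
set_option linter.unusedSectionVars false

open Finset

namespace Pool.Agent.MP_99d303_co

variable {V : Type*} [Fintype V] [DecidableEq V]
variable {E : V → V → V → Prop} {β τ : ℝ}

theorem exists_level {A : Finset V} {R : V → Finset V} {k : ℕ} (hA : ∀ v ∈ A, (R v).card ≤ k)
    {c : ℝ} (hc : (k + 1) * c ≤ (A.card : ℝ)) :
    ∃ j ≤ k, c ≤ ((A.filter (fun v => (R v).card = j)).card : ℝ) := by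
  classical
  by_contra hcon
  push Not at hcon
  have h1 : A.card = ∑ j ∈ range (k + 1), (A.filter (fun v => (R v).card = j)).card := by
    apply card_eq_sum_card_fiberwise
    intro v hv
    have := hA v hv
    simp only [coe_range, Set.mem_Iio]
    omega
  have h2 : ∑ j ∈ range (k + 1), ((A.filter (fun v => (R v).card = j)).card : ℝ)
      < ∑ _j ∈ range (k + 1), c := by
    apply sum_lt_sum_of_nonempty
    · exact ⟨0, by simp⟩
    · intro j hj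
      rw [mem_range] at hj
      exact hcon j (by omega)
  rw [sum_const, card_range, nsmul_eq_mul] at h2
  have h3 : (A.card : ℝ) = ∑ j ∈ range (k + 1), ((A.filter (fun v => (R v).card = j)).card : ℝ) := by
    exact_mod_cast h1
  push_cast at h2
  linarith

theorem num_ineq {m P s C a0 : ℝ} (hP : 0 < P) (hs : 0 < s) (hC : 1 ≤ C) (ha0 : 0 < a0)
    (ha1 : a0 ≤ 1) (hm0 : 0 ≤ m) (hm1 : 40960 * C * m ≤ a0 ^ 2 * s) (hm2 : 80 * m ≤ P * a0 * s ^ 2) :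
    m * (1 + 512 * C * P * s / a0 + 2 * (P * s) + (512 * P ^ 2 * s ^ 2 / a0) / (P * s)
      + (512 * P * s ^ 2 / a0) / s) ≤ P * a0 * s ^ 2 / 16 := by
  have hC0 : 0 < C := by linarith
  have e1 : (512 * P ^ 2 * s ^ 2 / a0) / (P * s) = 512 * P * s / a0 := by field_simp
  have e2 : (512 * P * s ^ 2 / a0) / s = 512 * P * s / a0 := by field_simp
  rw [e1, e2]
  have b1 : m * (512 * C * P * s / a0) ≤ P * a0 * s ^ 2 / 80 := by
    rw [mul_div_assoc', div_le_iff₀ ha0]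
    calc m * (512 * C * P * s) = (40960 * C * m) * (P * s / 80) := by ring
      _ ≤ (a0 ^ 2 * s) * (P * s / 80) := mul_le_mul_of_nonneg_right hm1 (by positivity)
      _ = P * a0 * s ^ 2 / 80 * a0 := by ring
  have hm1' : 40960 * m ≤ a0 ^ 2 * s := by
    have : 40960 * m * 1 ≤ 40960 * m * C := mul_le_mul_of_nonneg_left hC (by positivity)
    linarith
  have b2 : m * (2 * (P * s)) ≤ P * a0 * s ^ 2 / 20480 := by
    calc m * (2 * (P * s)) = (40960 * m) * (P * s / 20480) := by ring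
      _ ≤ (a0 ^ 2 * s) * (P * s / 20480) := mul_le_mul_of_nonneg_right hm1' (by positivity)
      _ = (P * a0 * s ^ 2 / 20480) * a0 := by ring
      _ ≤ (P * a0 * s ^ 2 / 20480) * 1 := mul_le_mul_of_nonneg_left ha1 (by positivity)
      _ = _ := by ring
  have b3 : m * (512 * P * s / a0) ≤ P * a0 * s ^ 2 / 80 := by
    rw [mul_div_assoc', div_le_iff₀ ha0]
    calc m * (512 * P * s) = (40960 * m) * (P * s / 80) := by ring
      _ ≤ (a0 ^ 2 * s) * (P * s / 80) := mul_le_mul_of_nonneg_right hm1' (by positivity)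
      _ = P * a0 * s ^ 2 / 80 * a0 := by ring
  have hpos : 0 < P * a0 * s ^ 2 := by positivity
  have : m * (1 + 512 * C * P * s / a0 + 2 * (P * s) + 512 * P * s / a0 + 512 * P * s / a0)
      = m + m * (512 * C * P * s / a0) + m * (2 * (P * s)) + 2 * (m * (512 * P * s / a0)) := by ring
  rw [this]
  linarith

theorem construct (hE : Good E) {S : Finset V} {k q r : ℕ} {D s C a0 : ℝ} (hS : Ind E S)
    (hs : 0 < s) (hn : (Fintype.card V : ℝ) = s ^ 2) (hC : 1 ≤ C) (hSC : (S.card : ℝ) ≤ C * s)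
    (ha0 : 0 < a0) (ha1 : a0 ≤ 1)
    (hAA : (k + 1) * (a0 * s ^ 2) ≤ ((AA E k D S).card : ℝ))
    (hb1 : ∑ i, T1 E S i + ∑ i, T2 E S i + 2 * ∑ i, T3 E D S i
      ≤ 4 * C * (1 / (q + 1 : ℝ)) ^ (2 * k) * s ^ 3)
    (hb2 : ∑ i, T0 E S i ≤ (1 / (q + 1 : ℝ)) ^ (3 * k) * s ^ 4)
    (c1 : 16 * C ^ 3 * (q + 1 : ℝ) ^ (2 * k) ≤ a0 ^ 2 * s)
    (c2 : 8 * ((1 / (q + 1 : ℝ)) * (C * s)) ≤ r)
    (c3 : 40960 * C * (4 * r) ≤ a0 ^ 2 * s)
    (c4 : 80 * (4 * r) ≤ (1 / (q + 1 : ℝ)) ^ k * a0 * s ^ 2) :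
    ∃ X ⊆ S, (X.card : ℝ) ≤ r ∧ ∃ L : Finset (Fin (4 * r) → V),
      ((1 / (q + 1 : ℝ)) ^ k * a0 * s ^ 2 / 16) ^ (4 * r) ≤ (L.card : ℝ) ∧
      ∀ f ∈ L, Function.Injective f ∧ (∀ i, f i ∉ S) ∧ Ind E ((S \ X) ∪ univ.image f) ∧
        GG E ((S \ X) ∪ univ.image f)
          ≤ GG E (S \ X) + (2 * (4 * r : ℕ) * D + 2 * (4 * r : ℕ) * s) := by
  classical
  have hC0 : 0 < C := by linarith
  obtain ⟨j, hj, hAj⟩ := exists_level (A := AA E k D S) (R := fun v => RR E v S) (k := k)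
    (fun v hv => by rw [AA, mem_filter] at hv; exact hv.2.2.2.1) hAA
  set A : Finset V := (AA E k D S).filter (fun v => (RR E v S).card = j) with hA
  have hAsub : A ⊆ AA E k D S := filter_subset _ _
  have hAR : ∀ v ∈ A, (RR E v S).card = j := fun v hv => (mem_filter.1 hv).2
  have hAprop : ∀ v ∈ A, v ∉ S ∧ LLfree E v S ∧ (RR E v S).card ≤ k ∧ Gp E v S ≤ D := by
    intro v hv
    have := hAsub hv
    rw [AA, mem_filter] at this
    exact this.2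
  have hApos : 0 < A.card := by
    have : (0 : ℝ) < A.card := lt_of_lt_of_le (by positivity) hAj
    exact_mod_cast this
  set p : ℝ := 1 / (q + 1 : ℝ) with hp
  have hp0 : 0 < p := by positivity
  have hp1 : p ≤ 1 := inv_le_one
  set P : ℝ := p ^ j with hP
  have hP0 : 0 < P := by positivity
  have hP1 : P ≤ 1 := pow_le_one₀ hp0.le hp1
  have hPk : p ^ k ≤ P := pow_le_pow_of_le_one hp0.le hp1 hj
  have hP2k : p ^ (2 * k) ≤ P ^ 2 := by
    rw [hP, ← pow_mul]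
    exact pow_le_pow_of_le_one hp0.le hp1 (by omega)
  have hP3k : p ^ (3 * k) ≤ P ^ 3 := by
    rw [hP, ← pow_mul]
    exact pow_le_pow_of_le_one hp0.le hp1 (by omega)
  have hP2 : p ^ (2 * j) = P ^ 2 := by rw [hP, ← pow_mul]; congr 1; ring
  have hP3 : p ^ (3 * j) = P ^ 3 := by rw [hP, ← pow_mul]; congr 1; ring
  -- thinning
  have H2 : p ^ (2 * j) * (∑ u ∈ A, ∑ v ∈ A, f2 E S u v)
        + ∑ u ∈ A, ∑ v ∈ A, (if Disjoint (RR E u S) (RR E v S) then 0 else f2 E S u v)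
        ≤ 8 * C * P ^ 2 * s ^ 3 := by
    have b1 := bad1_le hE (S := S) (A := A) (D := D) (fun u hu => (hAprop u hu).1)
      (fun u hu => (hAprop u hu).2.2.2)
    have b2 : ∑ u ∈ A, ∑ v ∈ A, f2 E S u v ≤ 4 * C * s ^ 3 := by
      refine le_trans (sum_f2_le hE S A) ?_
      rw [hn]
      calc 4 * s ^ 2 * (S.card : ℝ) ≤ 4 * s ^ 2 * (C * s) :=
            mul_le_mul_of_nonneg_left hSC (by positivity)
        _ = 4 * C * s ^ 3 := by ring
    rw [hP2]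
    have b3 : P ^ 2 * (∑ u ∈ A, ∑ v ∈ A, f2 E S u v) ≤ P ^ 2 * (4 * C * s ^ 3) :=
      mul_le_mul_of_nonneg_left b2 (by positivity)
    have b4 : 4 * C * p ^ (2 * k) * s ^ 3 ≤ 4 * C * P ^ 2 * s ^ 3 := by gcongr
    linarith
  have hbad2 := bad2_le hE S A
  have H3 : p ^ (3 * j) * (∑ u ∈ A, ∑ v ∈ A, ∑ z ∈ A, f3 E u v z)
        + 3 * ∑ u ∈ A, ∑ v ∈ A, (if Disjoint (RR E u S) (RR E v S) then 0
          else ∑ z ∈ A, f3 E u v z) ≤ 8 * P ^ 3 * s ^ 4 := by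
    have b1 : ∑ u ∈ A, ∑ v ∈ A, (if Disjoint (RR E u S) (RR E v S) then 0
          else ∑ z ∈ A, f3 E u v z) ≤ p ^ (3 * k) * s ^ 4 := by
      refine le_trans ?_ (le_trans hbad2 hb2)
      apply sum_le_sum; intro u _
      apply sum_le_sum; intro v _
      split_ifs
      · exact le_refl _
      · exact sum_f3_le A u v
    have b2 : ∑ u ∈ A, ∑ v ∈ A, ∑ z ∈ A, f3 E u v z ≤ 4 * s ^ 4 := by
      calc ∑ u ∈ A, ∑ v ∈ A, ∑ z ∈ A, f3 E u v z ≤ ∑ u ∈ A, ∑ v ∈ A, (cd E u v : ℝ) :=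
            sum_le_sum fun u _ => sum_le_sum fun v _ => sum_f3_le A u v
        _ ≤ 4 * (Fintype.card V : ℝ) ^ 2 := sum_f4_le hE A
        _ = 4 * s ^ 4 := by rw [hn]; ring
    rw [hP3]
    have b3 : P ^ 3 * (∑ u ∈ A, ∑ v ∈ A, ∑ z ∈ A, f3 E u v z) ≤ P ^ 3 * (4 * s ^ 4) :=
      mul_le_mul_of_nonneg_left b2 (by positivity)
    have b4 : p ^ (3 * k) * s ^ 4 ≤ P ^ 3 * s ^ 4 := by gcongr
    have b5 : 0 ≤ P ^ 3 * s ^ 4 := by positivity
    linarith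
  have H4 : p ^ (2 * j) * (∑ u ∈ A, ∑ v ∈ A, (cd E u v : ℝ))
        + ∑ u ∈ A, ∑ v ∈ A, (if Disjoint (RR E u S) (RR E v S) then 0 else (cd E u v : ℝ))
        ≤ 8 * P ^ 2 * s ^ 4 := by
    have b2 : ∑ u ∈ A, ∑ v ∈ A, (cd E u v : ℝ) ≤ 4 * s ^ 4 := by
      calc _ ≤ 4 * (Fintype.card V : ℝ) ^ 2 := sum_f4_le hE A
        _ = 4 * s ^ 4 := by rw [hn]; ring
    rw [hP2]
    have b3 : P ^ 2 * (∑ u ∈ A, ∑ v ∈ A, (cd E u v : ℝ)) ≤ P ^ 2 * (4 * s ^ 4) :=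
      mul_le_mul_of_nonneg_left b2 (by positivity)
    have b4 : p ^ (3 * k) * s ^ 4 ≤ P ^ 3 * s ^ 4 := by gcongr
    have b6 : P ^ 3 * s ^ 4 ≤ P ^ 2 * s ^ 4 := by
      apply mul_le_mul_of_nonneg_right _ (by positivity)
      exact pow_le_pow_of_le_one hP0.le hP1 (by norm_num)
    have b5 : 0 ≤ P ^ 2 * s ^ 4 := by positivity
    linarith
  have H5 : p * (S.card : ℝ) ≤ p * (C * s) := mul_le_mul_of_nonneg_left hSC hp0.le
  have hAs : (a0 * s ^ 2) ^ 2 ≤ (A.card : ℝ) ^ 2 := pow_le_pow_left₀ (by positivity) hAj 2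
  have Hδ : (∑ u ∈ A, ∑ v ∈ A, (if Disjoint (RR E u S) (RR E v S) then (0 : ℝ) else 1))
      * (q + 1 : ℝ) ^ (2 * j) ≤ (A.card : ℝ) ^ 2 / 16 := by
    have d1 := pairs_le hE S A
    have d2 : (S.card : ℝ) ^ 3 ≤ (C * s) ^ 3 := pow_le_pow_left₀ (Nat.cast_nonneg _) hSC 3
    have d3 : (q + 1 : ℝ) ^ (2 * j) ≤ (q + 1 : ℝ) ^ (2 * k) := by
      apply pow_le_pow_right₀ _ (by omega)
      have : (0 : ℝ) ≤ q := Nat.cast_nonneg _
      linarith
    calc _ ≤ (C * s) ^ 3 * (q + 1 : ℝ) ^ (2 * k) := by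
          apply mul_le_mul (le_trans d1 d2) d3 (by positivity) (by positivity)
      _ = (16 * C ^ 3 * (q + 1 : ℝ) ^ (2 * k)) * (s ^ 3 / 16) := by ring
      _ ≤ (a0 ^ 2 * s) * (s ^ 3 / 16) := mul_le_mul_of_nonneg_right c1 (by positivity)
      _ = (a0 * s ^ 2) ^ 2 / 16 := by ring
      _ ≤ _ := by linarith
  obtain ⟨χ, hU1, hU2, hU3, hU4, hU5⟩ := thinning q A S (fun v => RR E v S) j hAR hApos
    (f2 E S) (f3 E) (fun u v => (cd E u v : ℝ)) (f2_nonneg S) f3_nonneg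
    (fun _ _ => Nat.cast_nonneg _) (f3_swap12 hE) (f3_swap23 hE)
    (8 * C * P ^ 2 * s ^ 3) (8 * P ^ 3 * s ^ 4) (8 * P ^ 2 * s ^ 4) (p * (C * s))
    (by positivity) (by positivity) (by positivity) (by positivity) H2 H3 H4 H5 Hδ
  set U := surv q A (fun v => RR E v S) χ with hUdef
  have hUA : U ⊆ A := filter_subset _ _
  have hUcard : P * a0 * s ^ 2 / 2 ≤ (U.card : ℝ) := by
    refine le_trans ?_ hU1
    rw [← hp, ← hP]
    have := mul_le_mul_of_nonneg_left hAj hP0.le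
    linarith
  set X := S.filter (fun x => χ x = 0) with hX
  have hXcard : (X.card : ℝ) ≤ r := le_trans hU5 c2
  have hUX : ∀ v ∈ U, RR E v S ⊆ X := by
    intro v hv x hx
    rw [hUdef, surv, mem_filter] at hv
    rw [hX, mem_filter]
    exact ⟨(mem_RR.1 hx).1, hv.2 x hx⟩
  -- Markov
  set D2 : ℝ := 512 * C * P * s / a0 with hD2
  set D3 : ℝ := 512 * P ^ 2 * s ^ 2 / a0 with hD3
  set D4 : ℝ := 512 * P * s ^ 2 / a0 with hD4
  have hD2p : 0 < D2 := by positivity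
  have hD3p : 0 < D3 := by positivity
  have hD4p : 0 < D4 := by positivity
  have hmk := markov3 U (fun u => ∑ v ∈ U, f2 E S u v) (fun u => ∑ v ∈ U, ∑ z ∈ U, f3 E u v z)
    (fun u => ∑ v ∈ U, (cd E u v : ℝ))
    (fun u => sum_nonneg fun v _ => f2_nonneg S u v)
    (fun u => sum_nonneg fun v _ => sum_nonneg fun z _ => f3_nonneg u v z)
    (fun u => sum_nonneg fun v _ => Nat.cast_nonneg _) hD2p hD3p hD4p hU2 hU3 hU4
  set U0 := U.filter (fun u => ∑ v ∈ U, f2 E S u v ≤ D2 ∧ ∑ v ∈ U, ∑ z ∈ U, f3 E u v z ≤ D3 ∧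
    ∑ v ∈ U, (cd E u v : ℝ) ≤ D4) with hU0
  have hU0U : U0 ⊆ U := filter_subset _ _
  have q2 : 8 * (8 * C * P ^ 2 * s ^ 3) / D2 = P * a0 * s ^ 2 / 8 := by
    rw [hD2]; field_simp; norm_num
  have q3 : 8 * (8 * P ^ 3 * s ^ 4) / D3 = P * a0 * s ^ 2 / 8 := by
    rw [hD3]; field_simp; norm_num
  have q4 : 8 * (8 * P ^ 2 * s ^ 4) / D4 = P * a0 * s ^ 2 / 8 := by
    rw [hD4]; field_simp; norm_num
  rw [q2, q3, q4] at hmk
  have hU0card : P * a0 * s ^ 2 / 8 ≤ (U0.card : ℝ) := by linarith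
  have hni := num_ineq (m := 4 * r) hP0 hs hC ha0 ha1 (by positivity) c3
    (le_trans c4 (by gcongr))
  obtain ⟨L, hL, hLcard⟩ := greedy (U := U) (U0 := U0) (inter hE S) hU0U (t3 := P * s) (t4 := s)
    (by positivity) hs (D2 := D2) (D3 := D3) (D4 := D4) (N0 := P * a0 * s ^ 2 / 16)
    (by positivity) hD2p.le hD3p.le hD4p.le
    (fun u hu => (mem_filter.1 hu).2.1) (fun u hu => (mem_filter.1 hu).2.2.1)
    (fun u hu => (mem_filter.1 hu).2.2.2) (4 * r) (by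
      push_cast
      linarith) (4 * r) le_rfl
  refine ⟨X, filter_subset _ _, hXcard, L, ?_, ?_⟩
  · refine le_trans ?_ hLcard
    apply pow_le_pow_left₀ (by positivity)
    gcongr
  · intro f hf
    exact add_seq hE hS hAsub hU0U hUA hUX (hL f hf)

end Pool.Agent.MP_99d303_co
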