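import Pool.Agent.MP_99d303_co.Gibbs

set_option autoImplicit false
set_option linter.unusedSectionVars false

open Finset

namespace Pool.Agent.MP_99d303_co

variable {V : Type*} [Fintype V] [DecidableEq V]
variable {E : V → V → V → Prop} {β τ : ℝ}

theorem card_maps (m : ℕ) (S : Finset V) :
    ∑ f : Fin m → V, (if ∀ i, f i ∈ S then (1 : ℝ) else 0) = (S.card : ℝ) ^ m := by
  classical
  rw [← sum_filter, sum_const, nsmul_eq_mul, mul_one]
  have : (univ.filter (fun f : Fin m → V => ∀ i, f i ∈ S)) = Fintype.piFinset (fun _ => S) := by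
    ext f; simp
  rw [this, Fintype.card_piFinset]
  simp

/-- one term of the comparison -/
theorem wt_compare (hβ : 0 < β) (hτ : 0 ≤ τ) {S X : Finset V} {m : ℕ} {c : ℝ} {f : Fin m → V}
    (hX : X ⊆ S) (hinj : Function.Injective f) (hfS : ∀ i, f i ∉ S)
    (hG : GG E ((S \ X) ∪ univ.image f) ≤ GG E (S \ X) + c) :
    wt E β τ S * β ^ m ≤ Real.exp (τ * c) * (wt E β τ ((S \ X) ∪ univ.image f) * β ^ X.card) := by
  classical
  have hdisj : Disjoint (S \ X) (univ.image f) := by
    rw [disjoint_left]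
    intro y hy hy'
    rw [mem_image] at hy'
    obtain ⟨i, -, rfl⟩ := hy'
    exact hfS i (mem_sdiff.1 hy).1
  have hcard : ((S \ X) ∪ univ.image f).card + X.card = S.card + m := by
    rw [card_union_of_disjoint hdisj, card_image_of_injective _ hinj, card_univ, Fintype.card_fin,
      card_sdiff_of_subset hX]
    have := card_le_card hX
    omega
  unfold wt
  have e1 : β ^ S.card * Real.exp (-(τ * GG E S)) * β ^ m
      = β ^ (S.card + m) * Real.exp (-(τ * GG E S)) := by rw [pow_add]; ring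
  have e2 : Real.exp (τ * c) * (β ^ ((S \ X) ∪ univ.image f).card *
        Real.exp (-(τ * GG E ((S \ X) ∪ univ.image f))) * β ^ X.card)
      = β ^ (S.card + m) * (Real.exp (τ * c) *
        Real.exp (-(τ * GG E ((S \ X) ∪ univ.image f)))) := by
    rw [← hcard, pow_add]; ring
  rw [e1, e2, ← Real.exp_add]
  apply mul_le_mul_of_nonneg_left _ (by positivity)
  apply Real.exp_le_exp.2
  have h1 : GG E (S \ X) ≤ GG E S := GG_mono sdiff_subset
  have h2 : τ * GG E ((S \ X) ∪ univ.image f) ≤ τ * (GG E S + c) :=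
    mul_le_mul_of_nonneg_left (by linarith) hτ
  linarith

/-- the double counting -/
theorem count (hβ : 0 < β) (hτ : 0 ≤ τ) {B c N0 : ℝ} {m r : ℕ}
    (hB : ∀ S ∈ II E, (S.card : ℝ) ≤ B) (G : Finset (Finset V))
    (hG : ∀ S ∈ G, ∃ X ⊆ S, (X.card : ℝ) ≤ r ∧ ∃ L : Finset (Fin m → V),
      N0 ^ m ≤ (L.card : ℝ) ∧
      ∀ f ∈ L, Function.Injective f ∧ (∀ i, f i ∉ S) ∧ Ind E ((S \ X) ∪ univ.image f) ∧
        GG E ((S \ X) ∪ univ.image f) ≤ GG E (S \ X) + c) :
    (∑ S ∈ G, wt E β τ S) * N0 ^ m * β ^ m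
      ≤ Real.exp (τ * c) * B ^ m *
        (∑ X ∈ univ.filter (fun X : Finset V => (X.card : ℝ) ≤ r), β ^ X.card) * ZZ E β τ := by
  classical
  choose! X hXS hXr L hLN hL using hG
  -- target weights
  let h : (Finset V × Finset V) × (Fin m → V) → ℝ := fun t =>
    Real.exp (τ * c) * (wt E β τ t.1.1 * β ^ t.1.2.card) * (if ∀ i, t.2 i ∈ t.1.1 then (1 : ℝ) else 0)
  have hh : ∀ t, 0 ≤ h t := by
    intro t
    simp only [h]
    apply mul_nonneg
    · exact mul_nonneg (Real.exp_pos _).le (mul_nonneg (wt_nonneg hβ _) (by positivity))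
    · split_ifs <;> norm_num
  let Φ : (Σ _S : Finset V, (Fin m → V)) → (Finset V × Finset V) × (Fin m → V) := fun t =>
    (((t.1 \ X t.1) ∪ univ.image t.2, X t.1), t.2)
  set D := G.sigma (fun S => L S) with hD
  have hD' : ∀ t ∈ D, t.1 ∈ G ∧ t.2 ∈ L t.1 := by
    intro t ht
    rw [hD, mem_sigma] at ht
    exact ht
  have hinj : Set.InjOn Φ D := by
    rintro ⟨S, f⟩ hS ⟨S', f'⟩ hS' heq
    have hS1 := hD' _ hS
    have hS1' := hD' _ hS'
    simp only at hS1 hS1'
    simp only [Φ, Prod.mk.injEq] at heq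
    obtain ⟨⟨h1, h2⟩, h3⟩ := heq
    subst h3
    have hrec : ∀ T, T ∈ G → f ∈ L T → (((T \ X T) ∪ univ.image f) \ univ.image f) ∪ X T = T := by
      intro T hT hf
      obtain ⟨-, hfT, -, -⟩ := hL T hT f hf
      ext y
      simp only [mem_union, mem_sdiff, mem_image, mem_univ, true_and]
      constructor
      · rintro (⟨h4 | h4, h5⟩ | h4)
        · exact h4.1
        · exact absurd h4 h5
        · exact hXS T hT h4
      · intro hy
        by_cases hyX : y ∈ X T
        · exact Or.inr hyX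
        · left
          refine ⟨Or.inl ⟨hy, hyX⟩, ?_⟩
          rintro ⟨i, rfl⟩
          exact hfT i hy
    have r1 := hrec S hS1.1 hS1.2
    have r2 := hrec S' hS1'.1 hS1'.2
    rw [h1, h2] at r1
    rw [← r1, r2]
  have hle : ∀ t ∈ D, wt E β τ t.1 * β ^ m ≤ h (Φ t) := by
    intro t ht
    obtain ⟨hS, hf⟩ := hD' t ht
    obtain ⟨g1, g2, g3, g4⟩ := hL _ hS _ hf
    have := wt_compare (β := β) (τ := τ) hβ hτ (hXS _ hS) g1 g2 g4
    simp only [h, Φ]
    rw [if_pos, mul_one]
    · exact this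
    · intro i
      exact mem_union_right _ (mem_image_of_mem _ (mem_univ i))
  set F := univ.filter (fun X : Finset V => (X.card : ℝ) ≤ r) with hF
  have hsub : D.image Φ ⊆ ((II E) ×ˢ F) ×ˢ (univ : Finset (Fin m → V)) := by
    intro t ht
    rw [mem_image] at ht
    obtain ⟨u, hu, rfl⟩ := ht
    obtain ⟨hS, hf⟩ := hD' u hu
    obtain ⟨g1, g2, g3, g4⟩ := hL _ hS _ hf
    rw [mem_product, mem_product]
    refine ⟨⟨mem_II.2 g3, ?_⟩, mem_univ _⟩
    rw [hF, mem_filter]
    exact ⟨mem_univ _, hXr _ hS⟩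
  calc (∑ S ∈ G, wt E β τ S) * N0 ^ m * β ^ m
      = ∑ S ∈ G, N0 ^ m * (wt E β τ S * β ^ m) := by
        rw [sum_mul, sum_mul]
        apply sum_congr rfl; intro S _; ring
    _ ≤ ∑ S ∈ G, ((L S).card : ℝ) * (wt E β τ S * β ^ m) := by
        apply sum_le_sum; intro S hS
        exact mul_le_mul_of_nonneg_right (hLN S hS) (mul_nonneg (wt_nonneg hβ _) (by positivity))
    _ = ∑ t ∈ D, wt E β τ t.1 * β ^ m := by
        rw [hD, sum_sigma]
        apply sum_congr rfl; intro S _
        simp only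
        rw [sum_const, nsmul_eq_mul]
    _ ≤ ∑ t ∈ D, h (Φ t) := sum_le_sum hle
    _ = ∑ t ∈ D.image Φ, h t := by rw [sum_image hinj]
    _ ≤ ∑ t ∈ ((II E) ×ˢ F) ×ˢ (univ : Finset (Fin m → V)), h t :=
        sum_le_sum_of_subset_of_nonneg hsub fun t _ _ => hh t
    _ = ∑ S' ∈ II E, ∑ Y ∈ F, Real.exp (τ * c) * (wt E β τ S' * β ^ Y.card) * (S'.card : ℝ) ^ m := by
        rw [sum_product, sum_product]
        apply sum_congr rfl; intro S' _
        apply sum_congr rfl; intro Y _
        simp only [h]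
        rw [← mul_sum, card_maps]
    _ ≤ ∑ S' ∈ II E, ∑ Y ∈ F, Real.exp (τ * c) * (wt E β τ S' * β ^ Y.card) * B ^ m := by
        apply sum_le_sum; intro S' hS'
        apply sum_le_sum; intro Y _
        apply mul_le_mul_of_nonneg_left
        · exact pow_le_pow_left₀ (Nat.cast_nonneg _) (hB S' hS') m
        · exact mul_nonneg (Real.exp_pos _).le (mul_nonneg (wt_nonneg hβ _) (by positivity))
    _ = _ := by
        rw [ZZ]
        simp_rw [mul_sum, sum_mul]
        apply sum_congr rfl; intro S' _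
        apply sum_congr rfl; intro Y _
        ring

end Pool.Agent.MP_99d303_co
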