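import Pool.Agent.MP_99d303_co.Balance

set_option autoImplicit false
set_option linter.unusedSectionVars false

open Finset

namespace Pool.Agent.MP_99d303_co

variable {V : Type*} [Fintype V] [DecidableEq V]
variable {E : V → V → V → Prop} {β τ : ℝ}

theorem mu_eq' (A : Finset V) :
    mu E β τ A = ∑ S ∈ II E, wt E β τ S * (if A ⊆ S then (1 : ℝ) else 0) := by
  unfold mu
  apply sum_congr rfl
  intro S _
  split_ifs <;> simp

open scoped Classical in
theorem e_bound (hβ : 0 < β) (hτ : 0 ≤ τ) (x b v u b' : V) :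
    ∑ S ∈ II E, wt E β τ S * (if x ∈ S ∧ b ∈ S ∧ u ∉ S ∧ b' ∈ S ∧ LLr E v x b ∧ LLr E v u b' then
      Real.exp (-(2 * τ * cd E u b')) * (if ∃ y ∈ S, E u x y then (1 : ℝ) else 0)
        + min 1 (2 * τ * cd E u x) else 0)
    ≤ (if LLr E v x b ∧ LLr E v u b' ∧ (b' = x ∨ b' = b) then 2 else 0) * mu E β τ {x, b}
    + (if LLr E v x b ∧ LLr E v u b' ∧ b' ≠ x ∧ b' ≠ b then 2 * τ * cd E u x else 0)
        * mu E β τ {b', x, b}
    + (if LLr E v x b ∧ LLr E v u b' ∧ b' ≠ x ∧ b' ≠ b ∧ E u x b then 1 else 0)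
        * mu E β τ {b', x, b}
    + (if LLr E v x b ∧ LLr E v u b' ∧ b' ≠ x ∧ b' ≠ b ∧ E u x b' then
        Real.exp (-(2 * τ * cd E u b')) else 0) * mu E β τ {b, x, b'}
    + ∑ y, (if LLr E v x b ∧ LLr E v u b' ∧ b' ≠ x ∧ b' ≠ b ∧ E u x y ∧ y ≠ b ∧ y ≠ b' then 1 else 0)
        * mu E β τ (insert y {b', x, b}) := by
  have hexp : Real.exp (-(2 * τ * (cd E u b' : ℝ))) ≤ 1 := by
    rw [Real.exp_le_one_iff]
    have : 0 ≤ 2 * τ * (cd E u b' : ℝ) := by positivity
    linarith
  have hexp0 := Real.exp_pos (-(2 * τ * (cd E u b' : ℝ)))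
  have hmin1 : min 1 (2 * τ * (cd E u x : ℝ)) ≤ 1 := min_le_left _ _
  have hmin2 : min 1 (2 * τ * (cd E u x : ℝ)) ≤ 2 * τ * (cd E u x : ℝ) := min_le_right _ _
  have hcd0 : 0 ≤ 2 * τ * (cd E u x : ℝ) := by positivity
  simp_rw [mu_eq', mul_sum]
  rw [sum_comm (s := univ) (t := II E), ← sum_add_distrib, ← sum_add_distrib, ← sum_add_distrib,
    ← sum_add_distrib]
  apply sum_le_sum
  intro S _
  have hw := wt_nonneg (E := E) (τ := τ) hβ S
  have e5 : ∑ y, (if LLr E v x b ∧ LLr E v u b' ∧ b' ≠ x ∧ b' ≠ b ∧ E u x y ∧ y ≠ b ∧ y ≠ b' then (1 : ℝ) else 0)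
        * (wt E β τ S * (if insert y {b', x, b} ⊆ S then (1 : ℝ) else 0))
      = wt E β τ S * ∑ y, (if LLr E v x b ∧ LLr E v u b' ∧ b' ≠ x ∧ b' ≠ b ∧ E u x y ∧ y ≠ b ∧ y ≠ b' then (1 : ℝ) else 0)
        * (if insert y {b', x, b} ⊆ S then (1 : ℝ) else 0) := by
    rw [mul_sum]
    apply sum_congr rfl; intro y _; ring
  rw [e5]
  have n5 : (0 : ℝ) ≤ ∑ y, (if LLr E v x b ∧ LLr E v u b' ∧ b' ≠ x ∧ b' ≠ b ∧ E u x y ∧ y ≠ b ∧ y ≠ b' then (1 : ℝ) else 0)
        * (if insert y {b', x, b} ⊆ S then (1 : ℝ) else 0) := by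
    apply sum_nonneg; intro y _
    split_ifs <;> norm_num
  suffices h : (if x ∈ S ∧ b ∈ S ∧ u ∉ S ∧ b' ∈ S ∧ LLr E v x b ∧ LLr E v u b' then
      Real.exp (-(2 * τ * cd E u b')) * (if ∃ y ∈ S, E u x y then (1 : ℝ) else 0)
        + min 1 (2 * τ * cd E u x) else 0)
      ≤ (if LLr E v x b ∧ LLr E v u b' ∧ (b' = x ∨ b' = b) then 2 else 0) *
          (if ({x, b} : Finset V) ⊆ S then (1 : ℝ) else 0)
      + (if LLr E v x b ∧ LLr E v u b' ∧ b' ≠ x ∧ b' ≠ b then 2 * τ * cd E u x else 0)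
        * (if ({b', x, b} : Finset V) ⊆ S then (1 : ℝ) else 0)
      + (if LLr E v x b ∧ LLr E v u b' ∧ b' ≠ x ∧ b' ≠ b ∧ E u x b then 1 else 0)
        * (if ({b', x, b} : Finset V) ⊆ S then (1 : ℝ) else 0)
      + (if LLr E v x b ∧ LLr E v u b' ∧ b' ≠ x ∧ b' ≠ b ∧ E u x b' then
        Real.exp (-(2 * τ * cd E u b')) else 0) * (if ({b, x, b'} : Finset V) ⊆ S then (1 : ℝ) else 0)
      + ∑ y, (if LLr E v x b ∧ LLr E v u b' ∧ b' ≠ x ∧ b' ≠ b ∧ E u x y ∧ y ≠ b ∧ y ≠ b' then (1 : ℝ) else 0)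
        * (if insert y {b', x, b} ⊆ S then (1 : ℝ) else 0) by
    have := mul_le_mul_of_nonneg_left h hw
    linarith
  have m1 : (0 : ℝ) ≤ (if LLr E v x b ∧ LLr E v u b' ∧ (b' = x ∨ b' = b) then 2 else 0) *
          (if ({x, b} : Finset V) ⊆ S then (1 : ℝ) else 0) := by
    split_ifs <;> norm_num
  have m2 : (0 : ℝ) ≤ (if LLr E v x b ∧ LLr E v u b' ∧ b' ≠ x ∧ b' ≠ b then 2 * τ * cd E u x else 0)
        * (if ({b', x, b} : Finset V) ⊆ S then (1 : ℝ) else 0) := by
    split_ifs <;> simp [hcd0]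
  have m3 : (0 : ℝ) ≤ (if LLr E v x b ∧ LLr E v u b' ∧ b' ≠ x ∧ b' ≠ b ∧ E u x b then 1 else 0)
        * (if ({b', x, b} : Finset V) ⊆ S then (1 : ℝ) else 0) := by
    split_ifs <;> norm_num
  have m4 : (0 : ℝ) ≤ (if LLr E v x b ∧ LLr E v u b' ∧ b' ≠ x ∧ b' ≠ b ∧ E u x b' then
        Real.exp (-(2 * τ * cd E u b')) else 0) * (if ({b, x, b'} : Finset V) ⊆ S then (1 : ℝ) else 0) := by
    split_ifs <;> simp [hexp0.le]
  by_cases hc : x ∈ S ∧ b ∈ S ∧ u ∉ S ∧ b' ∈ S ∧ LLr E v x b ∧ LLr E v u b'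
  swap
  · rw [if_neg hc]; linarith
  rw [if_pos hc]
  obtain ⟨hx, hb, hu, hb', hL1, hL2⟩ := hc
  have s2 : ({x, b} : Finset V) ⊆ S := by
    rw [insert_subset_iff, singleton_subset_iff]; exact ⟨hx, hb⟩
  have s3 : ({b', x, b} : Finset V) ⊆ S := by
    rw [insert_subset_iff]; exact ⟨hb', s2⟩
  have s4 : ({b, x, b'} : Finset V) ⊆ S := by
    rw [insert_subset_iff, insert_subset_iff, singleton_subset_iff]; exact ⟨hb, hx, hb'⟩
  by_cases hdeg : b' = x ∨ b' = b
  · have t1 : (if LLr E v x b ∧ LLr E v u b' ∧ (b' = x ∨ b' = b) then (2 : ℝ) else 0) *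
          (if ({x, b} : Finset V) ⊆ S then (1 : ℝ) else 0) = 2 := by
      rw [if_pos ⟨hL1, hL2, hdeg⟩, if_pos s2]; norm_num
    have t2 : Real.exp (-(2 * τ * cd E u b')) * (if ∃ y ∈ S, E u x y then (1 : ℝ) else 0) ≤ 1 := by
      split_ifs
      · linarith
      · linarith
    linarith
  · push Not at hdeg
    have t2 : (if LLr E v x b ∧ LLr E v u b' ∧ b' ≠ x ∧ b' ≠ b then 2 * τ * cd E u x else 0)
        * (if ({b', x, b} : Finset V) ⊆ S then (1 : ℝ) else 0) = 2 * τ * cd E u x := by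
      rw [if_pos ⟨hL1, hL2, hdeg⟩, if_pos s3, mul_one]
    by_cases hex : ∃ y ∈ S, E u x y
    swap
    · rw [if_neg hex, mul_zero]; linarith
    rw [if_pos hex, mul_one]
    obtain ⟨y, hy, hxy⟩ := hex
    by_cases hyb : y = b
    · subst hyb
      have t3 : (if LLr E v x y ∧ LLr E v u b' ∧ b' ≠ x ∧ b' ≠ y ∧ E u x y then (1 : ℝ) else 0)
        * (if ({b', x, y} : Finset V) ⊆ S then (1 : ℝ) else 0) = 1 := by
        rw [if_pos ⟨hL1, hL2, hdeg.1, hdeg.2, hxy⟩, if_pos s3, mul_one]
      linarith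
    by_cases hyb' : y = b'
    · subst hyb'
      have t4 : (if LLr E v x b ∧ LLr E v u y ∧ y ≠ x ∧ y ≠ b ∧ E u x y then
        Real.exp (-(2 * τ * cd E u y)) else 0) * (if ({b, x, y} : Finset V) ⊆ S then (1 : ℝ) else 0)
        = Real.exp (-(2 * τ * cd E u y)) := by
        rw [if_pos ⟨hL1, hL2, hdeg.1, hdeg.2, hxy⟩, if_pos s4, mul_one]
      linarith
    have t5 := single_le_sum (f := fun y => (if LLr E v x b ∧ LLr E v u b' ∧ b' ≠ x ∧ b' ≠ b ∧ E u x y ∧ y ≠ b ∧ y ≠ b' then (1 : ℝ) else 0)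
        * (if insert y {b', x, b} ⊆ S then (1 : ℝ) else 0))
        (fun y _ => by split_ifs <;> norm_num) (mem_univ y)
    rw [if_pos ⟨hL1, hL2, hdeg.1, hdeg.2, hxy, hyb, hyb'⟩, if_pos (insert_subset hy s3), mul_one] at t5
    linarith

theorem card_LL_snd {v u : V} {P : V → Prop} [DecidablePred P] (hP : ∀ z, P z → LLr E v u z) :
    ∑ b', (if P b' then (1 : ℝ) else 0) ≤ 2 := by
  by_cases h : cd E v u ≤ 2
  · calc ∑ b', (if P b' then (1 : ℝ) else 0) ≤ cd E v u := sum_E_le fun z hz => (hP z hz).1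
      _ ≤ 2 := by exact_mod_cast h
  · have : ∑ b', (if P b' then (1 : ℝ) else 0) = 0 := by
      apply sum_eq_zero
      intro b' _
      rw [if_neg]
      intro hc
      exact h (hP b' hc).2.1
    rw [this]; norm_num

theorem card_LL_fst (hE : Good E) {v b' : V} {P : V → Prop} [DecidablePred P]
    (hP : ∀ z, P z → LLr E v z b') :
    ∑ u, (if P u then (1 : ℝ) else 0) ≤ 2 :=
  card_LL_snd (E := E) (v := v) (u := b') fun z hz => (hP z hz).symm hE

theorem sum_LL_v (hE : Good E) {x b : V} {P : V → Prop} [DecidablePred P]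
    (hP : ∀ v, P v → LLr E v x b) :
    ∑ v, (if P v then (1 : ℝ) else 0) ≤ cd E x b :=
  sum_E_le fun z hz => hE.rot (hP z hz).1

open scoped Classical in
theorem S1 (hE : Good E) (hβ : 0 < β) (x b : V) :
    ∑ v, ∑ u, ∑ b', (if LLr E v x b ∧ LLr E v u b' ∧ (b' = x ∨ b' = b) then (2 : ℝ) else 0)
      * mu E β τ {x, b} ≤ 8 * ((cd E x b : ℝ) * mu E β τ {x, b}) := by
  have hm := mu_nonneg (E := E) (τ := τ) hβ ({x, b} : Finset V)
  have inner : ∀ v, ∑ u, ∑ b', (if LLr E v x b ∧ LLr E v u b' ∧ (b' = x ∨ b' = b) then (2 : ℝ) else 0)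
      * mu E β τ {x, b} ≤ (if LLr E v x b ∧ True then (1 : ℝ) else 0) * (8 * mu E β τ {x, b}) := by
    intro v
    by_cases hv : LLr E v x b
    · have h1 : ∀ u, ∑ b', (if LLr E v x b ∧ LLr E v u b' ∧ (b' = x ∨ b' = b) then (2 : ℝ) else 0)
          * mu E β τ {x, b} ≤ ((if LLr E v u x ∧ True then (1 : ℝ) else 0)
            + (if LLr E v u b ∧ True then (1 : ℝ) else 0)) * (2 * mu E β τ {x, b}) := by
        intro u
        rw [← sum_mul]
        have h2 : ∑ b', (if LLr E v x b ∧ LLr E v u b' ∧ (b' = x ∨ b' = b) then (2 : ℝ) else 0)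
            ≤ ∑ b', ((if b' = x then (if LLr E v u x then (2 : ℝ) else 0) else 0)
              + (if b' = b then (if LLr E v u b then (2 : ℝ) else 0) else 0)) := by
          apply sum_le_sum
          intro b' _
          by_cases hb'x : b' = x
          · subst hb'x
            simp only [hv, true_and, true_or, and_true, if_true]
            have : (0 : ℝ) ≤ (if b' = b then (if LLr E v u b then (2 : ℝ) else 0) else 0) := by
              split_ifs <;> norm_num
            linarith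
          · by_cases hb'b : b' = b
            · subst hb'b
              simp [hb'x, hv]
            · simp [hb'x, hb'b]
        rw [sum_add_distrib, sum_ite_eq' univ x, sum_ite_eq' univ b] at h2
        simp only [mem_univ, if_true] at h2
        calc _ ≤ ((if LLr E v u x then (2 : ℝ) else 0) + (if LLr E v u b then (2 : ℝ) else 0))
              * mu E β τ {x, b} := mul_le_mul_of_nonneg_right h2 hm
          _ = _ := by
            simp only [and_true]
            split_ifs <;> ring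
      simp only [hv, and_true, if_true, one_mul]
      simp only [hv, true_and] at h1
      calc ∑ u, ∑ b', (if True ∧ LLr E v u b' ∧ (b' = x ∨ b' = b) then (2 : ℝ) else 0)
          * mu E β τ {x, b}
          ≤ ∑ u, ((if LLr E v u x ∧ True then (1 : ℝ) else 0)
            + (if LLr E v u b ∧ True then (1 : ℝ) else 0)) * (2 * mu E β τ {x, b}) := by
            apply sum_le_sum; intro u _
            simpa using h1 u
        _ = (∑ u, (if LLr E v u x ∧ True then (1 : ℝ) else 0)
            + ∑ u, (if LLr E v u b ∧ True then (1 : ℝ) else 0)) * (2 * mu E β τ {x, b}) := by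
            rw [← sum_mul, sum_add_distrib]
        _ ≤ (2 + 2) * (2 * mu E β τ {x, b}) := by
            apply mul_le_mul_of_nonneg_right _ (mul_nonneg (by norm_num) hm)
            exact add_le_add (card_LL_fst hE (fun z hz => hz.1)) (card_LL_fst hE (fun z hz => hz.1))
        _ = _ := by ring
    · simp [hv]
  calc _ ≤ ∑ v, (if LLr E v x b ∧ True then (1 : ℝ) else 0) * (8 * mu E β τ {x, b}) :=
        sum_le_sum fun v _ => inner v
    _ = (∑ v, (if LLr E v x b ∧ True then (1 : ℝ) else 0)) * (8 * mu E β τ {x, b}) := by rw [sum_mul]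
    _ ≤ (cd E x b : ℝ) * (8 * mu E β τ {x, b}) := by
        apply mul_le_mul_of_nonneg_right (sum_LL_v hE (fun z hz => hz.1)) (by positivity)
    _ = _ := by ring

/-- summing out the last variable `b'` -/
theorem last_b' (hE : Good E) (hβ : 0 < β) (hτ : 0 ≤ τ) (A : Finset V) {v u : V} {P : V → Prop}
    [DecidablePred P] (hP : ∀ z, P z → LLr E v u z) (hQ : ∀ y, P y → y ∉ A) :
    ∑ b', (if P b' then mu E β τ (insert b' A) else 0) ≤ 2 * β * mu E β τ A :=
  sum_mu_last hE hβ hτ A P (card_LL_snd hP) hQ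

open scoped Classical in
theorem S2 (hE : Good E) (hβ : 0 < β) (hτ : 0 ≤ τ) (x b : V) :
    ∑ v, ∑ u, ∑ b', (if LLr E v x b ∧ LLr E v u b' ∧ b' ≠ x ∧ b' ≠ b then 2 * τ * cd E u x else 0)
      * mu E β τ {b', x, b}
      ≤ 16 * β * τ * Fintype.card V * ((cd E x b : ℝ) * mu E β τ {x, b}) := by
  have hm := mu_nonneg (E := E) (τ := τ) hβ ({x, b} : Finset V)
  have inner : ∀ v, ∑ u, ∑ b', (if LLr E v x b ∧ LLr E v u b' ∧ b' ≠ x ∧ b' ≠ b then 2 * τ * cd E u x else 0)
      * mu E β τ {b', x, b} ≤ (if LLr E v x b ∧ True then (1 : ℝ) else 0) *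
        (16 * β * τ * Fintype.card V * mu E β τ {x, b}) := by
    intro v
    by_cases hv : LLr E v x b
    · have h1 : ∀ u, ∑ b', (if LLr E v x b ∧ LLr E v u b' ∧ b' ≠ x ∧ b' ≠ b then 2 * τ * cd E u x else 0)
          * mu E β τ {b', x, b} ≤ (cd E u x : ℝ) * (2 * τ * (2 * β * mu E β τ {x, b})) := by
        intro u
        have h2 := last_b' (E := E) hE hβ hτ ({x, b} : Finset V) (v := v) (u := u)
          (P := fun b' => LLr E v u b' ∧ b' ≠ x ∧ b' ≠ b) (fun z hz => hz.1)
          (fun y hy => by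
            rw [mem_insert, mem_singleton, not_or]; exact hy.2)
        calc _ = 2 * τ * cd E u x * ∑ b', (if LLr E v u b' ∧ b' ≠ x ∧ b' ≠ b then
                mu E β τ (insert b' {x, b}) else 0) := by
              rw [mul_sum]
              apply sum_congr rfl
              intro b' _
              simp only [hv, true_and]
              split_ifs <;> ring
          _ ≤ 2 * τ * cd E u x * (2 * β * mu E β τ {x, b}) := by
              apply mul_le_mul_of_nonneg_left h2; positivity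
          _ = _ := by ring
      simp only [hv, and_true, if_true, one_mul]
      simp only [hv, true_and] at h1
      calc _ ≤ ∑ u, (cd E u x : ℝ) * (2 * τ * (2 * β * mu E β τ {x, b})) := by
            apply sum_le_sum; intro u _
            simpa using h1 u
        _ = (∑ u, (cd E u x : ℝ)) * (2 * τ * (2 * β * mu E β τ {x, b})) := by rw [sum_mul]
        _ ≤ (4 * Fintype.card V) * (2 * τ * (2 * β * mu E β τ {x, b})) := by
            apply mul_le_mul_of_nonneg_right (hE.sum_cd_le' x)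
            positivity
        _ = _ := by ring
    · simp [hv]
  have hnn : 0 ≤ 16 * β * τ * (Fintype.card V : ℝ) * mu E β τ {x, b} := by positivity
  calc _ ≤ ∑ v, (if LLr E v x b ∧ True then (1 : ℝ) else 0) *
        (16 * β * τ * Fintype.card V * mu E β τ {x, b}) := sum_le_sum fun v _ => inner v
    _ = (∑ v, (if LLr E v x b ∧ True then (1 : ℝ) else 0)) *
        (16 * β * τ * Fintype.card V * mu E β τ {x, b}) := by rw [sum_mul]
    _ ≤ (cd E x b : ℝ) * (16 * β * τ * Fintype.card V * mu E β τ {x, b}) :=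
        mul_le_mul_of_nonneg_right (sum_LL_v hE (fun z hz => hz.1)) hnn
    _ = _ := by ring

open scoped Classical in
theorem S3 (hE : Good E) (hβ : 0 < β) (hτ : 0 ≤ τ) (x b : V) :
    ∑ v, ∑ u, ∑ b', (if LLr E v x b ∧ LLr E v u b' ∧ b' ≠ x ∧ b' ≠ b ∧ E u x b then (1 : ℝ) else 0)
      * mu E β τ {b', x, b}
      ≤ 2 * β * ((cd E x b : ℝ) ^ 2 * mu E β τ {x, b}) := by
  have hm := mu_nonneg (E := E) (τ := τ) hβ ({x, b} : Finset V)
  have inner : ∀ v u, ∑ b', (if LLr E v x b ∧ LLr E v u b' ∧ b' ≠ x ∧ b' ≠ b ∧ E u x b then (1 : ℝ) else 0)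
      * mu E β τ {b', x, b} ≤ (if LLr E v x b ∧ True then (1 : ℝ) else 0) *
        ((if E u x b then (1 : ℝ) else 0) * (2 * β * mu E β τ {x, b})) := by
    intro v u
    by_cases hv : LLr E v x b
    · by_cases hu : E u x b
      · have h2 := last_b' (E := E) hE hβ hτ ({x, b} : Finset V) (v := v) (u := u)
          (P := fun b' => LLr E v u b' ∧ b' ≠ x ∧ b' ≠ b) (fun z hz => hz.1)
          (fun y hy => by
            rw [mem_insert, mem_singleton, not_or]; exact hy.2)
        simp only [hv, hu, and_true, true_and, if_true, one_mul]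
        refine le_trans (le_of_eq ?_) h2
        apply sum_congr rfl
        intro b' _
        split_ifs <;> simp
      · simp [hu]
    · simp [hv]
  have hnn : 0 ≤ 2 * β * mu E β τ {x, b} := by positivity
  calc _ ≤ ∑ v, ∑ u, (if LLr E v x b ∧ True then (1 : ℝ) else 0) *
        ((if E u x b then (1 : ℝ) else 0) * (2 * β * mu E β τ {x, b})) :=
        sum_le_sum fun v _ => sum_le_sum fun u _ => inner v u
    _ = (∑ v, (if LLr E v x b ∧ True then (1 : ℝ) else 0)) *
        ((∑ u, (if E u x b then (1 : ℝ) else 0)) * (2 * β * mu E β τ {x, b})) := by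
        rw [sum_mul, sum_mul]
        apply sum_congr rfl
        intro v _
        rw [mul_sum]
    _ ≤ (cd E x b : ℝ) * ((cd E x b : ℝ) * (2 * β * mu E β τ {x, b})) := by
        apply mul_le_mul (sum_LL_v hE (fun z hz => hz.1)) _ _ (Nat.cast_nonneg _)
        · apply mul_le_mul_of_nonneg_right _ hnn
          exact sum_E_le (P := fun u => E u x b) (fun z hz => hE.rot hz)
        · apply mul_nonneg _ hnn
          apply sum_nonneg; intro u _; split_ifs <;> norm_num
    _ = _ := by ring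

open scoped Classical in
theorem S4 (hE : Good E) (hβ : 0 < β) (hτ : 0 < τ) (x b' : V) :
    ∑ u, ∑ v, ∑ b, (if LLr E v x b ∧ LLr E v u b' ∧ b' ≠ x ∧ b' ≠ b ∧ E u x b' then
        Real.exp (-(2 * τ * cd E u b')) else 0) * mu E β τ {b, x, b'}
      ≤ β / τ * ((cd E x b' : ℝ) * mu E β τ {x, b'}) := by
  have hm := mu_nonneg (E := E) (τ := τ) hβ ({x, b'} : Finset V)
  have inner : ∀ u v, ∑ b, (if LLr E v x b ∧ LLr E v u b' ∧ b' ≠ x ∧ b' ≠ b ∧ E u x b' then
        Real.exp (-(2 * τ * cd E u b')) else 0) * mu E β τ {b, x, b'}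
      ≤ (if LLr E v u b' ∧ True then (1 : ℝ) else 0) *
        ((if E u x b' then (1 : ℝ) else 0) * (Real.exp (-(2 * τ * cd E u b')) *
          (2 * β * mu E β τ {x, b'}))) := by
    intro u v
    by_cases hv : LLr E v u b'
    · by_cases hu : E u x b'
      · have h2 := last_b' (E := E) hE hβ hτ.le ({x, b'} : Finset V) (v := v) (u := x)
          (P := fun b => LLr E v x b ∧ b ≠ x ∧ b ≠ b') (fun z hz => hz.1)
          (fun y hy => by
            rw [mem_insert, mem_singleton, not_or]; exact hy.2)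
        simp only [hv, hu, and_true, true_and, if_true, one_mul]
        calc _ ≤ Real.exp (-(2 * τ * cd E u b')) * ∑ b, (if LLr E v x b ∧ b ≠ x ∧ b ≠ b' then
              mu E β τ (insert b {x, b'}) else 0) := by
              rw [mul_sum]
              apply sum_le_sum
              intro b _
              by_cases hc : LLr E v x b ∧ b' ≠ x ∧ b' ≠ b
              · rw [if_pos hc, if_pos ⟨hc.1, fun h => hE.ne23 hc.1.1 h.symm, fun h => hc.2.2 h.symm⟩]
              · rw [if_neg hc, zero_mul]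
                have := mu_nonneg (E := E) (τ := τ) hβ (insert b ({x, b'} : Finset V))
                split_ifs <;> positivity
          _ ≤ _ := mul_le_mul_of_nonneg_left h2 (Real.exp_pos _).le
      · simp [hu]
    · simp [hv]
  have hnn : 0 ≤ 2 * β * mu E β τ {x, b'} := by positivity
  calc _ ≤ ∑ u, ∑ v, (if LLr E v u b' ∧ True then (1 : ℝ) else 0) *
        ((if E u x b' then (1 : ℝ) else 0) * (Real.exp (-(2 * τ * cd E u b')) *
          (2 * β * mu E β τ {x, b'}))) :=
        sum_le_sum fun v _ => sum_le_sum fun u _ => inner v u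
    _ = ∑ u, (∑ v, (if LLr E v u b' ∧ True then (1 : ℝ) else 0)) *
        ((if E u x b' then (1 : ℝ) else 0) * (Real.exp (-(2 * τ * cd E u b')) *
          (2 * β * mu E β τ {x, b'}))) := by
        apply sum_congr rfl
        intro u _
        rw [sum_mul]
    _ ≤ ∑ u, (if E u x b' then (1 : ℝ) else 0) * (1 / (2 * τ) * (2 * β * mu E β τ {x, b'})) := by
        apply sum_le_sum
        intro u _
        by_cases hu : E u x b'
        · simp only [hu, if_true, one_mul]
          rw [← mul_assoc]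
          apply mul_le_mul_of_nonneg_right _ hnn
          calc _ ≤ (cd E u b' : ℝ) * Real.exp (-(2 * τ * cd E u b')) :=
                mul_le_mul_of_nonneg_right (sum_LL_v hE (fun z hz => hz.1)) (Real.exp_pos _).le
            _ ≤ 1 / (2 * τ) := mul_exp_neg_le (by positivity)
        · simp [hu]
    _ = (∑ u, (if E u x b' then (1 : ℝ) else 0)) * (1 / (2 * τ) * (2 * β * mu E β τ {x, b'})) := by
        rw [sum_mul]
    _ ≤ (cd E x b' : ℝ) * (1 / (2 * τ) * (2 * β * mu E β τ {x, b'})) := by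
        apply mul_le_mul_of_nonneg_right _ (by positivity)
        exact sum_E_le (P := fun u => E u x b') (fun z hz => hE.rot hz)
    _ = _ := by field_simp

end Pool.Agent.MP_99d303_co
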