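import Pool.Agent.MP_99d303_co.ErrSum

set_option autoImplicit false
set_option linter.unusedSectionVars false

open Finset

namespace Pool.Agent.MP_99d303_co

variable {V : Type*} [Fintype V] [DecidableEq V]
variable {E : V → V → V → Prop} {β τ : ℝ}

/-- at most one `u` has `u x` heavy with third vertex `y` -/
theorem card_heavy_le (hE : Good E) {x y : V} {P : V → Prop} [DecidablePred P]
    (hP : ∀ u, P u → E u x y ∧ 3 ≤ cd E u x) :
    ∑ u, (if P u then (1 : ℝ) else 0) ≤ 1 := by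
  by_cases h : ∃ u, P u
  · obtain ⟨u, hu⟩ := h
    have h1 : cd E x y = 1 := hE.heavy' (hP u hu).2 (hP u hu).1
    have h2 : ∑ u, (if P u then (1 : ℝ) else 0) ≤ cd E x y :=
      sum_E_le fun z hz => hE.rot (hP z hz).1
    rw [h1] at h2
    simpa using h2
  · have : ∑ u, (if P u then (1 : ℝ) else 0) = 0 := by
      apply sum_eq_zero
      intro u _
      rw [if_neg]
      intro hu
      exact h ⟨u, hu⟩
    rw [this]; norm_num

open scoped Classical in
theorem S5 (hE : Good E) (hβ : 0 < β) (hτ : 0 ≤ τ) {B : ℝ}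
    (hB : ∀ S ∈ II E, (S.card : ℝ) ≤ B) (x b : V) :
    ∑ v, ∑ u, ∑ b', ∑ y, (if LLr E v x b ∧ LLr E v u b' ∧ b' ≠ x ∧ b' ≠ b ∧ E u x y ∧ y ≠ b ∧ y ≠ b'
      then (1 : ℝ) else 0) * mu E β τ (insert y {b', x, b})
      ≤ 6 * β * B * ((cd E x b : ℝ) * mu E β τ {x, b}) := by
  have hB0 : 0 ≤ B := by
    have := hB ∅ empty_mem_II
    simpa using this
  have hmu : ∀ A : Finset V, 0 ≤ mu E β τ A := fun A => mu_nonneg hβ A
  have hm := hmu {x, b}
  have hBm := sum_mu_insert (E := E) (τ := τ) hβ hB ({x, b} : Finset V)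
  -- for fixed v
  have inner : ∀ v, ∑ u, ∑ b', ∑ y, (if LLr E v x b ∧ LLr E v u b' ∧ b' ≠ x ∧ b' ≠ b ∧ E u x y ∧ y ≠ b ∧ y ≠ b'
      then (1 : ℝ) else 0) * mu E β τ (insert y {b', x, b})
      ≤ (if LLr E v x b then (1 : ℝ) else 0) * (6 * β * B * mu E β τ {x, b}) := by
    intro v
    by_cases hv : LLr E v x b
    swap
    · simp [hv]
    rw [if_pos hv, one_mul]
    have split : ∀ u b' y, (if LLr E v x b ∧ LLr E v u b' ∧ b' ≠ x ∧ b' ≠ b ∧ E u x y ∧ y ≠ b ∧ y ≠ b'
      then (1 : ℝ) else 0) * mu E β τ (insert y {b', x, b})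
      ≤ (if LLr E v u b' ∧ b' ≠ x ∧ b' ≠ b then (1 : ℝ) else 0) *
          (if E u x y ∧ cd E u x ≤ 2 ∧ y ≠ b ∧ y ≠ b' then mu E β τ (insert y {b', x, b}) else 0)
        + (if E u x y ∧ 3 ≤ cd E u x then (1 : ℝ) else 0) *
          (if LLr E v u b' ∧ b' ≠ x ∧ b' ≠ b ∧ b' ≠ y ∧ y ≠ b ∧ E u x y then mu E β τ (insert b' {y, x, b}) else 0) := by
      intro u b' y
      have n1 : (0 : ℝ) ≤ (if LLr E v u b' ∧ b' ≠ x ∧ b' ≠ b then (1 : ℝ) else 0) *
          (if E u x y ∧ cd E u x ≤ 2 ∧ y ≠ b ∧ y ≠ b' then mu E β τ (insert y {b', x, b}) else 0) := by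
        have := hmu (insert y {b', x, b})
        split_ifs <;> simp [this]
      have n2 : (0 : ℝ) ≤ (if E u x y ∧ 3 ≤ cd E u x then (1 : ℝ) else 0) *
          (if LLr E v u b' ∧ b' ≠ x ∧ b' ≠ b ∧ b' ≠ y ∧ y ≠ b ∧ E u x y then mu E β τ (insert b' {y, x, b}) else 0) := by
        have := hmu (insert b' {y, x, b})
        split_ifs <;> simp [this]
      by_cases hc : LLr E v x b ∧ LLr E v u b' ∧ b' ≠ x ∧ b' ≠ b ∧ E u x y ∧ y ≠ b ∧ y ≠ b'
      swap
      · rw [if_neg hc, zero_mul]; linarith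
      rw [if_pos hc, one_mul]
      obtain ⟨_, h1, h2, h3, h4, h5, h6⟩ := hc
      by_cases hl : cd E u x ≤ 2
      · rw [if_pos ⟨h1, h2, h3⟩, if_pos ⟨h4, hl, h5, h6⟩, one_mul]
        linarith
      · have hl' : 3 ≤ cd E u x := by omega
        have e : (if E u x y ∧ 3 ≤ cd E u x then (1 : ℝ) else 0) *
          (if LLr E v u b' ∧ b' ≠ x ∧ b' ≠ b ∧ b' ≠ y ∧ y ≠ b ∧ E u x y then mu E β τ (insert b' {y, x, b}) else 0)
          = mu E β τ (insert y {b', x, b}) := by
          rw [if_pos (⟨h4, hl'⟩ : E u x y ∧ 3 ≤ cd E u x),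
            if_pos (⟨h1, h2, h3, fun h => h6 h.symm, h5, h4⟩ : LLr E v u b' ∧ b' ≠ x ∧ b' ≠ b ∧ b' ≠ y ∧ y ≠ b ∧ E u x y),
            one_mul, show insert b' ({y, x, b} : Finset V) = insert y {b', x, b} from Finset.insert_comm _ _ _]
        rw [e]
        linarith
    -- light part
    have hlight : ∑ u, ∑ b', ∑ y, (if LLr E v u b' ∧ b' ≠ x ∧ b' ≠ b then (1 : ℝ) else 0) *
          (if E u x y ∧ cd E u x ≤ 2 ∧ y ≠ b ∧ y ≠ b' then mu E β τ (insert y {b', x, b}) else 0)
        ≤ 4 * β * B * mu E β τ {x, b} := by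
      have h1 : ∀ u b', ∑ y, (if LLr E v u b' ∧ b' ≠ x ∧ b' ≠ b then (1 : ℝ) else 0) *
          (if E u x y ∧ cd E u x ≤ 2 ∧ y ≠ b ∧ y ≠ b' then mu E β τ (insert y {b', x, b}) else 0)
          ≤ (if LLr E v u b' ∧ b' ≠ x ∧ b' ≠ b then (1 : ℝ) else 0) * (2 * β * mu E β τ {b', x, b}) := by
        intro u b'
        rw [← mul_sum]
        apply mul_le_mul_of_nonneg_left _ (by split_ifs <;> norm_num)
        apply sum_mu_last hE hβ hτ
        · by_cases hl : cd E u x ≤ 2
          · calc _ ≤ (cd E u x : ℝ) := sum_E_le fun z hz => hz.1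
              _ ≤ 2 := by exact_mod_cast hl
          · simp [hl]
        · intro y hy
          rw [mem_insert, mem_insert, mem_singleton]
          push Not
          exact ⟨hy.2.2.2, fun h => hE.ne23 hy.1 h.symm, hy.2.2.1⟩
      calc _ ≤ ∑ u, ∑ b', (if LLr E v u b' ∧ b' ≠ x ∧ b' ≠ b then (1 : ℝ) else 0) * (2 * β * mu E β τ {b', x, b}) :=
            sum_le_sum fun u _ => sum_le_sum fun b' _ => h1 u b'
        _ = ∑ b', (∑ u, (if LLr E v u b' ∧ b' ≠ x ∧ b' ≠ b then (1 : ℝ) else 0)) * (2 * β * mu E β τ {b', x, b}) := by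
            rw [sum_comm]
            apply sum_congr rfl
            intro b' _
            rw [sum_mul]
        _ ≤ ∑ b', 2 * (2 * β * mu E β τ {b', x, b}) := by
            apply sum_le_sum
            intro b' _
            apply mul_le_mul_of_nonneg_right _ (by have := hmu {b', x, b}; positivity)
            exact card_LL_fst hE (fun z hz => hz.1)
        _ = 4 * β * ∑ b', mu E β τ (insert b' {x, b}) := by
            rw [mul_sum]
            apply sum_congr rfl
            intro b' _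
            ring
        _ ≤ 4 * β * (B * mu E β τ {x, b}) := mul_le_mul_of_nonneg_left hBm (by positivity)
        _ = _ := by ring
    -- heavy part
    have hheavy : ∑ u, ∑ b', ∑ y, (if E u x y ∧ 3 ≤ cd E u x then (1 : ℝ) else 0) *
          (if LLr E v u b' ∧ b' ≠ x ∧ b' ≠ b ∧ b' ≠ y ∧ y ≠ b ∧ E u x y then mu E β τ (insert b' {y, x, b}) else 0)
        ≤ 2 * β * B * mu E β τ {x, b} := by
      have h1 : ∀ u y, ∑ b', (if E u x y ∧ 3 ≤ cd E u x then (1 : ℝ) else 0) *
          (if LLr E v u b' ∧ b' ≠ x ∧ b' ≠ b ∧ b' ≠ y ∧ y ≠ b ∧ E u x y then mu E β τ (insert b' {y, x, b}) else 0)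
          ≤ (if E u x y ∧ 3 ≤ cd E u x then (1 : ℝ) else 0) * (2 * β * mu E β τ {y, x, b}) := by
        intro u y
        rw [← mul_sum]
        apply mul_le_mul_of_nonneg_left _ (by split_ifs <;> norm_num)
        apply last_b' hE hβ hτ {y, x, b} (v := v) (u := u)
          (P := fun b' => LLr E v u b' ∧ b' ≠ x ∧ b' ≠ b ∧ b' ≠ y ∧ y ≠ b ∧ E u x y)
        · intro z hz; exact hz.1
        · intro z hz
          rw [mem_insert, mem_insert, mem_singleton]
          push Not
          exact ⟨hz.2.2.2.1, hz.2.1, hz.2.2.1⟩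
      calc _ = ∑ u, ∑ y, ∑ b', (if E u x y ∧ 3 ≤ cd E u x then (1 : ℝ) else 0) *
          (if LLr E v u b' ∧ b' ≠ x ∧ b' ≠ b ∧ b' ≠ y ∧ y ≠ b ∧ E u x y then mu E β τ (insert b' {y, x, b}) else 0) := by
            apply sum_congr rfl
            intro u _
            rw [sum_comm]
        _ ≤ ∑ u, ∑ y, (if E u x y ∧ 3 ≤ cd E u x then (1 : ℝ) else 0) * (2 * β * mu E β τ {y, x, b}) :=
            sum_le_sum fun u _ => sum_le_sum fun y _ => h1 u y
        _ = ∑ y, (∑ u, (if E u x y ∧ 3 ≤ cd E u x then (1 : ℝ) else 0)) * (2 * β * mu E β τ {y, x, b}) := by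
            rw [sum_comm]
            apply sum_congr rfl
            intro y _
            rw [sum_mul]
        _ ≤ ∑ y, 1 * (2 * β * mu E β τ {y, x, b}) := by
            apply sum_le_sum
            intro y _
            apply mul_le_mul_of_nonneg_right _ (by have := hmu {y, x, b}; positivity)
            exact card_heavy_le hE (fun z hz => hz)
        _ = 2 * β * ∑ y, mu E β τ (insert y {x, b}) := by
            rw [mul_sum]
            apply sum_congr rfl
            intro y _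
            ring
        _ ≤ 2 * β * (B * mu E β τ {x, b}) := mul_le_mul_of_nonneg_left hBm (by positivity)
        _ = _ := by ring
    calc _ ≤ ∑ u, ∑ b', ∑ y, ((if LLr E v u b' ∧ b' ≠ x ∧ b' ≠ b then (1 : ℝ) else 0) *
          (if E u x y ∧ cd E u x ≤ 2 ∧ y ≠ b ∧ y ≠ b' then mu E β τ (insert y {b', x, b}) else 0)
        + (if E u x y ∧ 3 ≤ cd E u x then (1 : ℝ) else 0) *
          (if LLr E v u b' ∧ b' ≠ x ∧ b' ≠ b ∧ b' ≠ y ∧ y ≠ b ∧ E u x y then mu E β τ (insert b' {y, x, b}) else 0)) :=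
          sum_le_sum fun u _ => sum_le_sum fun b' _ => sum_le_sum fun y _ => split u b' y
      _ ≤ 4 * β * B * mu E β τ {x, b} + 2 * β * B * mu E β τ {x, b} := by
          simp_rw [sum_add_distrib]
          exact add_le_add hlight hheavy
      _ = _ := by ring
  calc _ ≤ ∑ v, (if LLr E v x b then (1 : ℝ) else 0) * (6 * β * B * mu E β τ {x, b}) :=
        sum_le_sum fun v _ => inner v
    _ = (∑ v, (if LLr E v x b then (1 : ℝ) else 0)) * (6 * β * B * mu E β τ {x, b}) := by rw [sum_mul]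
    _ ≤ (cd E x b : ℝ) * (6 * β * B * mu E β τ {x, b}) := by
        apply mul_le_mul_of_nonneg_right _ (by positivity)
        exact sum_LL_v hE (fun z hz => hz)
    _ = _ := by ring

end Pool.Agent.MP_99d303_co
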