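import Pool.Agent.MP_99d303_co.ErrSum2

set_option autoImplicit false
set_option linter.unusedSectionVars false

open Finset

namespace Pool.Agent.MP_99d303_co

variable {V : Type*} [Fintype V] [DecidableEq V]
variable {E : V → V → V → Prop} {β τ : ℝ}

theorem rot3 (g : V → V → V → ℝ) : ∑ a, ∑ b, ∑ c, g a b c = ∑ c, ∑ a, ∑ b, g a b c := by
  calc ∑ a, ∑ b, ∑ c, g a b c = ∑ a, ∑ c, ∑ b, g a b c := by
        apply sum_congr rfl; intro a _; rw [sum_comm]
    _ = _ := by rw [sum_comm]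

theorem rev4 (f : V → V → V → V → ℝ) :
    ∑ b, ∑ v, ∑ u, ∑ b', f b v u b' = ∑ b', ∑ u, ∑ v, ∑ b, f b v u b' := by
  calc ∑ b, ∑ v, ∑ u, ∑ b', f b v u b' = ∑ b, ∑ b', ∑ v, ∑ u, f b v u b' := by
        apply sum_congr rfl; intro b _; exact rot3 (f b)
    _ = ∑ b', ∑ b, ∑ v, ∑ u, f b v u b' := by rw [sum_comm]
    _ = ∑ b', ∑ u, ∑ b, ∑ v, f b v u b' := by
        apply sum_congr rfl; intro b' _; exact rot3 (fun b v u => f b v u b')
    _ = _ := by
        apply sum_congr rfl; intro b' _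
        apply sum_congr rfl; intro u _
        rw [sum_comm]

open scoped Classical in
theorem err_total (hE : Good E) (hβ : 0 < β) (hτ : 0 < τ) {B : ℝ}
    (hB : ∀ S ∈ II E, (S.card : ℝ) ≤ B) :
    ∑ S ∈ II E, wt E β τ S * ∑ v, err E β τ v S
      ≤ β * ((9 + 16 * β * τ * Fintype.card V + β / τ + 6 * β * B) * Gam E β τ
          + 2 * β * (β ^ 2 * (2 / τ) * (Fintype.card V : ℝ) ^ 2 * ZZ E β τ)) := by
  set T : V → V → V → V → V → Finset V → ℝ := fun x b v u b' S =>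
    (if x ∈ S ∧ b ∈ S ∧ u ∉ S ∧ b' ∈ S ∧ LLr E v x b ∧ LLr E v u b' then
      Real.exp (-(2 * τ * cd E u b')) * (if ∃ y ∈ S, E u x y then (1 : ℝ) else 0)
        + min 1 (2 * τ * cd E u x) else 0) with hT
  have e1 : ∀ S, ∑ v, err E β τ v S
      = β * (∑ v, ∑ x, ∑ b, (if x ∈ S ∧ b ∈ S ∧ LLr E v x b then (1 : ℝ) else 0))
        + β * ∑ x, ∑ b, ∑ v, ∑ u, ∑ b', T x b v u b' S := by
    intro S
    have : ∑ x, ∑ b, ∑ v, ∑ u, ∑ b', T x b v u b' S = ∑ v, ∑ x, ∑ b, ∑ u, ∑ b', T x b v u b' S :=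
      rot3 (fun x b v => ∑ u, ∑ b', T x b v u b' S)
    rw [this, mul_sum, mul_sum, ← sum_add_distrib]
    rfl
  have e2 : ∑ S ∈ II E, wt E β τ S * ∑ v, err E β τ v S
      = β * (∑ S ∈ II E, wt E β τ S * ∑ v, ∑ x, ∑ b, (if x ∈ S ∧ b ∈ S ∧ LLr E v x b then (1 : ℝ) else 0))
        + β * ∑ x, ∑ b, ∑ v, ∑ u, ∑ b', ∑ S ∈ II E, wt E β τ S * T x b v u b' S := by
    have e3 : ∑ x, ∑ b, ∑ v, ∑ u, ∑ b', ∑ S ∈ II E, wt E β τ S * T x b v u b' S
        = ∑ S ∈ II E, wt E β τ S * ∑ x, ∑ b, ∑ v, ∑ u, ∑ b', T x b v u b' S := by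
      simp_rw [mul_sum]
      symm
      rw [sum_comm]; apply sum_congr rfl; intro x _
      rw [sum_comm]; apply sum_congr rfl; intro b _
      rw [sum_comm]; apply sum_congr rfl; intro v _
      rw [sum_comm]; apply sum_congr rfl; intro u _
      rw [sum_comm]
    rw [e3, mul_sum, mul_sum, ← sum_add_distrib]
    apply sum_congr rfl
    intro S _
    rw [e1 S]; ring
  rw [e2]
  have f1 : ∑ S ∈ II E, wt E β τ S * ∑ v, ∑ x, ∑ b, (if x ∈ S ∧ b ∈ S ∧ LLr E v x b then (1 : ℝ) else 0)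
      ≤ Gam E β τ :=
    sum_le_sum fun S _ => mul_le_mul_of_nonneg_left (sum_LL_le hE S) (wt_nonneg hβ S)
  have f2 : ∑ x, ∑ b, ∑ v, ∑ u, ∑ b', ∑ S ∈ II E, wt E β τ S * T x b v u b' S
      ≤ (8 + 16 * β * τ * Fintype.card V + β / τ + 6 * β * B) * Gam E β τ
          + 2 * β * (β ^ 2 * (2 / τ) * (Fintype.card V : ℝ) ^ 2 * ZZ E β τ) := by
    calc ∑ x, ∑ b, ∑ v, ∑ u, ∑ b', ∑ S ∈ II E, wt E β τ S * T x b v u b' S
        ≤ ∑ x, ∑ b, ∑ v, ∑ u, ∑ b', (
          (if LLr E v x b ∧ LLr E v u b' ∧ (b' = x ∨ b' = b) then 2 else 0) * mu E β τ {x, b}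
    + (if LLr E v x b ∧ LLr E v u b' ∧ b' ≠ x ∧ b' ≠ b then 2 * τ * cd E u x else 0)
        * mu E β τ {b', x, b}
    + (if LLr E v x b ∧ LLr E v u b' ∧ b' ≠ x ∧ b' ≠ b ∧ E u x b then 1 else 0)
        * mu E β τ {b', x, b}
    + (if LLr E v x b ∧ LLr E v u b' ∧ b' ≠ x ∧ b' ≠ b ∧ E u x b' then
        Real.exp (-(2 * τ * cd E u b')) else 0) * mu E β τ {b, x, b'}
    + ∑ y, (if LLr E v x b ∧ LLr E v u b' ∧ b' ≠ x ∧ b' ≠ b ∧ E u x y ∧ y ≠ b ∧ y ≠ b' then 1 else 0)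
        * mu E β τ (insert y {b', x, b})) :=
          sum_le_sum fun x _ => sum_le_sum fun b _ => sum_le_sum fun v _ => sum_le_sum fun u _ =>
            sum_le_sum fun b' _ => e_bound hβ hτ.le x b v u b'
      _ = ∑ x, ∑ b, ∑ v, ∑ u, ∑ b',
          (if LLr E v x b ∧ LLr E v u b' ∧ (b' = x ∨ b' = b) then (2 : ℝ) else 0) * mu E β τ {x, b}
        + ∑ x, ∑ b, ∑ v, ∑ u, ∑ b',
          (if LLr E v x b ∧ LLr E v u b' ∧ b' ≠ x ∧ b' ≠ b then 2 * τ * cd E u x else 0)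
            * mu E β τ {b', x, b}
        + ∑ x, ∑ b, ∑ v, ∑ u, ∑ b',
          (if LLr E v x b ∧ LLr E v u b' ∧ b' ≠ x ∧ b' ≠ b ∧ E u x b then (1 : ℝ) else 0)
            * mu E β τ {b', x, b}
        + ∑ x, ∑ b, ∑ v, ∑ u, ∑ b',
          (if LLr E v x b ∧ LLr E v u b' ∧ b' ≠ x ∧ b' ≠ b ∧ E u x b' then
            Real.exp (-(2 * τ * cd E u b')) else 0) * mu E β τ {b, x, b'}
        + ∑ x, ∑ b, ∑ v, ∑ u, ∑ b',
          ∑ y, (if LLr E v x b ∧ LLr E v u b' ∧ b' ≠ x ∧ b' ≠ b ∧ E u x y ∧ y ≠ b ∧ y ≠ b' then (1 : ℝ) else 0)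
            * mu E β τ (insert y {b', x, b}) := by
          simp_rw [sum_add_distrib]
      _ ≤ 8 * Gam E β τ + 16 * β * τ * Fintype.card V * Gam E β τ
          + 2 * β * (β ^ 2 * (2 / τ) * (Fintype.card V : ℝ) ^ 2 * ZZ E β τ)
          + β / τ * Gam E β τ + 6 * β * B * Gam E β τ := by
          gcongr ?_ + ?_ + ?_ + ?_ + ?_
          · rw [Gam_eq, mul_sum]
            apply sum_le_sum; intro x _
            rw [mul_sum]
            apply sum_le_sum; intro b _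
            exact S1 hE hβ x b
          · rw [Gam_eq, mul_sum]
            apply sum_le_sum; intro x _
            rw [mul_sum]
            apply sum_le_sum; intro b _
            exact S2 hE hβ hτ.le x b
          · calc _ ≤ ∑ x, ∑ b, 2 * β * ((cd E x b : ℝ) ^ 2 * mu E β τ {x, b}) :=
                  sum_le_sum fun x _ => sum_le_sum fun b _ => S3 hE hβ hτ.le x b
              _ = 2 * β * ∑ x, ∑ b, (cd E x b : ℝ) ^ 2 * mu E β τ {x, b} := by
                  simp_rw [mul_sum]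
              _ ≤ _ := mul_le_mul_of_nonneg_left (sum_cd_sq_mu hE hβ hτ) (by positivity)
          · rw [Gam_eq, mul_sum]
            apply sum_le_sum; intro x _
            rw [mul_sum, rev4]
            apply sum_le_sum; intro b' _
            exact S4 hE hβ hτ x b'
          · rw [Gam_eq, mul_sum]
            apply sum_le_sum; intro x _
            rw [mul_sum]
            apply sum_le_sum; intro b _
            exact S5 hE hβ hτ.le hB x b
      _ = _ := by ring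
  calc _ ≤ β * Gam E β τ + β * ((8 + 16 * β * τ * Fintype.card V + β / τ + 6 * β * B) * Gam E β τ
          + 2 * β * (β ^ 2 * (2 / τ) * (Fintype.card V : ℝ) ^ 2 * ZZ E β τ)) :=
        add_le_add (mul_le_mul_of_nonneg_left f1 hβ.le) (mul_le_mul_of_nonneg_left f2 hβ.le)
    _ = _ := by ring

end Pool.Agent.MP_99d303_co
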