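import Pool.Agent.MP_99d303_co.Bad

set_option autoImplicit false
set_option linter.unusedSectionVars false

open Finset

namespace Pool.Agent.MP_99d303_co

variable {V : Type*} [Fintype V] [DecidableEq V]
variable {E : V → V → V → Prop} {β τ : ℝ}

/-- first bad quantity -/
noncomputable def bb1 (E : V → V → V → Prop) (D : ℝ) (S : Finset V) : ℝ :=
  ∑ i, T1 E S i + ∑ i, T2 E S i + 2 * ∑ i, T3 E D S i

/-- second bad quantity -/
noncomputable def bb2 (E : V → V → V → Prop) (S : Finset V) : ℝ := ∑ i, T0 E S i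

theorem bb1_nonneg (D : ℝ) (S : Finset V) : 0 ≤ bb1 E D S := by
  unfold bb1
  have h1 : 0 ≤ ∑ i, T1 E S i := sum_nonneg fun i _ => T1_nonneg S i
  have h2 : 0 ≤ ∑ i, T2 E S i := sum_nonneg fun i _ => T2_nonneg S i
  have h3 : 0 ≤ ∑ i, T3 E D S i := sum_nonneg fun i _ => T3_nonneg D S i
  linarith

theorem bb2_nonneg (S : Finset V) : 0 ≤ bb2 E S := sum_nonneg fun i _ => T0_nonneg S i

theorem E_bb1 (hE : Good E) (hβ : 0 < β) (hτ : 0 ≤ τ) {B D : ℝ} (hD : 0 ≤ D)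
    (hB : ∀ S ∈ II E, (S.card : ℝ) ≤ B) :
    ∑ S ∈ II E, wt E β τ S * bb1 E D S ≤ β * (3 * B ^ 3 + 2 * D * B ^ 2) * ZZ E β τ := by
  have h1 := E_T1 hE hβ hτ hB
  have h2 := E_T2 hE hβ hτ hB
  have h3 := E_T3 hE hβ hτ hD hB
  have e : ∑ S ∈ II E, wt E β τ S * bb1 E D S
      = ∑ S ∈ II E, wt E β τ S * ∑ i, T1 E S i + ∑ S ∈ II E, wt E β τ S * ∑ i, T2 E S i
        + 2 * ∑ S ∈ II E, wt E β τ S * ∑ i, T3 E D S i := by
    rw [mul_sum, ← sum_add_distrib, ← sum_add_distrib]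
    apply sum_congr rfl; intro S _
    unfold bb1; ring
  rw [e]
  linarith

/-- many good sets -/
theorem good_weight (hE : Good E) (hβ : 0 < β) (hτ : 0 ≤ τ) {B D K q0 θ1 θ2 : ℝ} {k : ℕ}
    (hD : 0 ≤ D) (hB : ∀ S ∈ II E, (S.card : ℝ) ≤ B)
    (hn : 0 < (Fintype.card V : ℝ)) (hq0 : q0 = Real.exp (-(16 * K + 1)) / 2)
    (hA : (Fintype.card V : ℝ) / 2 * ZZ E β τ
      ≤ Real.exp (16 * K + 1) * ∑ S ∈ II E, wt E β τ S * ((AA E k D S).card : ℝ))
    (hθ1 : 0 < θ1) (hθ2 : 0 < θ2)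
    (h1 : β * (3 * B ^ 3 + 2 * D * B ^ 2) ≤ q0 / 8 * θ1)
    (h2 : β * (4 * Fintype.card V * B ^ 2) ≤ q0 / 8 * θ2) :
    q0 / 4 * ZZ E β τ ≤ ∑ S ∈ (II E).filter (fun S =>
      q0 / 2 * Fintype.card V ≤ ((AA E k D S).card : ℝ) ∧ bb1 E D S ≤ θ1 ∧ bb2 E S ≤ θ2),
      wt E β τ S := by
  classical
  have hZ := ZZ_pos (E := E) (τ := τ) hβ
  set n : ℝ := (Fintype.card V : ℝ) with hndef
  have hq0pos : 0 < q0 := by rw [hq0]; positivity
  have hA' : q0 * n * ZZ E β τ ≤ ∑ S ∈ II E, wt E β τ S * ((AA E k D S).card : ℝ) := by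
    have h3 : Real.exp (-(16 * K + 1)) * (n / 2 * ZZ E β τ)
        ≤ Real.exp (-(16 * K + 1)) * (Real.exp (16 * K + 1) *
          ∑ S ∈ II E, wt E β τ S * ((AA E k D S).card : ℝ)) :=
      mul_le_mul_of_nonneg_left hA (Real.exp_pos _).le
    rw [← mul_assoc (Real.exp (-(16 * K + 1))) (Real.exp (16 * K + 1)), ← Real.exp_add,
      neg_add_cancel, Real.exp_zero, one_mul] at h3
    rw [hq0]
    linarith
  set W := ∑ S ∈ (II E).filter (fun S =>
      q0 / 2 * n ≤ ((AA E k D S).card : ℝ) ∧ bb1 E D S ≤ θ1 ∧ bb2 E S ≤ θ2), wt E β τ S with hW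
  have hpt : ∀ S ∈ II E, wt E β τ S * ((AA E k D S).card : ℝ)
      ≤ n * (if q0 / 2 * n ≤ ((AA E k D S).card : ℝ) ∧ bb1 E D S ≤ θ1 ∧ bb2 E S ≤ θ2
          then wt E β τ S else 0)
        + q0 / 2 * n * wt E β τ S + n / θ1 * (wt E β τ S * bb1 E D S)
        + n / θ2 * (wt E β τ S * bb2 E S) := by
    intro S _
    have hw := wt_nonneg (E := E) (τ := τ) hβ S
    have hc : ((AA E k D S).card : ℝ) ≤ n := by
      rw [hndef]; exact_mod_cast card_le_univ _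
    have hb1 := bb1_nonneg (E := E) D S
    have hb2 := bb2_nonneg (E := E) S
    have t1 : 0 ≤ n / θ1 * (wt E β τ S * bb1 E D S) := by positivity
    have t2 : 0 ≤ n / θ2 * (wt E β τ S * bb2 E S) := by positivity
    have t3 : 0 ≤ q0 / 2 * n * wt E β τ S := by positivity
    have t4 : 0 ≤ n * (if q0 / 2 * n ≤ ((AA E k D S).card : ℝ) ∧ bb1 E D S ≤ θ1 ∧ bb2 E S ≤ θ2
          then wt E β τ S else 0) := by
      split_ifs <;> positivity
    have t5 : wt E β τ S * ((AA E k D S).card : ℝ) ≤ wt E β τ S * n :=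
      mul_le_mul_of_nonneg_left hc hw
    by_cases c1 : q0 / 2 * n ≤ ((AA E k D S).card : ℝ)
    swap
    · have : wt E β τ S * ((AA E k D S).card : ℝ) ≤ wt E β τ S * (q0 / 2 * n) :=
        mul_le_mul_of_nonneg_left (not_le.1 c1).le hw
      linarith
    by_cases c2 : bb1 E D S ≤ θ1
    swap
    · have h5 : 1 ≤ bb1 E D S / θ1 := by rw [le_div_iff₀ hθ1]; linarith [not_le.1 c2]
      have h6 : n * wt E β τ S * 1 ≤ n * wt E β τ S * (bb1 E D S / θ1) :=
        mul_le_mul_of_nonneg_left h5 (by positivity)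
      have h7 : n * wt E β τ S * (bb1 E D S / θ1) = n / θ1 * (wt E β τ S * bb1 E D S) := by ring
      linarith
    by_cases c3 : bb2 E S ≤ θ2
    swap
    · have h5 : 1 ≤ bb2 E S / θ2 := by rw [le_div_iff₀ hθ2]; linarith [not_le.1 c3]
      have h6 : n * wt E β τ S * 1 ≤ n * wt E β τ S * (bb2 E S / θ2) :=
        mul_le_mul_of_nonneg_left h5 (by positivity)
      have h7 : n * wt E β τ S * (bb2 E S / θ2) = n / θ2 * (wt E β τ S * bb2 E S) := by ring
      linarith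
    rw [if_pos ⟨c1, c2, c3⟩]
    linarith
  have hsum := sum_le_sum hpt
  rw [sum_add_distrib, sum_add_distrib, sum_add_distrib, ← mul_sum, ← mul_sum, ← mul_sum,
    ← mul_sum, ← sum_filter, ← hW] at hsum
  have g1 := E_bb1 hE hβ hτ hD hB
  have g2 := E_T0 hE hβ hτ hB
  have g1' : n / θ1 * ∑ S ∈ II E, wt E β τ S * bb1 E D S ≤ n * (q0 / 8) * ZZ E β τ := by
    calc _ ≤ n / θ1 * (β * (3 * B ^ 3 + 2 * D * B ^ 2) * ZZ E β τ) :=
          mul_le_mul_of_nonneg_left g1 (by positivity)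
      _ ≤ n / θ1 * (q0 / 8 * θ1 * ZZ E β τ) := by
          apply mul_le_mul_of_nonneg_left _ (by positivity)
          exact mul_le_mul_of_nonneg_right h1 hZ.le
      _ = _ := by field_simp
  have g2' : n / θ2 * ∑ S ∈ II E, wt E β τ S * bb2 E S ≤ n * (q0 / 8) * ZZ E β τ := by
    calc _ ≤ n / θ2 * (β * (4 * n * B ^ 2 * ZZ E β τ)) :=
          mul_le_mul_of_nonneg_left g2 (by positivity)
      _ = n / θ2 * (β * (4 * n * B ^ 2) * ZZ E β τ) := by ring
      _ ≤ n / θ2 * (q0 / 8 * θ2 * ZZ E β τ) := by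
          apply mul_le_mul_of_nonneg_left _ (by positivity)
          exact mul_le_mul_of_nonneg_right h2 hZ.le
      _ = _ := by field_simp
  have hZeq : ∑ S ∈ II E, wt E β τ S = ZZ E β τ := rfl
  rw [hZeq] at hsum
  have hfin : n * (q0 / 4 * ZZ E β τ) ≤ n * W := by nlinarith
  exact le_of_mul_le_mul_left hfin hn

end Pool.Agent.MP_99d303_co
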