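import Pool.Agent.MP_99d303_co.Part
import Pool.Agent.MP_99d303_co.Construct2
import Pool.Agent.MP_99d303_co.Count
import Pool.Agent.MP_99d303_co.GoodSets

set_option autoImplicit false
set_option linter.unusedSectionVars false

open Finset

namespace Pool.Agent.MP_99d303_co

variable {V : Type*} [Fintype V] [DecidableEq V]
variable {E : V → V → V → Prop}

theorem final_step (hE : Good E) {C lam s η K q0 a0 x p : ℝ} {k q : ℕ}
    (hC : 1 ≤ C) (hη : η = 1 / (8 * (64 * C + 1))) (hK : K = 2 * C / η) (hk : 16 * K ≤ k)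
    (hq0 : q0 = Real.exp (-(16 * K + 1)) / 2) (ha0 : a0 = q0 / (2 * (k + 1)))
    (hx : x = a0 ^ 2 / (40960 * C)) (hq : 64 * C / x ≤ q) (hp : p = 1 / (q + 1 : ℝ))
    (hlam1 : Real.exp 1 ≤ lam) (hlam2 : C ≤ lam)
    (hlam3 : 16 * Real.exp 1 ≤ (p ^ k * a0 / 16 / C) ^ 4 * x * lam)
    (s1 : 8 ≤ x * s) (s2 : 16 * C ^ 3 * (q + 1 : ℝ) ^ (2 * k) ≤ a0 ^ 2 * s)
    (s3 : 80 ≤ p ^ k * a0 * s) (s4 : 16 * C ≤ s)
    (s5 : 16 * (lam * (9 + 16 * lam * η * Real.log lam + lam / (η * Real.log lam)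
      + 6 * lam * C) * K + 4 * lam ^ 4 / (η * Real.log lam)) ≤ s)
    (s6 : 262 * lam * C ^ 2 ≤ q0 * p ^ (2 * k) * s)
    (s7 : 32 * lam * C ^ 2 ≤ q0 * p ^ (3 * k) * s) (s8 : 64 ≤ q0 * x * s)
    (hn : (Fintype.card V : ℝ) = s ^ 2) (hB : ∀ S ∈ II E, (S.card : ℝ) ≤ C * s) : False := by
  classical
  have hC0 : 0 < C := by linarith
  have hs : 0 < s := by linarith
  have hη0 : 0 < η := by rw [hη]; positivity
  have hη1 : 8 * (64 * C + 1) * η = 1 := by rw [hη]; field_simp
  have hK0 : 0 < K := by rw [hK]; positivity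
  have hq00 : 0 < q0 := by rw [hq0]; positivity
  have hq01 : q0 ≤ 1 := by
    rw [hq0]
    have : Real.exp (-(16 * K + 1)) ≤ 1 := by
      rw [Real.exp_le_one_iff]; linarith
    linarith
  have ha00 : 0 < a0 := by rw [ha0]; positivity
  have hk0 : (0 : ℝ) ≤ k := Nat.cast_nonneg _
  have ha01 : a0 ≤ 1 := by
    rw [ha0, div_le_one (by positivity)]; linarith
  have hx0 : 0 < x := by rw [hx]; positivity
  have hx1 : x ≤ 1 := by
    rw [hx, div_le_one (by positivity)]
    have : a0 ^ 2 ≤ 1 := pow_le_one₀ ha00.le ha01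
    linarith
  have hp0 : 0 < p := by rw [hp]; positivity
  have hp1 : p ≤ 1 := by rw [hp]; exact inv_le_one
  have hlam0 : 0 < lam := lt_of_lt_of_le (Real.exp_pos 1) hlam1
  have hlam4 : 1 ≤ lam := le_trans hC hlam2
  set ℓ : ℝ := Real.log lam with hℓ
  have hℓ1 : 1 ≤ ℓ := by
    rw [hℓ, Real.le_log_iff_exp_le hlam0]; exact hlam1
  have hℓ0 : 0 < ℓ := by linarith
  set β : ℝ := lam / s with hβdef
  set τ : ℝ := η * ℓ / s with hτdef
  have hβ : 0 < β := by positivity
  have hτ : 0 < τ := by positivity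
  set B : ℝ := C * s with hBdef
  set D : ℝ := 64 * C * s with hDdef
  have hB0 : 0 < B := by positivity
  have hD0 : 0 < D := by positivity
  set Z := ZZ E β τ with hZdef
  have hZ : 0 < Z := ZZ_pos hβ
  have hnβ : (Fintype.card V : ℝ) * β = lam * s := by rw [hn, hβdef]; field_simp
  -- the expected codegree
  have hΓ : Gam E β τ ≤ K * Fintype.card V * Z := by
    have h1 := sum_beta_le (V := V) hβ (II E) hB0 hB (by
      rw [hnβ, hBdef]; exact mul_le_mul_of_nonneg_right hlam2 hs.le)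
    have h2 := Gam_le_of hβ hτ h1
    refine le_trans h2 ?_
    apply mul_le_mul_of_nonneg_right _ hZ.le
    rw [div_le_iff₀ hτ, hnβ, hn, hBdef, hτdef, hK]
    have h3 : Real.log (lam * s / (C * s)) ≤ ℓ := by
      rw [hℓ]
      apply Real.log_le_log (by positivity)
      rw [div_le_iff₀ (by positivity)]
      have : lam * s * 1 ≤ lam * s * C := mul_le_mul_of_nonneg_left hC (by positivity)
      linarith
    have h4 : 2 * C / η * s ^ 2 * (η * ℓ / s) = C * s * (2 * ℓ) := by field_simp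
    rw [h4]
    apply mul_le_mul_of_nonneg_left _ (by positivity)
    linarith
  -- step A
  have hstepA := stepA (k := k) (D := D) hE hβ hτ hB hK0 hΓ hk (by rw [hDdef, hBdef]; linarith) hD0
    (by
      rw [hn, hBdef]
      have : 16 * C * s ≤ s * s := mul_le_mul_of_nonneg_right s4 hs.le
      linarith) (by
      rw [hn, hBdef]
      have e1 : β * ((9 + 16 * β * τ * s ^ 2 + β / τ + 6 * β * (C * s)) * (K * s ^ 2)
          + 2 * β * (β ^ 2 * (2 / τ) * (s ^ 2) ^ 2))
          = (16 * (lam * (9 + 16 * lam * η * ℓ + lam / (η * ℓ) + 6 * lam * C) * K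
            + 4 * lam ^ 4 / (η * ℓ))) * (s / 16) := by
        rw [hβdef, hτdef]
        field_simp
        ring
      rw [e1]
      calc _ ≤ s * (s / 16) := mul_le_mul_of_nonneg_right s5 (by positivity)
        _ = s ^ 2 / 16 := by ring)
  -- good sets
  set θ1 : ℝ := 4 * C * p ^ (2 * k) * s ^ 3 with hθ1
  set θ2 : ℝ := p ^ (3 * k) * s ^ 4 with hθ2
  have hn0 : 0 < (Fintype.card V : ℝ) := by rw [hn]; positivity
  have hgw := good_weight hE hβ hτ.le (D := D) (K := K) (q0 := q0) (θ1 := θ1) (θ2 := θ2) (k := k)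
    hD0.le hB hn0 hq0 hstepA (by positivity) (by positivity) (by
      rw [hθ1, hBdef, hDdef, hβdef]
      have e1 : lam / s * (3 * (C * s) ^ 3 + 2 * (64 * C * s) * (C * s) ^ 2)
          = (262 * lam * C ^ 2) * (C * s ^ 2 / 2) := by field_simp; ring
      rw [e1]
      calc _ ≤ (q0 * p ^ (2 * k) * s) * (C * s ^ 2 / 2) :=
            mul_le_mul_of_nonneg_right s6 (by positivity)
        _ = _ := by ring) (by
      rw [hθ2, hn, hBdef, hβdef]
      have e1 : lam / s * (4 * s ^ 2 * (C * s) ^ 2) = (32 * lam * C ^ 2) * (s ^ 3 / 8) := by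
        field_simp; ring
      rw [e1]
      calc _ ≤ (q0 * p ^ (3 * k) * s) * (s ^ 3 / 8) :=
            mul_le_mul_of_nonneg_right s7 (by positivity)
        _ = _ := by ring)
  set G := (II E).filter (fun S =>
      q0 / 2 * Fintype.card V ≤ ((AA E k D S).card : ℝ) ∧ bb1 E D S ≤ θ1 ∧ bb2 E S ≤ θ2) with hG
  -- the number of added quadruples
  set r : ℕ := ⌊x * s / 4⌋₊ with hr
  have hr1 : (r : ℝ) ≤ x * s / 4 := Nat.floor_le (by positivity)
  have hr2 : x * s / 8 ≤ r := by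
    have := Nat.lt_floor_add_one (x * s / 4)
    rw [← hr] at this
    linarith
  have hr0 : (0 : ℝ) < r := lt_of_lt_of_le (by positivity) hr2
  have hcon : ∀ S ∈ G, ∃ X ⊆ S, (X.card : ℝ) ≤ r ∧ ∃ L : Finset (Fin (4 * r) → V),
      (p ^ k * a0 * s ^ 2 / 16) ^ (4 * r) ≤ (L.card : ℝ) ∧
      ∀ f ∈ L, Function.Injective f ∧ (∀ i, f i ∉ S) ∧ Ind E ((S \ X) ∪ univ.image f) ∧
        GG E ((S \ X) ∪ univ.image f)
          ≤ GG E (S \ X) + (2 * (4 * r : ℕ) * D + 2 * (4 * r : ℕ) * s) := by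
    intro S hS
    rw [hG, mem_filter] at hS
    obtain ⟨hSI, h1, h2, h3⟩ := hS
    rw [hp]
    refine construct hE (mem_II.1 hSI) hs hn hC (hB S hSI) ha00 ha01 ?_ ?_ ?_ s2 ?_ ?_ ?_
    · refine le_trans (le_of_eq ?_) h1
      rw [hn, ha0]; field_simp
    · rw [← hp]; exact h2
    · rw [← hp]; exact h3
    · refine le_trans ?_ hr2
      have h4 : 64 * C / x ≤ (q : ℝ) + 1 := by linarith
      rw [div_le_iff₀ hx0] at h4
      have h5 : (1 / ((q : ℝ) + 1)) * (C * s) * 64 ≤ x * s := by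
        rw [one_div, ← div_eq_inv_mul, div_mul_eq_mul_div, div_le_iff₀ (by positivity)]
        have := mul_le_mul_of_nonneg_right h4 hs.le
        linarith
      linarith
    · have h4 : 40960 * C * x = a0 ^ 2 := by rw [hx]; field_simp
      calc 40960 * C * (4 * (r : ℝ)) ≤ 40960 * C * (x * s) :=
            mul_le_mul_of_nonneg_left (by linarith) (by positivity)
        _ = a0 ^ 2 * s := by rw [← h4]; ring
    · rw [← hp]
      calc 80 * (4 * (r : ℝ)) ≤ 80 * s := by
            have : x * s ≤ 1 * s := mul_le_mul_of_nonneg_right hx1 hs.le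
            linarith
        _ ≤ (p ^ k * a0 * s) * s := mul_le_mul_of_nonneg_right s3 hs.le
        _ = _ := by ring
  have hcount := count (β := β) (τ := τ) hβ hτ.le hB G hcon
  -- entropy of `X`
  have hX := sum_beta_le (V := V) hβ (univ.filter (fun X : Finset V => (X.card : ℝ) ≤ r)) hr0
    (fun X hX => (mem_filter.1 hX).2) (by
      rw [hnβ]
      have h1 : x * s ≤ 1 * s := mul_le_mul_of_nonneg_right hx1 hs.le
      have h2 : 1 * s ≤ lam * s := mul_le_mul_of_nonneg_right hlam4 hs.le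
      linarith)
  rw [hnβ] at hX
  have hX' : ∑ X ∈ univ.filter (fun X : Finset V => (X.card : ℝ) ≤ r), β ^ X.card
      ≤ (8 * Real.exp 1 * lam / x) ^ r := by
    refine le_trans hX ?_
    have h1 : Real.exp (r * (1 + Real.log (lam * s / r)))
        = (Real.exp 1 * (lam * s / r)) ^ r := by
      rw [Real.exp_nat_mul, Real.exp_add, Real.exp_log (by positivity)]
    rw [h1]
    apply pow_le_pow_left₀ (by positivity)
    have h2 : lam * s / r ≤ 8 * lam / x := by
      rw [div_le_div_iff₀ hr0 hx0]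
      have := mul_le_mul_of_nonneg_left hr2 (by positivity : 0 ≤ 8 * lam)
      linarith
    calc Real.exp 1 * (lam * s / r) ≤ Real.exp 1 * (8 * lam / x) :=
          mul_le_mul_of_nonneg_left h2 (Real.exp_pos _).le
      _ = _ := by ring
  have htilt : Real.exp (τ * (2 * (4 * r : ℕ) * D + 2 * (4 * r : ℕ) * s)) = lam ^ r := by
    have : τ * (2 * (4 * r : ℕ) * D + 2 * (4 * r : ℕ) * s) = r * ℓ := by
      rw [hτdef, hDdef]
      push_cast
      have : η * ℓ / s * (2 * (4 * (r : ℝ)) * (64 * C * s) + 2 * (4 * r) * s)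
          = (8 * (64 * C + 1) * η) * (r * ℓ) := by field_simp; ring
      rw [this, hη1, one_mul]
    rw [this, Real.exp_nat_mul, hℓ, Real.exp_log hlam0]
  rw [htilt] at hcount
  -- put together
  set ν : ℝ := p ^ k * a0 / 16 with hν
  have hν0 : 0 < ν := by positivity
  have hN : p ^ k * a0 * s ^ 2 / 16 = ν * s ^ 2 := by rw [hν]; ring
  rw [hN] at hcount
  have hmain : q0 / 4 * Z * (ν * s ^ 2) ^ (4 * r) * β ^ (4 * r)
      ≤ lam ^ r * B ^ (4 * r) * (8 * Real.exp 1 * lam / x) ^ r * Z := by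
    calc q0 / 4 * Z * (ν * s ^ 2) ^ (4 * r) * β ^ (4 * r)
        ≤ (∑ S ∈ G, wt E β τ S) * (ν * s ^ 2) ^ (4 * r) * β ^ (4 * r) := by
          apply mul_le_mul_of_nonneg_right _ (by positivity)
          exact mul_le_mul_of_nonneg_right hgw (by positivity)
      _ ≤ _ := hcount
      _ ≤ _ := by
          apply mul_le_mul_of_nonneg_right _ hZ.le
          exact mul_le_mul_of_nonneg_left hX' (by positivity)
  have hcancel : q0 / 4 * (ν / C * lam) ^ (4 * r) ≤ lam ^ r * (8 * Real.exp 1 * lam / x) ^ r := by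
    have e1 : q0 / 4 * Z * (ν * s ^ 2) ^ (4 * r) * β ^ (4 * r)
        = (q0 / 4 * (ν / C * lam) ^ (4 * r)) * (B ^ (4 * r) * Z) := by
      have : (ν * s ^ 2) * β = (ν / C * lam) * B := by
        rw [hβdef, hBdef]; field_simp
      calc q0 / 4 * Z * (ν * s ^ 2) ^ (4 * r) * β ^ (4 * r)
          = q0 / 4 * Z * ((ν * s ^ 2) * β) ^ (4 * r) := by rw [mul_pow (ν * s ^ 2) β]; ring
        _ = _ := by rw [this, mul_pow (ν / C * lam) B]; ring
    have e2 : lam ^ r * B ^ (4 * r) * (8 * Real.exp 1 * lam / x) ^ r * Z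
        = (lam ^ r * (8 * Real.exp 1 * lam / x) ^ r) * (B ^ (4 * r) * Z) := by ring
    rw [e1, e2] at hmain
    exact le_of_mul_le_mul_right hmain (by positivity)
  have hpow : (ν / C * lam) ^ (4 * r) = ((ν / C) ^ 4 * lam ^ 4) ^ r := by
    rw [pow_mul, mul_pow]
  rw [hpow, ← mul_pow lam (8 * Real.exp 1 * lam / x)] at hcancel
  have hbase : 2 * (lam * (8 * Real.exp 1 * lam / x)) ≤ (ν / C) ^ 4 * lam ^ 4 := by
    have h1 : 2 * (lam * (8 * Real.exp 1 * lam / x)) = (16 * Real.exp 1) * (lam ^ 2 / x) := by ring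
    rw [h1]
    calc (16 * Real.exp 1) * (lam ^ 2 / x) ≤ ((ν / C) ^ 4 * x * lam) * (lam ^ 2 / x) :=
          mul_le_mul_of_nonneg_right hlam3 (by positivity)
      _ = (ν / C) ^ 4 * lam ^ 3 := by field_simp
      _ ≤ (ν / C) ^ 4 * lam ^ 4 := by
          apply mul_le_mul_of_nonneg_left _ (by positivity)
          exact pow_le_pow_right₀ hlam4 (by norm_num)
  have hM0 : 0 < lam * (8 * Real.exp 1 * lam / x) := by positivity
  have h2r : q0 / 4 * 2 ^ r ≤ 1 := by
    have h1 : (2 * (lam * (8 * Real.exp 1 * lam / x))) ^ r ≤ ((ν / C) ^ 4 * lam ^ 4) ^ r :=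
      pow_le_pow_left₀ (by positivity) hbase r
    have h2 : q0 / 4 * (2 * (lam * (8 * Real.exp 1 * lam / x))) ^ r
        ≤ (lam * (8 * Real.exp 1 * lam / x)) ^ r :=
      le_trans (mul_le_mul_of_nonneg_left h1 (by positivity)) hcancel
    rw [mul_pow, ← mul_assoc] at h2
    have h3 : 0 < (lam * (8 * Real.exp 1 * lam / x)) ^ r := by positivity
    have h4 : q0 / 4 * 2 ^ r * (lam * (8 * Real.exp 1 * lam / x)) ^ r
        ≤ 1 * (lam * (8 * Real.exp 1 * lam / x)) ^ r := by linarith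
    exact le_of_mul_le_mul_right h4 h3
  have hlt : (r : ℝ) < 2 ^ r := by exact_mod_cast Nat.lt_two_pow_self
  have hr8 : 8 ≤ q0 * r := by
    have := mul_le_mul_of_nonneg_left hr2 hq00.le
    linarith
  have h9 := mul_lt_mul_of_pos_left hlt hq00
  linarith

/-- In a large `Good` relation there is an independent set of size more than `C √n`. -/
theorem exists_ind (C : ℝ) (hC : 1 ≤ C) : ∃ s0 : ℝ, ∀ (n : ℕ) (E : Fin n → Fin n → Fin n → Prop),
    Good E → ∀ s : ℝ, s0 ≤ s → (n : ℝ) = s ^ 2 → ∃ S : Finset (Fin n), Ind E S ∧ C * s < S.card := by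
  have hC0 : 0 < C := by linarith
  set η : ℝ := 1 / (8 * (64 * C + 1)) with hη
  have hη0 : 0 < η := by positivity
  set K : ℝ := 2 * C / η with hK
  have hK0 : 0 < K := by positivity
  set k : ℕ := ⌈16 * K⌉₊ with hk
  set q0 : ℝ := Real.exp (-(16 * K + 1)) / 2 with hq0
  have hq00 : 0 < q0 := by positivity
  set a0 : ℝ := q0 / (2 * (k + 1)) with ha0
  have ha00 : 0 < a0 := by positivity
  set x : ℝ := a0 ^ 2 / (40960 * C) with hx
  have hx0 : 0 < x := by positivity
  set q : ℕ := ⌈64 * C / x⌉₊ with hq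
  set p : ℝ := 1 / (q + 1 : ℝ) with hp
  have hp0 : 0 < p := by positivity
  set κ : ℝ := (p ^ k * a0 / 16 / C) ^ 4 * x with hκ
  have hκ0 : 0 < κ := by positivity
  set lam : ℝ := Real.exp 1 + C + 16 * Real.exp 1 / κ with hlam
  have hlam0 : 0 < lam := by positivity
  have hl1 : Real.exp 1 ≤ lam := by
    have : 0 < 16 * Real.exp 1 / κ := by positivity
    rw [hlam]; linarith
  have hl2 : C ≤ lam := by
    have : 0 < 16 * Real.exp 1 / κ := by positivity
    have := Real.exp_pos 1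
    rw [hlam]; linarith
  have hl3 : 16 * Real.exp 1 ≤ κ * lam := by
    have h1 : κ * (16 * Real.exp 1 / κ) = 16 * Real.exp 1 := by field_simp
    have h2 : 0 ≤ κ * (Real.exp 1 + C) := by positivity
    rw [hlam]
    linarith
  set c1 : ℝ := 8 / x
  set c2 : ℝ := 16 * C ^ 3 * (q + 1 : ℝ) ^ (2 * k) / a0 ^ 2
  set c3 : ℝ := 80 / (p ^ k * a0)
  set c4 : ℝ := 16 * C
  set c5 : ℝ := 16 * (lam * (9 + 16 * lam * η * Real.log lam + lam / (η * Real.log lam)
      + 6 * lam * C) * K + 4 * lam ^ 4 / (η * Real.log lam))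
  set c6 : ℝ := 262 * lam * C ^ 2 / (q0 * p ^ (2 * k))
  set c7 : ℝ := 32 * lam * C ^ 2 / (q0 * p ^ (3 * k))
  set c8 : ℝ := 64 / (q0 * x)
  refine ⟨max c1 (max c2 (max c3 (max c4 (max c5 (max c6 (max c7 c8)))))), ?_⟩
  intro n E hE s hs hn
  simp only [max_le_iff] at hs
  obtain ⟨h1, h2, h3, h4, h5, h6, h7, h8⟩ := hs
  by_contra hcon
  push Not at hcon
  refine final_step hE (C := C) (lam := lam) (s := s) (η := η) (K := K) (q0 := q0) (a0 := a0)
    (x := x) (p := p) (k := k) (q := q) hC hη hK (Nat.le_ceil _) hq0 ha0 hx (Nat.le_ceil _) hp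
    hl1 hl2 hl3 ?_ ?_ ?_ h4 h5 ?_ ?_ ?_ (by simpa using hn) (fun S hS => hcon S (mem_II.1 hS))
  · have := (div_le_iff₀ hx0).1 h1; linarith
  · have := (div_le_iff₀ (by positivity)).1 h2; linarith
  · have := (div_le_iff₀ (by positivity)).1 h3; linarith
  · have := (div_le_iff₀ (by positivity)).1 h6; linarith
  · have := (div_le_iff₀ (by positivity)).1 h7; linarith
  · have := (div_le_iff₀ (by positivity)).1 h8; linarith

end Pool.Agent.MP_99d303_co
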