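import Pool.Agent.MP_99d303_co.Basic

set_option autoImplicit false
set_option linter.unusedSectionVars false

open Finset

namespace Pool.Agent.MP_99d303_co

variable {V : Type*} [Fintype V] [DecidableEq V]

/-- total codegree (over ordered pairs) inside `S` -/
noncomputable def GG (E : V → V → V → Prop) (S : Finset V) : ℝ :=
  ∑ a ∈ S, ∑ b ∈ S, (cd E a b : ℝ)

/-- codegree of `r` into `S` -/
noncomputable def Gp (E : V → V → V → Prop) (r : V) (S : Finset V) : ℝ :=
  ∑ a ∈ S, (cd E r a : ℝ)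

/-- the Gibbs weight -/
noncomputable def wt (E : V → V → V → Prop) (β τ : ℝ) (S : Finset V) : ℝ :=
  β ^ S.card * Real.exp (-(τ * GG E S))

/-- the partition function -/
noncomputable def ZZ (E : V → V → V → Prop) (β τ : ℝ) : ℝ := ∑ S ∈ II E, wt E β τ S

variable {E : V → V → V → Prop} {β τ : ℝ}

theorem GG_nonneg (S : Finset V) : 0 ≤ GG E S :=
  sum_nonneg fun _ _ => sum_nonneg fun _ _ => Nat.cast_nonneg _

theorem Gp_nonneg (r : V) (S : Finset V) : 0 ≤ Gp E r S :=
  sum_nonneg fun _ _ => Nat.cast_nonneg _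

theorem Gp_mono {r : V} {S T : Finset V} (h : S ⊆ T) : Gp E r S ≤ Gp E r T :=
  sum_le_sum_of_subset_of_nonneg h fun _ _ _ => Nat.cast_nonneg _

theorem cd_le_Gp {r a : V} {S : Finset V} (h : a ∈ S) : (cd E r a : ℝ) ≤ Gp E r S :=
  single_le_sum (f := fun a => (cd E r a : ℝ)) (fun _ _ => Nat.cast_nonneg _) h

theorem wt_pos (hβ : 0 < β) (S : Finset V) : 0 < wt E β τ S := by
  unfold wt; positivity

theorem wt_nonneg (hβ : 0 < β) (S : Finset V) : 0 ≤ wt E β τ S := (wt_pos hβ S).le

theorem GG_empty : GG E (∅ : Finset V) = 0 := by simp [GG]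

theorem wt_empty : wt E β τ (∅ : Finset V) = 1 := by simp [wt, GG_empty]

theorem GG_union (hE : Good E) {S R : Finset V} (h : Disjoint S R) :
    GG E (S ∪ R) = GG E S + 2 * ∑ r ∈ R, Gp E r S + GG E R := by
  unfold GG Gp
  rw [sum_union h]
  simp_rw [sum_union h]
  rw [sum_add_distrib, sum_add_distrib]
  have : ∑ x ∈ S, ∑ x_1 ∈ R, (cd E x x_1 : ℝ) = ∑ x ∈ R, ∑ x_1 ∈ S, (cd E x x_1 : ℝ) := by
    rw [sum_comm]
    apply sum_congr rfl; intro x _
    apply sum_congr rfl; intro y _
    rw [hE.cd_comm]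
  rw [this]; ring

theorem GG_insert (hE : Good E) {S : Finset V} {r : V} (h : r ∉ S) :
    GG E (insert r S) = GG E S + 2 * Gp E r S := by
  have h1 : insert r S = S ∪ {r} := by rw [union_comm]; rfl
  have h2 : Disjoint S {r} := by rwa [disjoint_singleton_right]
  rw [h1, GG_union hE h2]
  simp [GG, hE.cd_self]

theorem GG_mono {S T : Finset V} (h : S ⊆ T) : GG E S ≤ GG E T := by
  unfold GG
  calc ∑ a ∈ S, ∑ b ∈ S, (cd E a b : ℝ) ≤ ∑ a ∈ S, ∑ b ∈ T, (cd E a b : ℝ) :=
        sum_le_sum fun a _ => sum_le_sum_of_subset_of_nonneg h fun _ _ _ => Nat.cast_nonneg _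
    _ ≤ ∑ a ∈ T, ∑ b ∈ T, (cd E a b : ℝ) :=
        sum_le_sum_of_subset_of_nonneg h fun _ _ _ => sum_nonneg fun _ _ => Nat.cast_nonneg _

theorem wt_insert (hE : Good E) {S : Finset V} {r : V} (h : r ∉ S) :
    wt E β τ (insert r S) = wt E β τ S * (β * Real.exp (-(2 * τ * Gp E r S))) := by
  unfold wt
  rw [card_insert_of_notMem h, GG_insert hE h, pow_succ]
  have : Real.exp (-(τ * (GG E S + 2 * Gp E r S)))
      = Real.exp (-(τ * GG E S)) * Real.exp (-(2 * τ * Gp E r S)) := by
    rw [← Real.exp_add]; congr 1; ring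
  rw [this]; ring

theorem wt_insert_le (hE : Good E) (hβ : 0 < β) (hτ : 0 ≤ τ) {S : Finset V} {r : V} (h : r ∉ S) :
    wt E β τ (insert r S) ≤ β * wt E β τ S := by
  rw [wt_insert hE h]
  have h1 : Real.exp (-(2 * τ * Gp E r S)) ≤ 1 := by
    rw [Real.exp_le_one_iff]
    have := Gp_nonneg (E := E) r S
    have : 0 ≤ 2 * τ * Gp E r S := by positivity
    linarith
  have h2 := wt_nonneg (E := E) (τ := τ) hβ S
  calc wt E β τ S * (β * Real.exp (-(2 * τ * Gp E r S))) ≤ wt E β τ S * (β * 1) := by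
        gcongr
    _ = β * wt E β τ S := by ring

theorem ZZ_ge_one (hβ : 0 < β) : 1 ≤ ZZ E β τ := by
  unfold ZZ
  rw [← wt_empty (E := E) (β := β) (τ := τ)]
  exact single_le_sum (f := fun S => wt E β τ S) (fun S _ => wt_nonneg hβ S) empty_mem_II

theorem ZZ_pos (hβ : 0 < β) : 0 < ZZ E β τ := lt_of_lt_of_le one_pos (ZZ_ge_one hβ)

/-- requiring one more vertex costs a factor `β` -/
theorem cost_single (hE : Good E) (hβ : 0 < β) (hτ : 0 ≤ τ) (A : Finset V) {x : V} (hx : x ∉ A) :
    ∑ S ∈ II E, (if A ⊆ S ∧ x ∈ S then wt E β τ S else 0)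
      ≤ β * ∑ S ∈ II E, (if A ⊆ S then wt E β τ S else 0) := by
  rw [← sum_filter, ← sum_filter, mul_sum]
  have himg : ((II E).filter (fun S => A ⊆ S ∧ x ∈ S)).image (fun S => S.erase x)
      ⊆ (II E).filter (fun S => A ⊆ S) := by
    intro T hT
    rw [mem_image] at hT
    obtain ⟨S, hS, rfl⟩ := hT
    rw [mem_filter] at hS ⊢
    refine ⟨mem_II.2 ((mem_II.1 hS.1).mono (erase_subset _ _)), ?_⟩
    intro a ha
    rw [mem_erase]
    exact ⟨fun h => hx (h ▸ ha), hS.2.1 ha⟩
  calc ∑ S ∈ (II E).filter (fun S => A ⊆ S ∧ x ∈ S), wt E β τ S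
      ≤ ∑ S ∈ (II E).filter (fun S => A ⊆ S ∧ x ∈ S), β * wt E β τ (S.erase x) := by
        apply sum_le_sum
        intro S hS
        rw [mem_filter] at hS
        have h1 : S = insert x (S.erase x) := (insert_erase hS.2.2).symm
        have h2 := wt_insert_le hE hβ hτ (S := S.erase x) (r := x) (notMem_erase _ _)
        rw [← h1] at h2
        exact h2
    _ = ∑ T ∈ ((II E).filter (fun S => A ⊆ S ∧ x ∈ S)).image (fun S => S.erase x),
          β * wt E β τ T := by
        rw [sum_image]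
        intro S hS T hT hST
        simp only [coe_filter, Set.mem_ofPred_eq] at hS hT
        have : insert x (S.erase x) = insert x (T.erase x) := by
          simp only at hST; rw [hST]
        rwa [insert_erase hS.2.2, insert_erase hT.2.2] at this
    _ ≤ ∑ T ∈ (II E).filter (fun S => A ⊆ S), β * wt E β τ T :=
        sum_le_sum_of_subset_of_nonneg himg fun T _ _ => mul_nonneg hβ.le (wt_nonneg hβ T)

/-- general cost lemma -/
theorem cost (hE : Good E) (hβ : 0 < β) (hτ : 0 ≤ τ) {ι : Type*} [Fintype ι]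
    (a : ι → ℝ) (ha : ∀ i, 0 ≤ a i) (supp W : ι → Finset V) (c : ℝ) (hc : 0 ≤ c)
    (hW : ∀ i, a i ≠ 0 → ((W i).card : ℝ) ≤ c) :
    ∑ S ∈ II E, wt E β τ S * ∑ i, a i *
        (if supp i ⊆ S then (((W i ∩ S) \ supp i).card : ℝ) else 0)
      ≤ c * β * ∑ S ∈ II E, wt E β τ S * ∑ i, a i * (if supp i ⊆ S then (1 : ℝ) else 0) := by
  classical
  have step : ∀ i, ∑ S ∈ II E, wt E β τ S * (a i *
        (if supp i ⊆ S then (((W i ∩ S) \ supp i).card : ℝ) else 0))
      ≤ c * β * ∑ S ∈ II E, wt E β τ S * (a i * (if supp i ⊆ S then (1 : ℝ) else 0)) := by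
    intro i
    by_cases hai : a i = 0
    · simp [hai]
    have hpos : 0 ≤ a i := ha i
    have e1 : ∀ S : Finset V, (if supp i ⊆ S then (((W i ∩ S) \ supp i).card : ℝ) else 0)
        = ∑ x ∈ W i \ supp i, (if supp i ⊆ S ∧ x ∈ S then (1 : ℝ) else 0) := by
      intro S
      by_cases hS : supp i ⊆ S
      · simp only [hS, if_true, true_and]
        rw [← sum_filter, sum_const, nsmul_eq_mul, mul_one]
        congr 2
        ext x
        simp only [mem_sdiff, mem_inter, mem_filter]
        tauto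
      · simp [hS]
    have e2 : ∑ S ∈ II E, wt E β τ S * (a i *
        (if supp i ⊆ S then (((W i ∩ S) \ supp i).card : ℝ) else 0))
        = a i * ∑ x ∈ W i \ supp i, ∑ S ∈ II E,
            (if supp i ⊆ S ∧ x ∈ S then wt E β τ S else 0) := by
      rw [sum_comm, mul_sum]
      apply sum_congr rfl
      intro S _
      rw [e1, mul_sum, mul_sum, mul_sum]
      apply sum_congr rfl
      intro x _
      split_ifs <;> ring
    rw [e2]
    have e3 : ∑ x ∈ W i \ supp i, ∑ S ∈ II E,
            (if supp i ⊆ S ∧ x ∈ S then wt E β τ S else 0)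
        ≤ c * (β * ∑ S ∈ II E, (if supp i ⊆ S then wt E β τ S else 0)) := by
      calc ∑ x ∈ W i \ supp i, ∑ S ∈ II E,
            (if supp i ⊆ S ∧ x ∈ S then wt E β τ S else 0)
          ≤ ∑ _x ∈ W i \ supp i, (β * ∑ S ∈ II E, (if supp i ⊆ S then wt E β τ S else 0)) := by
            apply sum_le_sum
            intro x hx
            exact cost_single hE hβ hτ _ (mem_sdiff.1 hx).2
        _ = ((W i \ supp i).card : ℝ) * (β * ∑ S ∈ II E, (if supp i ⊆ S then wt E β τ S else 0)) := by
            rw [sum_const, nsmul_eq_mul]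
        _ ≤ _ := by
            apply mul_le_mul_of_nonneg_right
            · calc ((W i \ supp i).card : ℝ) ≤ ((W i).card : ℝ) := by
                    exact_mod_cast card_le_card sdiff_subset
                _ ≤ c := hW i hai
            · apply mul_nonneg hβ.le
              apply sum_nonneg
              intro S _
              split_ifs
              · exact wt_nonneg hβ S
              · exact le_refl _
    calc a i * _ ≤ a i * (c * (β * ∑ S ∈ II E, (if supp i ⊆ S then wt E β τ S else 0))) :=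
          mul_le_mul_of_nonneg_left e3 hpos
      _ = c * β * ∑ S ∈ II E, wt E β τ S * (a i * (if supp i ⊆ S then (1 : ℝ) else 0)) := by
          rw [mul_sum, mul_sum, mul_sum, mul_sum]
          apply sum_congr rfl
          intro S _
          split_ifs <;> ring
  have l : ∑ S ∈ II E, wt E β τ S * ∑ i, a i *
        (if supp i ⊆ S then (((W i ∩ S) \ supp i).card : ℝ) else 0)
      = ∑ i, ∑ S ∈ II E, wt E β τ S * (a i *
        (if supp i ⊆ S then (((W i ∩ S) \ supp i).card : ℝ) else 0)) := by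
    simp_rw [mul_sum]
    rw [sum_comm]
  have r : c * β * ∑ S ∈ II E, wt E β τ S * ∑ i, a i * (if supp i ⊆ S then (1 : ℝ) else 0)
      = ∑ i, c * β * ∑ S ∈ II E, wt E β τ S * (a i * (if supp i ⊆ S then (1 : ℝ) else 0)) := by
    simp_rw [mul_sum]
    rw [sum_comm]
  rw [l, r]
  exact sum_le_sum fun i _ => step i

end Pool.Agent.MP_99d303_co
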