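import Pool.Agent.MP_99d303_co.Mu

set_option autoImplicit false
set_option linter.unusedSectionVars false

open Finset

namespace Pool.Agent.MP_99d303_co

variable {V : Type*} [Fintype V] [DecidableEq V]
variable {E : V → V → V → Prop} {β τ : ℝ}

/-- `x, b` is a link edge at `v` both of whose pairs with `v` are light -/
def LLr (E : V → V → V → Prop) (v x b : V) : Prop :=
  E v x b ∧ cd E v x ≤ 2 ∧ cd E v b ≤ 2

theorem LLr.symm (hE : Good E) {v x b : V} (h : LLr E v x b) : LLr E v b x :=
  ⟨hE.swap23 h.1, h.2.2, h.2.1⟩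

open scoped Classical in
/-- vertices available in `S` and `LL`-linked through `v` to `S` -/
noncomputable def YY (E : V → V → V → Prop) (v : V) (S : Finset V) : Finset V :=
  univ.filter (fun r => r ∉ S ∧ Ind E (insert r S) ∧ ∃ b ∈ S, LLr E v r b)

noncomputable def phi (E : V → V → V → Prop) (β τ : ℝ) (v : V) (S : Finset V) : ℝ :=
  ∑ r ∈ YY E v S, β * Real.exp (-(2 * τ * Gp E r S))

/-- `S` has no `LL`-conflict with `v` -/
def LLfree (E : V → V → V → Prop) (v : V) (S : Finset V) : Prop :=
  ∀ x ∈ S, ∀ b ∈ S, ¬ LLr E v x b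

theorem exists_core (hE : Good E) (v : V) (S : Finset V) :
    ∃ T ⊆ S, LLfree E v T ∧ ∀ r ∈ S, r ∉ T → ∃ b ∈ T, LLr E v r b := by
  classical
  have hne : (S.powerset.filter (fun T => LLfree E v T)).Nonempty := by
    refine ⟨∅, ?_⟩
    rw [mem_filter, mem_powerset]
    exact ⟨empty_subset _, fun x hx => absurd hx (notMem_empty _)⟩
  obtain ⟨T, hT, hmax⟩ := exists_max_image _ (fun T : Finset V => T.card) hne
  rw [mem_filter, mem_powerset] at hT
  refine ⟨T, hT.1, hT.2, ?_⟩
  intro r hr hrT
  by_contra hcon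
  push Not at hcon
  have h1 : LLfree E v (insert r T) := by
    intro x hx b hb hxb
    rw [mem_insert] at hx hb
    rcases hx with rfl | hx
    · rcases hb with rfl | hb
      · exact hE.ne23 hxb.1 rfl
      · exact hcon b hb hxb
    · rcases hb with rfl | hb
      · exact hcon x hx (hxb.symm hE)
      · exact hT.2 x hx b hb hxb
  have h2 := hmax (insert r T) (by
    rw [mem_filter, mem_powerset]
    exact ⟨insert_subset hr hT.1, h1⟩)
  rw [card_insert_of_notMem hrT] at h2
  omega

/-- a maximal subset without `LL`-conflicts at `v` -/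
noncomputable def core (hE : Good E) (v : V) (S : Finset V) : Finset V :=
  (exists_core hE v S).choose

theorem core_subset (hE : Good E) (v : V) (S : Finset V) : core hE v S ⊆ S :=
  (exists_core hE v S).choose_spec.1

theorem core_free (hE : Good E) (v : V) (S : Finset V) : LLfree E v (core hE v S) :=
  (exists_core hE v S).choose_spec.2.1

theorem core_max (hE : Good E) (v : V) (S : Finset V) {r : V} (hr : r ∈ S)
    (hr' : r ∉ core hE v S) : ∃ b ∈ core hE v S, LLr E v r b :=
  (exists_core hE v S).choose_spec.2.2 r hr hr'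

theorem sdiff_core_subset (hE : Good E) {v : V} {S : Finset V} (hS : Ind E S) :
    S \ core hE v S ⊆ YY E v (core hE v S) := by
  classical
  intro r hr
  rw [mem_sdiff] at hr
  rw [YY, mem_filter]
  refine ⟨mem_univ _, hr.2, ?_, core_max hE v S hr.1 hr.2⟩
  exact hS.mono (insert_subset hr.1 (core_subset hE v S))

theorem wt_union_le (hE : Good E) (hβ : 0 < β) (hτ : 0 ≤ τ) {S R : Finset V} (h : Disjoint S R) :
    wt E β τ (S ∪ R) ≤ wt E β τ S * ∏ r ∈ R, (β * Real.exp (-(2 * τ * Gp E r S))) := by
  rw [prod_mul_distrib, prod_const, ← Real.exp_sum, wt, wt, card_union_of_disjoint h, pow_add,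
    GG_union hE h]
  have h1 : Real.exp (-(τ * (GG E S + 2 * ∑ r ∈ R, Gp E r S + GG E R)))
      ≤ Real.exp (-(τ * GG E S)) * Real.exp (∑ r ∈ R, -(2 * τ * Gp E r S)) := by
    rw [← Real.exp_add]
    apply Real.exp_le_exp.2
    rw [sum_neg_distrib, ← mul_sum]
    have := mul_nonneg hτ (GG_nonneg (E := E) R)
    nlinarith
  calc β ^ S.card * β ^ R.card * Real.exp (-(τ * (GG E S + 2 * ∑ r ∈ R, Gp E r S + GG E R)))
      ≤ β ^ S.card * β ^ R.card * (Real.exp (-(τ * GG E S)) *
        Real.exp (∑ r ∈ R, -(2 * τ * Gp E r S))) := by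
        apply mul_le_mul_of_nonneg_left h1; positivity
    _ = _ := by ring

/-- the weight of the fibre over `T` -/
theorem fibre_le (hE : Good E) (hβ : 0 < β) (hτ : 0 ≤ τ) (v : V) (T : Finset V)
    (F : Finset (Finset V)) (hF : ∀ S ∈ F, Ind E S ∧ core hE v S = T) :
    ∑ S ∈ F, wt E β τ S ≤ wt E β τ T * Real.exp (phi E β τ v T) := by
  classical
  have hinj : Set.InjOn (fun S : Finset V => S \ T) F := by
    intro S hS S' hS' h
    have h1 : T ⊆ S := by rw [← (hF S hS).2]; exact core_subset hE v S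
    have h2 : T ⊆ S' := by rw [← (hF S' hS').2]; exact core_subset hE v S'
    have h3 : S \ T ∪ T = S := sdiff_union_of_subset h1
    have h4 : S' \ T ∪ T = S' := sdiff_union_of_subset h2
    simp only at h
    rw [← h3, ← h4, h]
  calc ∑ S ∈ F, wt E β τ S
      ≤ ∑ S ∈ F, wt E β τ T * ∏ r ∈ S \ T, (β * Real.exp (-(2 * τ * Gp E r T))) := by
        apply sum_le_sum
        intro S hS
        have h1 : T ⊆ S := by rw [← (hF S hS).2]; exact core_subset hE v S
        have h2 : T ∪ S \ T = S := union_sdiff_of_subset h1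
        have h3 := wt_union_le (E := E) (β := β) (τ := τ) hE hβ hτ (S := T) (R := S \ T)
          disjoint_sdiff
        rwa [h2] at h3
    _ = ∑ R ∈ F.image (fun S => S \ T), wt E β τ T * ∏ r ∈ R, (β * Real.exp (-(2 * τ * Gp E r T))) := by
        rw [sum_image hinj]
    _ ≤ ∑ R ∈ (YY E v T).powerset, wt E β τ T * ∏ r ∈ R, (β * Real.exp (-(2 * τ * Gp E r T))) := by
        apply sum_le_sum_of_subset_of_nonneg
        · intro R hR
          rw [mem_image] at hR
          obtain ⟨S, hS, rfl⟩ := hR
          rw [mem_powerset]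
          have := sdiff_core_subset hE (v := v) (hF S hS).1
          rwa [(hF S hS).2] at this
        · intro R _ _
          have := wt_nonneg (E := E) (τ := τ) hβ T
          positivity
    _ = wt E β τ T * ∏ r ∈ YY E v T, (1 + β * Real.exp (-(2 * τ * Gp E r T))) := by
        rw [← mul_sum, prod_one_add]
    _ ≤ wt E β τ T * Real.exp (phi E β τ v T) := by
        apply mul_le_mul_of_nonneg_left _ (wt_nonneg hβ T)
        rw [phi, Real.exp_sum]
        apply prod_le_prod
        · intro r _; positivity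
        · intro r _
          rw [add_comm]
          exact Real.add_one_le_exp _

theorem exists_edge_of_not_ind (hE : Good E) {S : Finset V} {u : V} (hS : Ind E S)
    (h : ¬ Ind E (insert u S)) : ∃ x ∈ S, ∃ y ∈ S, E u x y := by
  unfold Ind at h
  push Not at h
  obtain ⟨p, hp, q, hq, r, hr, hpqr⟩ := h
  rw [mem_insert] at hp hq hr
  rcases hp with rfl | hp
  · have h1 : q ∈ S := hq.resolve_left (fun h => hE.ne12 hpqr h.symm)
    have h2 : r ∈ S := hr.resolve_left (fun h => hE.ne13 hpqr h.symm)
    exact ⟨q, h1, r, h2, hpqr⟩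
  · rcases hq with rfl | hq
    · have h2 : r ∈ S := hr.resolve_left (fun h => hE.ne23 hpqr h.symm)
      exact ⟨p, hp, r, h2, hE.swap12 hpqr⟩
    · rcases hr with rfl | hr
      · exact ⟨p, hp, q, hq, hE.rot' hpqr⟩
      · exact absurd hpqr (hS p hp q hq r hr)

open scoped Classical in
/-- the error term in the comparison of `phi` before and after removing conflicts -/
noncomputable def err (E : V → V → V → Prop) (β τ : ℝ) (v : V) (S : Finset V) : ℝ :=
  β * (∑ x, ∑ b, (if x ∈ S ∧ b ∈ S ∧ LLr E v x b then (1 : ℝ) else 0))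
  + β * ∑ x, ∑ b, ∑ u, ∑ b', (if x ∈ S ∧ b ∈ S ∧ u ∉ S ∧ b' ∈ S ∧ LLr E v x b ∧ LLr E v u b' then
      Real.exp (-(2 * τ * cd E u b')) * (if ∃ y ∈ S, E u x y then (1 : ℝ) else 0)
        + min 1 (2 * τ * cd E u x) else 0)

theorem phi_core_le (hE : Good E) (hβ : 0 < β) (hτ : 0 ≤ τ) (v : V) {S : Finset V}
    (hS : Ind E S) :
    phi E β τ v (core hE v S) ≤ phi E β τ v S + err E β τ v S := by
  classical
  set T := core hE v S with hT
  have hTS : T ⊆ S := core_subset hE v S
  -- pointwise bound
  have hterm : ∀ x b u b' : V, (0 : ℝ) ≤ (if x ∈ S ∧ b ∈ S ∧ u ∉ S ∧ b' ∈ S ∧ LLr E v x b ∧ LLr E v u b' then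
      Real.exp (-(2 * τ * cd E u b')) * (if ∃ y ∈ S, E u x y then (1 : ℝ) else 0)
        + min 1 (2 * τ * cd E u x) else 0) := by
    intro x b u b'
    split_ifs <;> positivity
  have key : ∀ u, (if u ∈ YY E v T then β * Real.exp (-(2 * τ * Gp E u T)) else 0)
      ≤ (if u ∈ YY E v S then β * Real.exp (-(2 * τ * Gp E u S)) else 0)
        + β * (∑ b, (if u ∈ S ∧ b ∈ S ∧ LLr E v u b then (1 : ℝ) else 0))
        + β * ∑ x, ∑ b, ∑ b', (if x ∈ S ∧ b ∈ S ∧ u ∉ S ∧ b' ∈ S ∧ LLr E v x b ∧ LLr E v u b' then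
      Real.exp (-(2 * τ * cd E u b')) * (if ∃ y ∈ S, E u x y then (1 : ℝ) else 0)
        + min 1 (2 * τ * cd E u x) else 0) := by
    intro u
    have n1 : (0 : ℝ) ≤ (if u ∈ YY E v S then β * Real.exp (-(2 * τ * Gp E u S)) else 0) := by
      split_ifs <;> positivity
    have n2 : (0 : ℝ) ≤ β * (∑ b, (if u ∈ S ∧ b ∈ S ∧ LLr E v u b then (1 : ℝ) else 0)) := by
      apply mul_nonneg hβ.le
      apply sum_nonneg
      intro b _
      split_ifs <;> norm_num
    have n3 : (0 : ℝ) ≤ β * ∑ x, ∑ b, ∑ b', (if x ∈ S ∧ b ∈ S ∧ u ∉ S ∧ b' ∈ S ∧ LLr E v x b ∧ LLr E v u b' then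
      Real.exp (-(2 * τ * cd E u b')) * (if ∃ y ∈ S, E u x y then (1 : ℝ) else 0)
        + min 1 (2 * τ * cd E u x) else 0) := by
      apply mul_nonneg hβ.le
      apply sum_nonneg; intro x _
      apply sum_nonneg; intro b _
      apply sum_nonneg; intro b' _
      exact hterm x b u b'
    by_cases hu : u ∈ YY E v T
    swap
    · rw [if_neg hu]; linarith
    rw [if_pos hu]
    have hu' := hu
    rw [YY, mem_filter] at hu'
    obtain ⟨-, huT, hind, b', hb', hub'⟩ := hu'
    have hexp1 : Real.exp (-(2 * τ * Gp E u T)) ≤ 1 := by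
      rw [Real.exp_le_one_iff]
      have := Gp_nonneg (E := E) u T
      have : 0 ≤ 2 * τ * Gp E u T := by positivity
      linarith
    by_cases huS : u ∈ S
    · -- `u` was removed
      have h1 : (1 : ℝ) ≤ ∑ b, (if u ∈ S ∧ b ∈ S ∧ LLr E v u b then (1 : ℝ) else 0) := by
        have := single_le_sum (f := fun b => (if u ∈ S ∧ b ∈ S ∧ LLr E v u b then (1 : ℝ) else 0))
          (fun b _ => by split_ifs <;> norm_num) (mem_univ b')
        rwa [if_pos ⟨huS, hTS hb', hub'⟩] at this
      have h2 : β * Real.exp (-(2 * τ * Gp E u T)) ≤ β * 1 := mul_le_mul_of_nonneg_left hexp1 hβ.le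
      have h3 : β * 1 ≤ β * (∑ b, (if u ∈ S ∧ b ∈ S ∧ LLr E v u b then (1 : ℝ) else 0)) :=
        mul_le_mul_of_nonneg_left h1 hβ.le
      linarith
    -- lower bound for the triple sum by the sum over `x ∈ S \ T`
    have hlow : ∑ x ∈ S \ T, (Real.exp (-(2 * τ * cd E u b')) * (if ∃ y ∈ S, E u x y then (1 : ℝ) else 0)
        + min 1 (2 * τ * cd E u x))
        ≤ ∑ x, ∑ b, ∑ b', (if x ∈ S ∧ b ∈ S ∧ u ∉ S ∧ b' ∈ S ∧ LLr E v x b ∧ LLr E v u b' then
      Real.exp (-(2 * τ * cd E u b')) * (if ∃ y ∈ S, E u x y then (1 : ℝ) else 0)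
        + min 1 (2 * τ * cd E u x) else 0) := by
      calc ∑ x ∈ S \ T, (Real.exp (-(2 * τ * cd E u b')) * (if ∃ y ∈ S, E u x y then (1 : ℝ) else 0)
        + min 1 (2 * τ * cd E u x))
          ≤ ∑ x ∈ S \ T, ∑ b, ∑ b', (if x ∈ S ∧ b ∈ S ∧ u ∉ S ∧ b' ∈ S ∧ LLr E v x b ∧ LLr E v u b' then
      Real.exp (-(2 * τ * cd E u b')) * (if ∃ y ∈ S, E u x y then (1 : ℝ) else 0)
        + min 1 (2 * τ * cd E u x) else 0) := by
            apply sum_le_sum
            intro x hx
            rw [mem_sdiff] at hx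
            obtain ⟨b, hb, hxb⟩ := core_max hE v S hx.1 (by rw [← hT]; exact hx.2)
            have h1 := single_le_sum (f := fun b => ∑ b', (if x ∈ S ∧ b ∈ S ∧ u ∉ S ∧ b' ∈ S ∧ LLr E v x b ∧ LLr E v u b' then
      Real.exp (-(2 * τ * cd E u b')) * (if ∃ y ∈ S, E u x y then (1 : ℝ) else 0)
        + min 1 (2 * τ * cd E u x) else 0))
              (fun b _ => sum_nonneg fun b' _ => hterm x b u b') (mem_univ b)
            have h2 := single_le_sum (f := fun b' => (if x ∈ S ∧ b ∈ S ∧ u ∉ S ∧ b' ∈ S ∧ LLr E v x b ∧ LLr E v u b' then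
      Real.exp (-(2 * τ * cd E u b')) * (if ∃ y ∈ S, E u x y then (1 : ℝ) else 0)
        + min 1 (2 * τ * cd E u x) else 0))
              (fun b' _ => hterm x b u b') (mem_univ b')
            rw [if_pos ⟨hx.1, hTS (by rw [hT]; exact hb), huS, hTS hb', hxb, hub'⟩] at h2
            exact le_trans h2 h1
        _ ≤ _ := by
            apply sum_le_sum_of_subset_of_nonneg (subset_univ _)
            intro x _ _
            apply sum_nonneg; intro b _
            apply sum_nonneg; intro b' _
            exact hterm x b u b'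
    by_cases hindS : Ind E (insert u S)
    · -- still available
      have huYS : u ∈ YY E v S := by
        rw [YY, mem_filter]
        exact ⟨mem_univ _, huS, hindS, b', hTS hb', hub'⟩
      rw [if_pos huYS]
      have hG : Gp E u S = Gp E u T + ∑ x ∈ S \ T, (cd E u x : ℝ) := by
        unfold Gp
        rw [← sum_sdiff hTS]; ring
      have hle : Real.exp (-(2 * τ * Gp E u T)) ≤ Real.exp (-(2 * τ * Gp E u S))
          + ∑ x ∈ S \ T, min 1 (2 * τ * (cd E u x : ℝ)) := by
        set A := 2 * τ * Gp E u T with hA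
        set B := ∑ x ∈ S \ T, 2 * τ * (cd E u x : ℝ) with hB
        have hAB : 2 * τ * Gp E u S = A + B := by
          rw [hG, hA, hB, ← mul_sum]; ring
        rw [hAB]
        have hA0 : 0 ≤ A := by
          rw [hA]; have := Gp_nonneg (E := E) u T; positivity
        have hB0 : ∀ x ∈ S \ T, 0 ≤ 2 * τ * (cd E u x : ℝ) := fun x _ => by positivity
        have h1 : 1 - Real.exp (-B) ≤ min 1 B := by
          apply le_min
          · have := Real.exp_pos (-B); linarith
          · have := Real.add_one_le_exp (-B); linarith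
        have h2 : min 1 B ≤ ∑ x ∈ S \ T, min 1 (2 * τ * (cd E u x : ℝ)) := by
          rw [hB]
          have gen : ∀ (F : Finset V) (f : V → ℝ), (∀ x ∈ F, 0 ≤ f x) →
              min 1 (∑ x ∈ F, f x) ≤ ∑ x ∈ F, min 1 (f x) := by
            intro F f
            induction F using Finset.induction_on with
            | empty => intro _; simp
            | insert a F ha ih =>
              intro hf
              rw [sum_insert ha, sum_insert ha]
              have i1 := ih (fun x hx => hf x (mem_insert_of_mem hx))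
              have i2 := hf a (mem_insert_self a F)
              have i3 : 0 ≤ ∑ x ∈ F, f x := sum_nonneg fun x hx => hf x (mem_insert_of_mem hx)
              have i4 : min 1 (f a + ∑ x ∈ F, f x) ≤ min 1 (f a) + min 1 (∑ x ∈ F, f x) := by
                rcases le_total 1 (f a) with h | h <;> rcases le_total 1 (∑ x ∈ F, f x) with h' | h'
                · rw [min_eq_left h, min_eq_left h']
                  have := min_le_left 1 (f a + ∑ x ∈ F, f x); linarith
                · rw [min_eq_left h, min_eq_right h']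
                  have := min_le_left 1 (f a + ∑ x ∈ F, f x); linarith
                · rw [min_eq_right h, min_eq_left h']
                  have := min_le_left 1 (f a + ∑ x ∈ F, f x); linarith
                · rw [min_eq_right h, min_eq_right h']
                  exact min_le_right _ _
              linarith
          exact gen _ _ hB0
        have h3 : Real.exp (-A) ≤ 1 := by rw [Real.exp_le_one_iff]; linarith
        have h4 : Real.exp (-(A + B)) = Real.exp (-A) * Real.exp (-B) := by
          rw [← Real.exp_add]; congr 1; ring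
        have h5 : 0 ≤ 1 - Real.exp (-B) := by
          have : Real.exp (-B) ≤ 1 := by
            rw [Real.exp_le_one_iff]
            have : 0 ≤ B := sum_nonneg hB0
            linarith
          linarith
        have h6 : Real.exp (-A) * (1 - Real.exp (-B)) ≤ 1 * (1 - Real.exp (-B)) :=
          mul_le_mul_of_nonneg_right h3 h5
        rw [h4]
        nlinarith
      have hle2 : ∑ x ∈ S \ T, min 1 (2 * τ * (cd E u x : ℝ))
          ≤ ∑ x ∈ S \ T, (Real.exp (-(2 * τ * cd E u b')) * (if ∃ y ∈ S, E u x y then (1 : ℝ) else 0)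
        + min 1 (2 * τ * cd E u x)) := by
        apply sum_le_sum
        intro x _
        have : (0 : ℝ) ≤ Real.exp (-(2 * τ * cd E u b')) * (if ∃ y ∈ S, E u x y then (1 : ℝ) else 0) := by
          split_ifs <;> positivity
        linarith
      have h7 := mul_le_mul_of_nonneg_left (le_trans hle (add_le_add_right (le_trans hle2 hlow) _)) hβ.le
      rw [mul_add] at h7
      linarith
    · -- became blocked: an edge `u x y` with `x` removed
      have hex : ∃ x ∈ S \ T, ∃ y ∈ S, E u x y := by
        obtain ⟨x, hx, y, hy, hxy⟩ := exists_edge_of_not_ind hE hS hindS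
        by_cases hxT : x ∈ T
        · have hyT : y ∉ T := by
            intro hyT
            exact hind u (mem_insert_self _ _) x (mem_insert_of_mem hxT) y
              (mem_insert_of_mem hyT) hxy
          exact ⟨y, mem_sdiff.2 ⟨hy, hyT⟩, x, hx, hE.swap23 hxy⟩
        · exact ⟨x, mem_sdiff.2 ⟨hx, hxT⟩, y, hy, hxy⟩
      obtain ⟨x, hx, y, hy, hxy⟩ := hex
      have h1 : Real.exp (-(2 * τ * Gp E u T)) ≤ Real.exp (-(2 * τ * cd E u b')) := by
        apply Real.exp_le_exp.2
        have := mul_le_mul_of_nonneg_left (cd_le_Gp (E := E) (r := u) hb')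
          (show 0 ≤ 2 * τ by positivity)
        linarith
      have h2 : Real.exp (-(2 * τ * cd E u b')) ≤
          ∑ x ∈ S \ T, (Real.exp (-(2 * τ * cd E u b')) * (if ∃ y ∈ S, E u x y then (1 : ℝ) else 0)
        + min 1 (2 * τ * cd E u x)) := by
        have h3 := single_le_sum (f := fun x => (Real.exp (-(2 * τ * cd E u b')) * (if ∃ y ∈ S, E u x y then (1 : ℝ) else 0)
        + min 1 (2 * τ * cd E u x))) (fun x _ => by split_ifs <;> positivity) hx
        rw [if_pos ⟨y, hy, hxy⟩] at h3
        have : (0 : ℝ) ≤ min 1 (2 * τ * (cd E u x : ℝ)) := by positivity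
        linarith
      have h7 := mul_le_mul_of_nonneg_left (le_trans h1 (le_trans h2 hlow)) hβ.le
      linarith
  have hA : ∀ S' : Finset V, phi E β τ v S' = ∑ u, (if u ∈ YY E v S' then β * Real.exp (-(2 * τ * Gp E u S')) else 0) := by
    intro S'
    rw [sum_ite_mem]; rfl
  rw [hA T, hA S]
  calc ∑ u, (if u ∈ YY E v T then β * Real.exp (-(2 * τ * Gp E u T)) else 0)
      ≤ ∑ u, ((if u ∈ YY E v S then β * Real.exp (-(2 * τ * Gp E u S)) else 0)
        + β * (∑ b, (if u ∈ S ∧ b ∈ S ∧ LLr E v u b then (1 : ℝ) else 0))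
        + β * ∑ x, ∑ b, ∑ b', (if x ∈ S ∧ b ∈ S ∧ u ∉ S ∧ b' ∈ S ∧ LLr E v x b ∧ LLr E v u b' then
      Real.exp (-(2 * τ * cd E u b')) * (if ∃ y ∈ S, E u x y then (1 : ℝ) else 0)
        + min 1 (2 * τ * cd E u x) else 0)) := sum_le_sum fun u _ => key u
    _ = _ := by
        rw [sum_add_distrib, sum_add_distrib, ← mul_sum, ← mul_sum, err, add_assoc]
        congr 3
        rw [sum_comm]
        apply sum_congr rfl; intro x _
        rw [sum_comm]

end Pool.Agent.MP_99d303_co
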