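import Pool.Agent.MP_99d303_co.Gibbs

set_option autoImplicit false
set_option linter.unusedSectionVars false

open Finset

namespace Pool.Agent.MP_99d303_co

variable {V : Type*} [Fintype V] [DecidableEq V]
variable {E : V → V → V → Prop} {β τ : ℝ}

/-- total weight of the independent sets containing `A` -/
noncomputable def mu (E : V → V → V → Prop) (β τ : ℝ) (A : Finset V) : ℝ :=
  ∑ S ∈ II E, (if A ⊆ S then wt E β τ S else 0)

theorem mu_nonneg (hβ : 0 < β) (A : Finset V) : 0 ≤ mu E β τ A := by
  apply sum_nonneg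
  intro S _
  split_ifs
  · exact wt_nonneg hβ S
  · exact le_refl _

theorem mu_insert (hE : Good E) (hβ : 0 < β) (hτ : 0 ≤ τ) (A : Finset V) {x : V} (hx : x ∉ A) :
    mu E β τ (insert x A) ≤ β * mu E β τ A := by
  have h := cost_single hE hβ hτ A hx
  unfold mu
  refine le_trans (le_of_eq ?_) h
  apply sum_congr rfl
  intro S _
  simp only [insert_subset_iff, and_comm]

/-- the expected total codegree -/
noncomputable def Gam (E : V → V → V → Prop) (β τ : ℝ) : ℝ := ∑ S ∈ II E, wt E β τ S * GG E S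

theorem Gam_nonneg (hβ : 0 < β) : 0 ≤ Gam E β τ :=
  sum_nonneg fun S _ => mul_nonneg (wt_nonneg hβ S) (GG_nonneg S)

theorem sum_ite_mem (S : Finset V) (f : V → ℝ) :
    ∑ x, (if x ∈ S then f x else 0) = ∑ x ∈ S, f x := by
  rw [← sum_filter]
  congr 1
  ext x; simp

theorem Gam_eq : Gam E β τ = ∑ x, ∑ b, (cd E x b : ℝ) * mu E β τ {x, b} := by
  unfold Gam mu GG
  simp_rw [mul_sum]
  have e : ∀ S : Finset V, ∑ x ∈ S, ∑ b ∈ S, wt E β τ S * (cd E x b : ℝ)
      = ∑ x, ∑ b, (cd E x b : ℝ) * (if ({x, b} : Finset V) ⊆ S then wt E β τ S else 0) := by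
    intro S
    rw [← sum_ite_mem]
    apply sum_congr rfl
    intro x _
    by_cases hx : x ∈ S
    · simp only [hx, if_true]
      rw [← sum_ite_mem]
      apply sum_congr rfl
      intro b _
      by_cases hb : b ∈ S
      · have : ({x, b} : Finset V) ⊆ S := by
          rw [insert_subset_iff, singleton_subset_iff]; exact ⟨hx, hb⟩
        simp [hb, this]; ring
      · have : ¬ ({x, b} : Finset V) ⊆ S := by
          rw [insert_subset_iff, singleton_subset_iff]; tauto
        simp [hb, this]
    · simp only [hx, if_false]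
      symm
      apply sum_eq_zero
      intro b _
      have : ¬ ({x, b} : Finset V) ⊆ S := by
        rw [insert_subset_iff, singleton_subset_iff]; tauto
      simp [this]
  calc ∑ S ∈ II E, ∑ x ∈ S, ∑ b ∈ S, wt E β τ S * (cd E x b : ℝ)
      = ∑ S ∈ II E, ∑ x, ∑ b, (cd E x b : ℝ) * (if ({x, b} : Finset V) ⊆ S then wt E β τ S else 0) :=
        sum_congr rfl fun S _ => e S
    _ = ∑ x, ∑ S ∈ II E, ∑ b, (cd E x b : ℝ) * (if ({x, b} : Finset V) ⊆ S then wt E β τ S else 0) :=
        sum_comm
    _ = _ := by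
        apply sum_congr rfl
        intro x _
        rw [sum_comm]

/-- summing `mu` over one more vertex -/
theorem sum_mu_insert (hβ : 0 < β) {B : ℝ} (hB : ∀ S ∈ II E, (S.card : ℝ) ≤ B) (A : Finset V) :
    ∑ x, mu E β τ (insert x A) ≤ B * mu E β τ A := by
  unfold mu
  rw [sum_comm, mul_sum]
  apply sum_le_sum
  intro S hS
  by_cases hA : A ⊆ S
  · simp only [hA, if_true]
    have : ∀ x, (if insert x A ⊆ S then wt E β τ S else 0) = if x ∈ S then wt E β τ S else 0 := by
      intro x
      simp [insert_subset_iff, hA]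
    simp_rw [this]
    rw [sum_ite_mem, sum_const, nsmul_eq_mul]
    exact mul_le_mul_of_nonneg_right (hB S hS) (wt_nonneg hβ S)
  · simp only [hA, if_false, mul_zero]
    apply le_of_eq
    apply sum_eq_zero
    intro x _
    rw [if_neg]
    intro h
    exact hA (subset_trans (subset_insert _ _) h)

/-- the tilt makes heavy pairs rare -/
theorem pair_tilt (hE : Good E) (hβ : 0 < β) (hτ : 0 ≤ τ) {x b : V} (hxb : x ≠ b) :
    mu E β τ {x, b} ≤ β ^ 2 * Real.exp (-(2 * τ * cd E x b)) * ZZ E β τ := by
  unfold mu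
  rw [← sum_filter]
  have himg : ((II E).filter (fun S => ({x, b} : Finset V) ⊆ S)).image (fun S => (S.erase x).erase b)
      ⊆ II E := by
    intro T hT
    rw [mem_image] at hT
    obtain ⟨S, hS, rfl⟩ := hT
    rw [mem_filter] at hS
    exact mem_II.2 ((mem_II.1 hS.1).mono
      (subset_trans (erase_subset _ _) (erase_subset _ _)))
  have hmem : ∀ S ∈ (II E).filter (fun S => ({x, b} : Finset V) ⊆ S), x ∈ S ∧ b ∈ S := by
    intro S hS
    rw [mem_filter, insert_subset_iff, singleton_subset_iff] at hS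
    exact hS.2
  have hrec : ∀ S ∈ (II E).filter (fun S => ({x, b} : Finset V) ⊆ S),
      insert x (insert b ((S.erase x).erase b)) = S := by
    intro S hS
    obtain ⟨hx, hb⟩ := hmem S hS
    rw [insert_erase (mem_erase.2 ⟨hxb.symm, hb⟩), insert_erase hx]
  calc ∑ S ∈ (II E).filter (fun S => ({x, b} : Finset V) ⊆ S), wt E β τ S
      ≤ ∑ S ∈ (II E).filter (fun S => ({x, b} : Finset V) ⊆ S),
          β ^ 2 * Real.exp (-(2 * τ * cd E x b)) * wt E β τ ((S.erase x).erase b) := by
        apply sum_le_sum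
        intro S hS
        set T := (S.erase x).erase b with hT
        have h1 : b ∉ T := notMem_erase _ _
        have h2 : x ∉ insert b T := by
          rw [mem_insert, not_or]
          refine ⟨hxb, ?_⟩
          rw [hT, mem_erase, mem_erase]
          tauto
        have h3 := hrec S hS
        rw [← hT] at h3
        rw [← h3, wt_insert hE h2]
        have h4 := wt_insert_le hE hβ hτ h1
        have h5 : Real.exp (-(2 * τ * Gp E x (insert b T))) ≤ Real.exp (-(2 * τ * cd E x b)) := by
          apply Real.exp_le_exp.2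
          have := cd_le_Gp (E := E) (r := x) (mem_insert_self b T)
          have : 2 * τ * (cd E x b : ℝ) ≤ 2 * τ * Gp E x (insert b T) := by
            apply mul_le_mul_of_nonneg_left this; positivity
          linarith
        have h6 := wt_nonneg (E := E) (τ := τ) hβ T
        calc wt E β τ (insert b T) * (β * Real.exp (-(2 * τ * Gp E x (insert b T))))
            ≤ (β * wt E β τ T) * (β * Real.exp (-(2 * τ * cd E x b))) := by
              apply mul_le_mul h4 _ (by positivity) (by positivity)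
              exact mul_le_mul_of_nonneg_left h5 hβ.le
          _ = _ := by ring
    _ = ∑ T ∈ ((II E).filter (fun S => ({x, b} : Finset V) ⊆ S)).image
          (fun S => (S.erase x).erase b),
          β ^ 2 * Real.exp (-(2 * τ * cd E x b)) * wt E β τ T := by
        rw [sum_image]
        intro S hS T hT hST
        have h1 := hrec S hS
        have h2 := hrec T hT
        simp only at hST
        rw [hST] at h1
        rw [← h1, h2]
    _ ≤ ∑ T ∈ II E, β ^ 2 * Real.exp (-(2 * τ * cd E x b)) * wt E β τ T :=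
        sum_le_sum_of_subset_of_nonneg himg fun T _ _ =>
          mul_nonneg (by positivity) (wt_nonneg hβ T)
    _ = _ := by rw [ZZ, mul_sum]

theorem mul_exp_neg_le {c t : ℝ} (ht : 0 < t) : c * Real.exp (-(t * c)) ≤ 1 / t := by
  rw [le_div_iff₀ ht]
  have h1 : t * c + 1 ≤ Real.exp (t * c) := Real.add_one_le_exp _
  have h2 : 0 < Real.exp (t * c) := Real.exp_pos _
  rw [Real.exp_neg]
  have : c * (Real.exp (t * c))⁻¹ * t = (t * c) / Real.exp (t * c) := by
    field_simp
  rw [this, div_le_one h2]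
  linarith

/-- second moment of codegrees inside `S` -/
theorem sum_cd_sq_mu (hE : Good E) (hβ : 0 < β) (hτ : 0 < τ) :
    ∑ x, ∑ b, (cd E x b : ℝ) ^ 2 * mu E β τ {x, b}
      ≤ β ^ 2 * (2 / τ) * (Fintype.card V : ℝ) ^ 2 * ZZ E β τ := by
  have hZ := ZZ_pos (E := E) (τ := τ) hβ
  have step : ∀ x b : V, (cd E x b : ℝ) ^ 2 * mu E β τ {x, b}
      ≤ (cd E x b : ℝ) * (β ^ 2 * (1 / (2 * τ)) * ZZ E β τ) := by
    intro x b
    by_cases hxb : x = b
    · subst hxb
      rw [hE.cd_self]; simp
    have h1 := pair_tilt hE hβ hτ.le hxb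
    have h2 : (cd E x b : ℝ) * Real.exp (-(2 * τ * cd E x b)) ≤ 1 / (2 * τ) :=
      mul_exp_neg_le (by positivity)
    have h3 : (0 : ℝ) ≤ cd E x b := Nat.cast_nonneg _
    calc (cd E x b : ℝ) ^ 2 * mu E β τ {x, b}
        ≤ (cd E x b : ℝ) ^ 2 * (β ^ 2 * Real.exp (-(2 * τ * cd E x b)) * ZZ E β τ) :=
          mul_le_mul_of_nonneg_left h1 (by positivity)
      _ = (cd E x b : ℝ) * (β ^ 2 * ((cd E x b : ℝ) * Real.exp (-(2 * τ * cd E x b))) * ZZ E β τ) := by
          ring
      _ ≤ _ := by
          apply mul_le_mul_of_nonneg_left _ h3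
          apply mul_le_mul_of_nonneg_right _ hZ.le
          apply mul_le_mul_of_nonneg_left h2 (by positivity)
  calc ∑ x, ∑ b, (cd E x b : ℝ) ^ 2 * mu E β τ {x, b}
      ≤ ∑ x, ∑ b, (cd E x b : ℝ) * (β ^ 2 * (1 / (2 * τ)) * ZZ E β τ) :=
        sum_le_sum fun x _ => sum_le_sum fun b _ => step x b
    _ = (∑ x, ∑ b, (cd E x b : ℝ)) * (β ^ 2 * (1 / (2 * τ)) * ZZ E β τ) := by
        rw [sum_mul]
        apply sum_congr rfl
        intro x _
        rw [sum_mul]
    _ ≤ (4 * (Fintype.card V : ℝ) ^ 2) * (β ^ 2 * (1 / (2 * τ)) * ZZ E β τ) := by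
        apply mul_le_mul_of_nonneg_right hE.sum_sum_cd_le
        positivity
    _ = _ := by
        field_simp
        ring

end Pool.Agent.MP_99d303_co
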