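import Pool.Agent.MP_99d303_co.Mu

set_option autoImplicit false
set_option linter.unusedSectionVars false

open Finset

namespace Pool.Agent.MP_99d303_co

variable {V : Type*} [Fintype V] [DecidableEq V]
variable {E : V → V → V → Prop} {β τ : ℝ}

theorem sum_pow_card (y : ℝ) : ∑ X : Finset V, y ^ X.card = (1 + y) ^ Fintype.card V := by
  have := Fintype.sum_pow_mul_eq_add_pow V y 1
  simpa [add_comm] using this

/-- entropy bound for families of small sets -/
theorem sum_beta_le (hβ : 0 < β) (F : Finset (Finset V)) {b : ℝ} (hb : 0 < b)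
    (hF : ∀ X ∈ F, (X.card : ℝ) ≤ b) (hbn : b ≤ Fintype.card V * β) :
    ∑ X ∈ F, β ^ X.card ≤ Real.exp (b * (1 + Real.log (Fintype.card V * β / b))) := by
  set n : ℝ := (Fintype.card V : ℝ) with hn
  have hn0 : 0 < n := by
    have h1 : 0 < n * β := lt_of_lt_of_le hb hbn
    exact (pos_iff_pos_of_mul_pos h1).2 hβ
  set R : ℝ := n * β / b with hR
  have hR1 : 1 ≤ R := by rw [hR, le_div_iff₀ hb]; linarith
  have hR0 : 0 < R := by linarith
  have hlog : 0 ≤ Real.log R := Real.log_nonneg hR1
  calc ∑ X ∈ F, β ^ X.card ≤ ∑ X ∈ F, Real.exp (b * Real.log R) * (b / n) ^ X.card := by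
        apply sum_le_sum
        intro X hX
        have h1 : β ^ X.card = R ^ X.card * (b / n) ^ X.card := by
          rw [← mul_pow]
          congr 1
          rw [hR]; field_simp
        rw [h1]
        apply mul_le_mul_of_nonneg_right _ (by positivity)
        have h2 : R ^ X.card = Real.exp (X.card * Real.log R) := by
          rw [Real.exp_nat_mul, Real.exp_log hR0]
        rw [h2]
        apply Real.exp_le_exp.2
        exact mul_le_mul_of_nonneg_right (hF X hX) hlog
    _ ≤ ∑ X : Finset V, Real.exp (b * Real.log R) * (b / n) ^ X.card :=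
        sum_le_sum_of_subset_of_nonneg (subset_univ _) fun X _ _ => by positivity
    _ = Real.exp (b * Real.log R) * (1 + b / n) ^ Fintype.card V := by
        rw [← mul_sum, sum_pow_card]
    _ ≤ Real.exp (b * Real.log R) * Real.exp b := by
        apply mul_le_mul_of_nonneg_left _ (Real.exp_pos _).le
        calc (1 + b / n) ^ Fintype.card V ≤ (Real.exp (b / n)) ^ Fintype.card V := by
              apply pow_le_pow_left₀ (by positivity)
              have := Real.add_one_le_exp (b / n)
              linarith
          _ = Real.exp (Fintype.card V * (b / n)) := by rw [Real.exp_nat_mul]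
          _ = Real.exp b := by
              congr 1
              rw [← hn]; field_simp
    _ = _ := by
        rw [← Real.exp_add]; congr 1; ring

/-- the Gibbs variational bound -/
theorem Gam_le_of (hβ : 0 < β) (hτ : 0 < τ) {L : ℝ}
    (hL : ∑ S ∈ II E, β ^ S.card ≤ Real.exp L) :
    Gam E β τ ≤ L / τ * ZZ E β τ := by
  have hZ := ZZ_pos (E := E) (τ := τ) hβ
  have hZ1 := ZZ_ge_one (E := E) (τ := τ) hβ
  set Z := ZZ E β τ with hZdef
  set c : ℝ := τ * Gam E β τ / Z with hc
  have h1 : Real.exp c * Z ≤ ∑ S ∈ II E, β ^ S.card := by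
    calc Real.exp c * Z = ∑ S ∈ II E, Real.exp c * (wt E β τ S * (1 + (τ * GG E S - c))) := by
          rw [← mul_sum]
          congr 1
          have : ∑ S ∈ II E, wt E β τ S * (1 + (τ * GG E S - c))
              = Z + τ * Gam E β τ - c * Z := by
            rw [hZdef, ZZ, Gam, mul_sum, mul_sum, ← sum_add_distrib, ← sum_sub_distrib]
            apply sum_congr rfl; intro S _; ring
          rw [this, hc]
          field_simp
          ring
      _ ≤ ∑ S ∈ II E, Real.exp c * (wt E β τ S * Real.exp (τ * GG E S - c)) := by
          apply sum_le_sum; intro S _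
          apply mul_le_mul_of_nonneg_left _ (Real.exp_pos _).le
          apply mul_le_mul_of_nonneg_left _ (wt_nonneg hβ S)
          have := Real.add_one_le_exp (τ * GG E S - c)
          linarith
      _ = ∑ S ∈ II E, β ^ S.card := by
          apply sum_congr rfl; intro S _
          have : Real.exp c * (wt E β τ S * Real.exp (τ * GG E S - c))
              = β ^ S.card * (Real.exp c * Real.exp (-(τ * GG E S)) * Real.exp (τ * GG E S - c)) := by
            rw [wt]; ring
          rw [this, ← Real.exp_add, ← Real.exp_add]
          have : c + -(τ * GG E S) + (τ * GG E S - c) = 0 := by ring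
          rw [this, Real.exp_zero, mul_one]
  have h2 : Real.exp c ≤ Real.exp L := by
    calc Real.exp c = Real.exp c * 1 := by ring
      _ ≤ Real.exp c * Z := mul_le_mul_of_nonneg_left hZ1 (Real.exp_pos _).le
      _ ≤ Real.exp L := le_trans h1 hL
  have h3 : c ≤ L := Real.exp_le_exp.1 h2
  rw [hc, div_le_iff₀ hZ] at h3
  rw [div_mul_eq_mul_div, le_div_iff₀ hτ]
  linarith

end Pool.Agent.MP_99d303_co
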