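import Pool.Agent.MP_99d303_co.Final

set_option autoImplicit false
set_option linter.unusedSectionVars false

open Finset

namespace Pool.Agent.MP_99d303_co

/-- the ternary relation of a family of triples -/
def rel {n : ℕ} (H : Finset (Finset (Fin n))) (x y z : Fin n) : Prop :=
  x ≠ y ∧ x ≠ z ∧ y ≠ z ∧ ({x, y, z} : Finset (Fin n)) ∈ H

theorem good_rel {n : ℕ} (H : Finset (Finset (Fin n)))
    (hP : ¬ ∃ a b c d e : Fin n, [a, b, c, d, e].Nodup ∧
            ({a, b, c} : Finset (Fin n)) ∈ H ∧ ({b, c, d} : Finset (Fin n)) ∈ H ∧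
            ({c, d, e} : Finset (Fin n)) ∈ H) : Good (rel H) := by
  classical
  refine ⟨?_, ?_, ?_, ?_⟩
  · rintro x y z ⟨h1, h2, h3, h4⟩
    refine ⟨h1.symm, h3, h2, ?_⟩
    rw [show ({y, x, z} : Finset (Fin n)) = {x, y, z} from insert_comm _ _ _]
    exact h4
  · rintro x y z ⟨h1, h2, h3, h4⟩
    refine ⟨h2, h1, h3.symm, ?_⟩
    rw [show ({x, z, y} : Finset (Fin n)) = {x, y, z} by rw [pair_comm z y]]
    exact h4
  · rintro x y z ⟨h1, -⟩; exact h1
  · intro x y z h3 hxyz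
    have hpos : 1 ≤ cd (rel H) x z := by
      apply cd_pos (z := y)
      obtain ⟨h1, h2, h3, h4⟩ := hxyz
      refine ⟨h2, h1, h3.symm, ?_⟩
      rw [show ({x, z, y} : Finset (Fin n)) = {x, y, z} by rw [pair_comm z y]]
      exact h4
    by_contra hne
    have h2 : 1 < cd (rel H) x z := by omega
    -- another vertex `b` with `x z b` an edge
    rw [cd, one_lt_card] at h2
    obtain ⟨b1, hb1, b2, hb2, hb12⟩ := h2
    obtain ⟨b, hb, hby⟩ : ∃ b ∈ lk (rel H) x z, b ≠ y := by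
      by_cases h : b1 = y
      · exact ⟨b2, hb2, fun h' => hb12 (h.trans h'.symm)⟩
      · exact ⟨b1, hb1, h⟩
    -- a vertex `a` with `x y a` an edge, `a ≠ z`, `a ≠ b`
    have h4 : ∃ a ∈ lk (rel H) x y, a ≠ z ∧ a ≠ b := by
      by_contra hcon
      push Not at hcon
      have : lk (rel H) x y ⊆ {z, b} := by
        intro a ha
        rw [mem_insert, mem_singleton]
        by_cases haz : a = z
        · exact Or.inl haz
        · exact Or.inr (hcon a ha haz)
      have h5 := card_le_card this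
      have h6 : ({z, b} : Finset (Fin n)).card ≤ 2 := card_le_two
      rw [cd] at h3
      omega
    obtain ⟨a, ha, haz, hab⟩ := h4
    rw [mem_lk] at ha hb
    obtain ⟨hxy, hxz, hyz, hH1⟩ := hxyz
    obtain ⟨-, hxa, hya, hH2⟩ := ha
    obtain ⟨-, hxb, hzb, hH3⟩ := hb
    apply hP
    -- the path `b, z, x, y, a`
    refine ⟨b, z, x, y, a, ?_, ?_, ?_, ?_⟩
    · simp only [List.nodup_cons, List.mem_cons, List.not_mem_nil, or_false, not_or,
        not_false_eq_true, List.nodup_nil, and_true]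
      exact ⟨⟨hzb.symm, hxb.symm, hby, hab.symm⟩, ⟨hxz.symm, hyz.symm, haz.symm⟩, ⟨hxy, hxa⟩, hya⟩
    · have : ({b, z, x} : Finset (Fin n)) = {x, z, b} := by
        ext w; simp only [mem_insert, mem_singleton]; tauto
      rw [this]; exact hH3
    · have : ({z, x, y} : Finset (Fin n)) = {x, y, z} := by
        ext w; simp only [mem_insert, mem_singleton]; tauto
      rw [this]; exact hH1
    · exact hH2

theorem path_or_ind (ε : ℝ) (hε : 0 < ε) :
    ∃ T : ℕ, ∀ t : ℕ, T ≤ t → ∀ n : ℕ, ε * (t : ℝ) ^ 2 ≤ (n : ℝ) →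
      ∀ H : Finset (Finset (Fin n)),
        (∃ a b c d e : Fin n, [a, b, c, d, e].Nodup ∧
            ({a, b, c} : Finset (Fin n)) ∈ H ∧ ({b, c, d} : Finset (Fin n)) ∈ H ∧
            ({c, d, e} : Finset (Fin n)) ∈ H) ∨
        (∃ S : Finset (Fin n), S.card = t ∧
            ∀ x y z : Fin n, x ∈ S → y ∈ S → z ∈ S → x ≠ y → x ≠ z → y ≠ z →
              ({x, y, z} : Finset (Fin n)) ∉ H) := by
  classical
  set δ : ℝ := min ε 1 with hδ
  have hδ0 : 0 < δ := lt_min hε one_pos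
  have hδ1 : δ ≤ 1 := min_le_right _ _
  have hsd0 : 0 < Real.sqrt δ := Real.sqrt_pos.2 hδ0
  have hsd1 : Real.sqrt δ ≤ 1 := Real.sqrt_le_one.2 hδ1
  set C : ℝ := 1 / Real.sqrt δ with hC
  have hC1 : 1 ≤ C := by rw [hC, le_div_iff₀ hsd0]; linarith
  obtain ⟨s0, hs0⟩ := exists_ind C hC1
  refine ⟨⌈s0 / Real.sqrt δ⌉₊, ?_⟩
  intro t ht n hn H
  by_cases hP : ∃ a b c d e : Fin n, [a, b, c, d, e].Nodup ∧
            ({a, b, c} : Finset (Fin n)) ∈ H ∧ ({b, c, d} : Finset (Fin n)) ∈ H ∧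
            ({c, d, e} : Finset (Fin n)) ∈ H
  · exact Or.inl hP
  · right
    have hg := good_rel H hP
    have ht0 : (0 : ℝ) ≤ t := Nat.cast_nonneg _
    -- `√n ≥ √δ t`
    have h1 : Real.sqrt δ * t ≤ Real.sqrt n := by
      apply Real.le_sqrt_of_sq_le
      rw [mul_pow, Real.sq_sqrt hδ0.le]
      refine le_trans ?_ hn
      exact mul_le_mul_of_nonneg_right (min_le_left _ _) (by positivity)
    have h2 : s0 ≤ Real.sqrt n := by
      refine le_trans ?_ h1
      have h3 : s0 / Real.sqrt δ ≤ t := by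
        refine le_trans (Nat.le_ceil _) ?_
        exact_mod_cast ht
      rw [div_le_iff₀ hsd0] at h3
      linarith
    obtain ⟨S, hS, hcard⟩ := hs0 n (rel H) hg (Real.sqrt n) h2
      (Real.sq_sqrt (Nat.cast_nonneg _)).symm
    have h4 : (t : ℝ) ≤ S.card := by
      have h5 : C * (Real.sqrt δ * t) ≤ C * Real.sqrt n :=
        mul_le_mul_of_nonneg_left h1 (by linarith)
      have h6 : C * (Real.sqrt δ * t) = t := by rw [hC]; field_simp
      linarith
    have h7 : t ≤ S.card := by exact_mod_cast h4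
    obtain ⟨S', hS'S, hS'card⟩ := exists_subset_card_eq h7
    refine ⟨S', hS'card, ?_⟩
    intro x y z hx hy hz hxy hxz hyz hmem
    exact hS x (hS'S hx) y (hS'S hy) z (hS'S hz) ⟨hxy, hxz, hyz, hmem⟩

end Pool.Agent.MP_99d303_co
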