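import Pool.Agent.MP_99d303_co.ErrTotal

set_option autoImplicit false
set_option linter.unusedSectionVars false

open Finset

namespace Pool.Agent.MP_99d303_co

variable {V : Type*} [Fintype V] [DecidableEq V]
variable {E : V → V → V → Prop} {β τ : ℝ}

open scoped Classical in
/-- leaves in `S` of star conflicts at `v` -/
noncomputable def RR (E : V → V → V → Prop) (v : V) (S : Finset V) : Finset V :=
  S.filter (fun x => ∃ y ∈ S, E v y x ∧ 3 ≤ cd E v y)

open scoped Classical in
/-- the vertices whose only conflicts with `S` are few star conflicts -/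
noncomputable def AA (E : V → V → V → Prop) (k : ℕ) (D : ℝ) (S : Finset V) : Finset V :=
  univ.filter (fun v => v ∉ S ∧ LLfree E v S ∧ (RR E v S).card ≤ k ∧ Gp E v S ≤ D)

open scoped Classical in
/-- number of ordered link pairs at `v` inside `S` -/
noncomputable def Nv (E : V → V → V → Prop) (v : V) (S : Finset V) : ℝ :=
  ∑ x, ∑ b, (if x ∈ S ∧ b ∈ S ∧ E v x b then (1 : ℝ) else 0)

theorem Nv_nonneg (v : V) (S : Finset V) : 0 ≤ Nv E v S := by
  unfold Nv
  apply sum_nonneg; intro x _
  apply sum_nonneg; intro b _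
  split_ifs <;> norm_num

theorem sum_Nv (hE : Good E) (S : Finset V) : ∑ v, Nv E v S = GG E S := by
  classical
  unfold Nv
  symm
  rw [sum_comm, GG, ← sum_ite_mem]
  apply sum_congr rfl
  intro x _
  rw [sum_comm]
  by_cases hx : x ∈ S
  · simp only [hx, if_true, true_and]
    rw [← sum_ite_mem]
    apply sum_congr rfl
    intro b _
    by_cases hb : b ∈ S
    · simp only [hb, if_true, true_and]
      rw [cd_eq_sum]
      apply sum_congr rfl
      intro v _
      have : E x b v ↔ E v x b := ⟨fun h => hE.rot' h, fun h => hE.rot h⟩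
      simp only [this]
    · simp [hb]
  · simp [hx]

theorem card_RR_le (hE : Good E) (v : V) (S : Finset V) : ((RR E v S).card : ℝ) ≤ Nv E v S := by
  classical
  unfold Nv
  have h1 : ((RR E v S).card : ℝ) = ∑ x, (if x ∈ RR E v S then (1 : ℝ) else 0) := by
    rw [sum_ite_mem, sum_const, nsmul_eq_mul, mul_one]
  rw [h1]
  apply sum_le_sum
  intro x _
  by_cases hx : x ∈ RR E v S
  · rw [if_pos hx]
    rw [RR, mem_filter] at hx
    obtain ⟨hxS, y, hy, hvy, -⟩ := hx
    have := single_le_sum (f := fun b => (if x ∈ S ∧ b ∈ S ∧ E v x b then (1 : ℝ) else 0))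
      (fun b _ => by split_ifs <;> norm_num) (mem_univ y)
    rwa [if_pos ⟨hxS, hy, hE.swap23 hvy⟩] at this
  · rw [if_neg hx]
    apply sum_nonneg; intro b _
    split_ifs <;> norm_num

theorem RR_mono (v : V) {S T : Finset V} (h : S ⊆ T) : RR E v S ⊆ RR E v T := by
  classical
  intro x hx
  rw [RR, mem_filter] at hx ⊢
  obtain ⟨h1, y, hy, h2⟩ := hx
  exact ⟨h h1, y, h hy, h2⟩

theorem sum_Gp_le (hE : Good E) (S : Finset V) :
    ∑ v, Gp E v S ≤ 4 * Fintype.card V * S.card := by
  unfold Gp
  rw [sum_comm]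
  calc ∑ a ∈ S, ∑ v, (cd E v a : ℝ) ≤ ∑ _a ∈ S, 4 * (Fintype.card V : ℝ) :=
        sum_le_sum fun a _ => hE.sum_cd_le' a
    _ = _ := by rw [sum_const, nsmul_eq_mul]; ring

theorem phi_nonneg (hβ : 0 < β) (v : V) (S : Finset V) : 0 ≤ phi E β τ v S := by
  unfold phi
  apply sum_nonneg; intro r _; positivity

theorem err_nonneg (hβ : 0 < β) (hτ : 0 ≤ τ) (v : V) (S : Finset V) : 0 ≤ err E β τ v S := by
  classical
  unfold err
  apply add_nonneg
  · apply mul_nonneg hβ.le
    apply sum_nonneg; intro x _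
    apply sum_nonneg; intro b _
    split_ifs <;> norm_num
  · apply mul_nonneg hβ.le
    apply sum_nonneg; intro x _
    apply sum_nonneg; intro b _
    apply sum_nonneg; intro u _
    apply sum_nonneg; intro b' _
    split_ifs <;> positivity

/-- for a fixed vertex: the typical sets have total weight bounded by the conflict free ones -/
theorem fixed_v (hE : Good E) (hβ : 0 < β) (hτ : 0 ≤ τ) (k : ℕ) (D Φ : ℝ) (v : V) :
    ∑ S ∈ (II E).filter (fun S => v ∉ S ∧ (RR E v S).card ≤ k ∧ Gp E v S ≤ D ∧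
        phi E β τ v S ≤ Φ ∧ err E β τ v S ≤ 1), wt E β τ S
      ≤ Real.exp (Φ + 1) * ∑ S ∈ (II E).filter (fun S => v ∈ AA E k D S), wt E β τ S := by
  classical
  set F := (II E).filter (fun S => v ∉ S ∧ (RR E v S).card ≤ k ∧ Gp E v S ≤ D ∧
        phi E β τ v S ≤ Φ ∧ err E β τ v S ≤ 1) with hF
  have hmaps : ∀ S ∈ F, core hE v S ∈ F.image (core hE v) := fun S hS => mem_image_of_mem _ hS
  rw [← sum_fiberwise_of_maps_to hmaps]
  have hphi : ∀ T ∈ F.image (core hE v), phi E β τ v T ≤ Φ + 1 := by
    intro T hT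
    rw [mem_image] at hT
    obtain ⟨S, hS, rfl⟩ := hT
    rw [hF, mem_filter] at hS
    obtain ⟨hI, -, -, -, h1, h2⟩ := hS
    have := phi_core_le (β := β) (τ := τ) hE hβ hτ v (mem_II.1 hI)
    linarith
  calc ∑ T ∈ F.image (core hE v), ∑ S ∈ F with core hE v S = T, wt E β τ S
      ≤ ∑ T ∈ F.image (core hE v), wt E β τ T * Real.exp (phi E β τ v T) := by
        apply sum_le_sum
        intro T _
        apply fibre_le hE hβ hτ v T
        intro S hS
        rw [mem_filter, hF, mem_filter] at hS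
        exact ⟨mem_II.1 hS.1.1, hS.2⟩
    _ ≤ ∑ T ∈ F.image (core hE v), Real.exp (Φ + 1) * wt E β τ T := by
        apply sum_le_sum
        intro T hT
        rw [mul_comm]
        exact mul_le_mul_of_nonneg_right (Real.exp_le_exp.2 (hphi T hT)) (wt_nonneg hβ T)
    _ ≤ ∑ T ∈ (II E).filter (fun S => v ∈ AA E k D S), Real.exp (Φ + 1) * wt E β τ T := by
        apply sum_le_sum_of_subset_of_nonneg
        · intro T hT
          rw [mem_image] at hT
          obtain ⟨S, hS, rfl⟩ := hT
          rw [hF, mem_filter] at hS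
          obtain ⟨hI, hv, hR, hG, -, -⟩ := hS
          have hsub := core_subset hE v S
          rw [mem_filter, mem_II, AA, mem_filter]
          refine ⟨(mem_II.1 hI).mono hsub, mem_univ _, fun h => hv (hsub h), core_free hE v S, ?_, ?_⟩
          · exact le_trans (card_le_card (RR_mono v hsub)) hR
          · exact le_trans (Gp_mono hsub) hG
        · intro T _ _
          exact mul_nonneg (Real.exp_pos _).le (wt_nonneg hβ T)
    _ = _ := by rw [mul_sum]

theorem stepA (hE : Good E) (hβ : 0 < β) (hτ : 0 < τ) {B K D : ℝ} {k : ℕ}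
    (hB : ∀ S ∈ II E, (S.card : ℝ) ≤ B) (hK : 0 < K)
    (hΓ : Gam E β τ ≤ K * Fintype.card V * ZZ E β τ)
    (hk : 16 * K ≤ k) (hD : 64 * B ≤ D) (hD0 : 0 < D)
    (hBN : B ≤ Fintype.card V / 16)
    (herr : β * ((9 + 16 * β * τ * Fintype.card V + β / τ + 6 * β * B) * (K * Fintype.card V)
          + 2 * β * (β ^ 2 * (2 / τ) * (Fintype.card V : ℝ) ^ 2)) ≤ Fintype.card V / 16) :
    (Fintype.card V : ℝ) / 2 * ZZ E β τ
      ≤ Real.exp (16 * K + 1) * ∑ S ∈ II E, wt E β τ S * ((AA E k D S).card : ℝ) := by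
  classical
  have hZ := ZZ_pos (E := E) (τ := τ) hβ
  set N : ℝ := (Fintype.card V : ℝ) with hN
  have hN0 : 0 ≤ N := Nat.cast_nonneg _
  have hB0 : 0 ≤ B := by
    have := hB ∅ empty_mem_II
    simpa using this
  have hτ0 := hτ.le
  -- the good predicate
  set P : V → Finset V → Prop := fun v S => v ∉ S ∧ (RR E v S).card ≤ k ∧ Gp E v S ≤ D ∧
        phi E β τ v S ≤ 16 * K ∧ err E β τ v S ≤ 1 with hP
  have hbad : ∀ S v, (if P v S then (0 : ℝ) else 1) ≤ (if v ∈ S then (1 : ℝ) else 0) + Nv E v S / (16 * K)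
      + Gp E v S / D + phi E β τ v S / (16 * K) + err E β τ v S := by
    intro S v
    have a1 : (0 : ℝ) ≤ (if v ∈ S then (1 : ℝ) else 0) := by split_ifs <;> norm_num
    have a2 : 0 ≤ Nv E v S / (16 * K) := div_nonneg (Nv_nonneg v S) (by positivity)
    have a3 : 0 ≤ Gp E v S / D := div_nonneg (Gp_nonneg v S) hD0.le
    have a4 : 0 ≤ phi E β τ v S / (16 * K) := div_nonneg (phi_nonneg hβ v S) (by positivity)
    have a5 := err_nonneg (E := E) (β := β) (τ := τ) hβ hτ0 v S
    by_cases h : P v S
    · rw [if_pos h]; linarith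
    rw [if_neg h]
    by_cases h1 : v ∈ S
    · rw [if_pos h1]; linarith
    by_cases h2 : (RR E v S).card ≤ k
    swap
    · have h3 : (k : ℝ) < (RR E v S).card := by exact_mod_cast not_le.1 h2
      have h4 := card_RR_le hE v S
      have : 1 ≤ Nv E v S / (16 * K) := by
        rw [le_div_iff₀ (by positivity)]; linarith
      linarith
    by_cases h3 : Gp E v S ≤ D
    swap
    · have : 1 ≤ Gp E v S / D := by rw [le_div_iff₀ hD0]; linarith [not_le.1 h3]
      linarith
    by_cases h4 : phi E β τ v S ≤ 16 * K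
    swap
    · have : 1 ≤ phi E β τ v S / (16 * K) := by
        rw [le_div_iff₀ (by positivity)]; linarith [not_le.1 h4]
      linarith
    by_cases h5 : err E β τ v S ≤ 1
    swap
    · linarith [not_le.1 h5]
    exact absurd ⟨h1, h2, h3, h4, h5⟩ h
  have hbadsum : ∑ S ∈ II E, wt E β τ S * ∑ v, (if P v S then (0 : ℝ) else 1) ≤ N / 2 * ZZ E β τ := by
    calc ∑ S ∈ II E, wt E β τ S * ∑ v, (if P v S then (0 : ℝ) else 1)
        ≤ ∑ S ∈ II E, wt E β τ S * ∑ v, ((if v ∈ S then (1 : ℝ) else 0) + Nv E v S / (16 * K)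
      + Gp E v S / D + phi E β τ v S / (16 * K) + err E β τ v S) := by
          apply sum_le_sum
          intro S _
          exact mul_le_mul_of_nonneg_left (sum_le_sum fun v _ => hbad S v) (wt_nonneg hβ S)
      _ = ∑ S ∈ II E, wt E β τ S * (∑ v, (if v ∈ S then (1 : ℝ) else 0))
          + (∑ S ∈ II E, wt E β τ S * ∑ v, Nv E v S) / (16 * K)
          + (∑ S ∈ II E, wt E β τ S * ∑ v, Gp E v S) / D
          + (∑ S ∈ II E, wt E β τ S * ∑ v, phi E β τ v S) / (16 * K)
          + ∑ S ∈ II E, wt E β τ S * ∑ v, err E β τ v S := by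
          rw [sum_div, sum_div, sum_div, ← sum_add_distrib, ← sum_add_distrib, ← sum_add_distrib,
            ← sum_add_distrib]
          apply sum_congr rfl
          intro S _
          rw [sum_add_distrib, sum_add_distrib, sum_add_distrib, sum_add_distrib,
            ← sum_div, ← sum_div, ← sum_div]
          ring
      _ ≤ B * ZZ E β τ + (K * N * ZZ E β τ) / (16 * K) + (4 * N * B * ZZ E β τ) / D
          + (K * N * ZZ E β τ) / (16 * K) + N / 16 * ZZ E β τ := by
          have t1 : ∑ S ∈ II E, wt E β τ S * (∑ v, (if v ∈ S then (1 : ℝ) else 0)) ≤ B * ZZ E β τ := by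
            rw [ZZ, mul_sum]
            apply sum_le_sum
            intro S hS
            rw [sum_ite_mem, sum_const, nsmul_eq_mul, mul_one, mul_comm]
            exact mul_le_mul_of_nonneg_right (hB S hS) (wt_nonneg hβ S)
          have t2 : ∑ S ∈ II E, wt E β τ S * ∑ v, Nv E v S ≤ K * N * ZZ E β τ := by
            simp_rw [sum_Nv hE]
            exact hΓ
          have t3 : ∑ S ∈ II E, wt E β τ S * ∑ v, Gp E v S ≤ 4 * N * B * ZZ E β τ := by
            rw [ZZ, mul_sum]
            apply sum_le_sum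
            intro S hS
            rw [mul_comm]
            apply mul_le_mul_of_nonneg_right _ (wt_nonneg hβ S)
            refine le_trans (sum_Gp_le hE S) ?_
            exact mul_le_mul_of_nonneg_left (hB S hS) (by positivity)
          have t4 : ∑ S ∈ II E, wt E β τ S * ∑ v, phi E β τ v S ≤ K * N * ZZ E β τ :=
            le_trans (sum_phi_le hE hβ) hΓ
          have t5 : ∑ S ∈ II E, wt E β τ S * ∑ v, err E β τ v S ≤ N / 16 * ZZ E β τ := by
            refine le_trans (err_total hE hβ hτ hB) ?_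
            have hcoef : 0 ≤ 9 + 16 * β * τ * N + β / τ + 6 * β * B := by positivity
            calc β * ((9 + 16 * β * τ * N + β / τ + 6 * β * B) * Gam E β τ
                  + 2 * β * (β ^ 2 * (2 / τ) * N ^ 2 * ZZ E β τ))
                ≤ β * ((9 + 16 * β * τ * N + β / τ + 6 * β * B) * (K * N * ZZ E β τ)
                  + 2 * β * (β ^ 2 * (2 / τ) * N ^ 2 * ZZ E β τ)) := by
                  apply mul_le_mul_of_nonneg_left _ hβ.le
                  apply add_le_add_left
                  exact mul_le_mul_of_nonneg_left hΓ hcoef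
              _ = (β * ((9 + 16 * β * τ * N + β / τ + 6 * β * B) * (K * N)
                  + 2 * β * (β ^ 2 * (2 / τ) * N ^ 2))) * ZZ E β τ := by ring
              _ ≤ N / 16 * ZZ E β τ := mul_le_mul_of_nonneg_right herr hZ.le
          gcongr
      _ ≤ N / 2 * ZZ E β τ := by
          have u1 : (K * N * ZZ E β τ) / (16 * K) = N / 16 * ZZ E β τ := by
            field_simp
          have u2 : (4 * N * B * ZZ E β τ) / D ≤ N / 16 * ZZ E β τ := by
            rw [div_le_iff₀ hD0]
            have : N * B * 64 ≤ N * D := by nlinarith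
            nlinarith [mul_le_mul_of_nonneg_right this hZ.le]
          rw [u1]
          have u3 : B * ZZ E β τ ≤ N / 16 * ZZ E β τ := mul_le_mul_of_nonneg_right hBN hZ.le
          nlinarith [mul_nonneg hN0 hZ.le]
  have htot : ∑ S ∈ II E, wt E β τ S * ∑ v : V, ((if P v S then (1 : ℝ) else 0) + (if P v S then (0 : ℝ) else 1))
      = N * ZZ E β τ := by
    rw [ZZ, mul_sum]
    apply sum_congr rfl
    intro S _
    have : ∑ v : V, ((if P v S then (1 : ℝ) else 0) + (if P v S then (0 : ℝ) else 1)) = N := by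
      have : ∀ v, ((if P v S then (1 : ℝ) else 0) + (if P v S then (0 : ℝ) else 1)) = 1 := by
        intro v; split_ifs <;> norm_num
      simp_rw [this]
      rw [sum_const, card_univ, nsmul_eq_mul, mul_one]
    rw [this]; ring
  have hgood : N / 2 * ZZ E β τ ≤ ∑ S ∈ II E, wt E β τ S * ∑ v, (if P v S then (1 : ℝ) else 0) := by
    have e : ∑ S ∈ II E, wt E β τ S * ∑ v : V, ((if P v S then (1 : ℝ) else 0) + (if P v S then (0 : ℝ) else 1))
        = ∑ S ∈ II E, wt E β τ S * ∑ v, (if P v S then (1 : ℝ) else 0)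
          + ∑ S ∈ II E, wt E β τ S * ∑ v, (if P v S then (0 : ℝ) else 1) := by
      rw [← sum_add_distrib]
      apply sum_congr rfl; intro S _
      rw [sum_add_distrib, mul_add]
    rw [e] at htot
    linarith
  refine le_trans hgood ?_
  have e1 : ∑ S ∈ II E, wt E β τ S * ∑ v, (if P v S then (1 : ℝ) else 0)
      = ∑ v, ∑ S ∈ (II E).filter (fun S => P v S), wt E β τ S := by
    simp_rw [mul_sum]
    rw [sum_comm]
    apply sum_congr rfl; intro v _
    rw [sum_filter]
    apply sum_congr rfl; intro S _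
    split_ifs <;> simp
  have e2 : ∑ S ∈ II E, wt E β τ S * ((AA E k D S).card : ℝ)
      = ∑ v, ∑ S ∈ (II E).filter (fun S => v ∈ AA E k D S), wt E β τ S := by
    have : ∀ S, ((AA E k D S).card : ℝ) = ∑ v, (if v ∈ AA E k D S then (1 : ℝ) else 0) := by
      intro S
      rw [sum_ite_mem, sum_const, nsmul_eq_mul, mul_one]
    simp_rw [this, mul_sum]
    rw [sum_comm]
    apply sum_congr rfl; intro v _
    rw [sum_filter]
    apply sum_congr rfl; intro S _
    split_ifs <;> simp
  rw [e1, e2, mul_sum]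
  apply sum_le_sum
  intro v _
  exact fixed_v hE hβ hτ0 k D (16 * K) v

end Pool.Agent.MP_99d303_co
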